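import Pool.Agent.H.MP_47f0a1_an.Defs

/-!
# Reduced free products of `C(Z)` and `C([0,1])^{*∞}`: definitions for the statements
-/

open MeasureTheory

namespace H7b

open H47

/-- The normalization of the measure `ν` on the subset `S` of the plane. -/
noncomputable def nrm (ν : Measure ℂ) (S : Set ℂ) : Measure S :=
  (ν S)⁻¹ • ν.comap (Subtype.val : S → ℂ)

/-- `(P, σ)` is the reduced free product of `(C(Z), μ)` (embedded by `a`) and of `(B, τ)`
(embedded by `b`). -/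
structure FreeProdZ {Z : Type*} [TopologicalSpace Z] [MeasurableSpace Z] (μ : Measure Z)
    {B : Type*} [CStarAlgebra B] (τ : B →ₗ[ℂ] ℂ) (P : Type*) [CStarAlgebra P] (σ : P →ₗ[ℂ] ℂ)
    (a : C(Z, ℂ) →⋆ₐ[ℂ] P) (b : B →⋆ₐ[ℂ] P) : Prop where
  integral : ∀ f, σ (a f) = ∫ x, f x ∂μ
  state : ∀ x, σ (b x) = τ x
  rfp : IsRFP σ ![a.range, b.range]

/-- The unit circle in the plane. -/
def circ : Set ℂ := Metric.sphere 0 1

/-- A circle and a segment. -/
def loll (z₀ : ℂ) (R : ℝ) (A B : ℂ) : Set ℂ := Metric.sphere z₀ R ∪ segment ℝ A B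

/-- A closed annulus. -/
def annu (z₀ : ℂ) (r R : ℝ) : Set ℂ := {z | r ≤ ‖z - z₀‖ ∧ ‖z - z₀‖ ≤ R}

end H7b
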