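import Pool.Agent.H.MP_7b4a29_an.PL

/-!
# Concrete subsets of the plane and their normalized measures
-/

open MeasureTheory

namespace H7b

/-- Recognition of the normalized measure: if a homeomorphism `ψ : Z → S` composed with the inclusion
pushes `μ` to `(ν S)⁻¹ ν|_S` then integrals of continuous functions on `S` against `nrm ν S` are
computed on `Z`.

Proof. `S` is closed so measurable, the inclusion is a measurable embedding; the push-forward of
`nrm ν S` under the inclusion is `(ν S)⁻¹ • ν.restrict S` (`MeasurableEmbedding.map_comap`), so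
`nrm ν S = μ.map ψ`, and `integral_map` (or `MeasurableEmbedding.integral_map`). -/
theorem integral_nrm {Z : Type*} [TopologicalSpace Z] [MeasurableSpace Z] [BorelSpace Z]
    (ν : Measure ℂ) (S : Set ℂ) (hS : IsClosed S) (μ : Measure Z) (ψ : Z ≃ₜ S)
    (h : μ.map (fun z => ((ψ z : S) : ℂ)) = (ν S)⁻¹ • ν.restrict S) (f : C(S, ℂ)) :
    ∫ z, f (ψ z) ∂μ = ∫ y, f y ∂(nrm ν S) := by
  have hm : MeasurableSet S := hS.measurableSet
  have hv : MeasurableEmbedding (Subtype.val : S → ℂ) := MeasurableEmbedding.subtype_coe hm
  have hψ : Measurable ψ := ψ.continuous.measurable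
  have e1 : (nrm ν S).map (Subtype.val : S → ℂ) = (ν S)⁻¹ • ν.restrict S := by
    rw [nrm, Measure.map_smul, map_comap_subtype_coe hm]
  have e2 : μ.map ψ = nrm ν S := by
    have h3 : (μ.map ψ).map (Subtype.val : S → ℂ) = (nrm ν S).map (Subtype.val : S → ℂ) := by
      rw [e1, ← h, Measure.map_map hv.measurable hψ]
      rfl
    have h4 := congrArg (Measure.comap (Subtype.val : S → ℂ)) h3
    rwa [hv.comap_map, hv.comap_map] at h4
  rw [← e2, integral_map hψ.aemeasurable]
  exact f.continuous.aestronglyMeasurable

end H7b
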