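import Pool.Agent.H.MP_7b4a29_an.PL

/-!
# One-dimensional Hausdorff measure of circles and segments
-/

open MeasureTheory

namespace H7b

/-- The parametrization `x ↦ z₀ + (c - z₀) exp(2π i x)` of a circle. -/
noncomputable def cpar (z₀ c : ℂ) (x : UnitAddCircle) : ℂ :=
  z₀ + (c - z₀) * (AddCircle.toCircle x : ℂ)

theorem cpar_continuous (z₀ c : ℂ) : Continuous (cpar z₀ c) := by
  unfold cpar
  exact continuous_const.add (continuous_const.mul
    (continuous_subtype_val.comp AddCircle.continuous_toCircle))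

theorem cpar_coe (z₀ c : ℂ) (x : ℝ) :
    cpar z₀ c (x : UnitAddCircle) = z₀ + (c - z₀) * Complex.exp (2 * Real.pi * x * Complex.I) := by
  unfold cpar
  rw [AddCircle.toCircle_apply_mk, Circle.coe_exp]
  congr 3
  push_cast
  ring

theorem h1_norm_sub (z₀ c : ℂ) (R : ℝ) (hc : ‖c - z₀‖ = R) (s t : ℝ) :
    ‖cpar z₀ c (s : UnitAddCircle) - cpar z₀ c (t : UnitAddCircle)‖ =
      R * |2 * Real.sin (Real.pi * (s - t))| := by
  rw [cpar_coe, cpar_coe]
  have e : z₀ + (c - z₀) * Complex.exp (2 * Real.pi * s * Complex.I) -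
      (z₀ + (c - z₀) * Complex.exp (2 * Real.pi * t * Complex.I)) =
      (c - z₀) * (Complex.exp (((2 * Real.pi * t : ℝ) : ℂ) * Complex.I) *
        (Complex.exp (Complex.I * ((2 * Real.pi * (s - t) : ℝ) : ℂ)) - 1)) := by
    rw [mul_sub, ← Complex.exp_add]
    have e1 : ((2 * Real.pi * t : ℝ) : ℂ) * Complex.I +
        Complex.I * ((2 * Real.pi * (s - t) : ℝ) : ℂ) = 2 * Real.pi * s * Complex.I := by
      push_cast
      ring
    have e2 : ((2 * Real.pi * t : ℝ) : ℂ) * Complex.I = 2 * Real.pi * t * Complex.I := by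
      push_cast
      ring
    rw [e1, e2]
    ring
  rw [e, norm_mul, norm_mul, hc, Complex.norm_exp_ofReal_mul_I, one_mul,
    Complex.norm_exp_I_mul_ofReal_sub_one, Real.norm_eq_abs]
  congr 4
  ring

theorem h1_upper (z₀ c : ℂ) (R : ℝ) (hR : 0 < R) (hc : ‖c - z₀‖ = R) (s t : ℝ) :
    ‖cpar z₀ c (s : UnitAddCircle) - cpar z₀ c (t : UnitAddCircle)‖ ≤
      2 * Real.pi * R * |s - t| := by
  rw [h1_norm_sub z₀ c R hc, abs_mul, abs_two]
  have h : |Real.sin (Real.pi * (s - t))| ≤ Real.pi * |s - t| := by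
    have h1 := Real.abs_sin_le_abs (x := Real.pi * (s - t))
    rwa [abs_mul, abs_of_pos Real.pi_pos] at h1
  have h2 := mul_le_mul_of_nonneg_left h (mul_nonneg hR.le zero_le_two)
  calc R * (2 * |Real.sin (Real.pi * (s - t))|) = R * 2 * |Real.sin (Real.pi * (s - t))| := by ring
    _ ≤ R * 2 * (Real.pi * |s - t|) := h2
    _ = _ := by ring

theorem h1_sin (y θ : ℝ) (hθ : θ < 1) (hy : y ^ 2 ≤ 6 * (1 - θ)) :
    θ * |y| ≤ |Real.sin y| := by
  have key : ∀ x : ℝ, 0 < x → x ^ 2 ≤ 6 * (1 - θ) → θ * x ≤ Real.sin x := by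
    intro x hx hx2
    have h := Real.sin_gt_sub_cube hx
    have h2 : x * x ^ 2 ≤ x * (6 * (1 - θ)) := mul_le_mul_of_nonneg_left hx2 hx.le
    nlinarith
  rcases lt_trichotomy y 0 with h | h | h
  · have h1 := key (-y) (by linarith) (by rw [neg_sq]; exact hy)
    rw [Real.sin_neg] at h1
    rw [abs_of_neg h]
    exact h1.trans (neg_le_abs _)
  · rw [h, abs_zero, mul_zero]
    exact abs_nonneg _
  · have h1 := key y h hy
    rw [abs_of_pos h]
    exact h1.trans (le_abs_self _)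

theorem h1_lower (z₀ c : ℂ) (R : ℝ) (hR : 0 < R) (hc : ‖c - z₀‖ = R) (θ : ℝ)
    (hθ : θ < 1) (s t : ℝ) (hst : (Real.pi * (s - t)) ^ 2 ≤ 6 * (1 - θ)) :
    θ * (2 * Real.pi * R) * |s - t| ≤
      ‖cpar z₀ c (s : UnitAddCircle) - cpar z₀ c (t : UnitAddCircle)‖ := by
  rw [h1_norm_sub z₀ c R hc, abs_mul, abs_two]
  have h := h1_sin (Real.pi * (s - t)) θ hθ hst
  rw [abs_mul, abs_of_pos Real.pi_pos] at h
  have h2 := mul_le_mul_of_nonneg_left h (mul_nonneg hR.le zero_le_two)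
  calc θ * (2 * Real.pi * R) * |s - t| = R * 2 * (θ * (Real.pi * |s - t|)) := by ring
    _ ≤ R * 2 * |Real.sin (Real.pi * (s - t))| := h2
    _ = _ := by ring

theorem h1_injOn (z₀ c : ℂ) (R : ℝ) (hR : 0 < R) (hc : ‖c - z₀‖ = R) :
    Set.InjOn (fun t : ℝ => cpar z₀ c (t : UnitAddCircle)) (Set.Ico 0 1) := by
  intro s hs t ht h
  have hc0 : c - z₀ ≠ 0 := by
    intro h0
    rw [h0, norm_zero] at hc
    exact hR.ne hc
  have h1 : z₀ + (c - z₀) * (AddCircle.toCircle (s : UnitAddCircle) : ℂ) =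
      z₀ + (c - z₀) * (AddCircle.toCircle (t : UnitAddCircle) : ℂ) := h
  have h2 := mul_left_cancel₀ hc0 (add_left_cancel h1)
  have h3 := AddCircle.injective_toCircle one_ne_zero (Subtype.ext h2)
  have hs' : s ∈ Set.Ico (0:ℝ) (0 + 1) := by rw [zero_add]; exact hs
  have ht' : t ∈ Set.Ico (0:ℝ) (0 + 1) := by rw [zero_add]; exact ht
  exact (AddCircle.coe_eq_coe_iff_of_mem_Ico hs' ht').1 h3

theorem h1_piece (z₀ c : ℂ) (R : ℝ) (hR : 0 < R) (hc : ‖c - z₀‖ = R) (θ : ℝ) (hθ0 : 0 < θ)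
    (hθ : θ < 1) (B : Set ℝ)
    (hB : ∀ s ∈ B, ∀ t ∈ B, (Real.pi * (s - t)) ^ 2 ≤ 6 * (1 - θ)) :
    ENNReal.ofReal (θ * (2 * Real.pi * R)) * volume B ≤
      Measure.hausdorffMeasure (1 : ℝ) ((fun t : ℝ => cpar z₀ c (t : UnitAddCircle)) '' B) := by
  have hK : 0 < θ * (2 * Real.pi * R) :=
    mul_pos hθ0 (mul_pos (mul_pos two_pos Real.pi_pos) hR)
  obtain ⟨K, hKdef⟩ : ∃ K : NNReal, K = Real.toNNReal (θ * (2 * Real.pi * R)) := ⟨_, rfl⟩
  have hKc : (K : ℝ) = θ * (2 * Real.pi * R) := by rw [hKdef, Real.coe_toNNReal _ hK.le]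
  have hK0 : K ≠ 0 := by
    intro h0
    rw [h0] at hKc
    have : (0 : ℝ) = θ * (2 * Real.pi * R) := hKc
    exact hK.ne this
  have hanti : AntilipschitzWith K⁻¹ (fun x : B => cpar z₀ c ((x : ℝ) : UnitAddCircle)) := by
    apply AntilipschitzWith.of_le_mul_dist
    intro x y
    have h := h1_lower z₀ c R hR hc θ hθ x y (hB x x.2 y y.2)
    have e : dist x y = |(x : ℝ) - y| := rfl
    rw [e, dist_eq_norm, NNReal.coe_inv, hKc]
    rw [inv_mul_eq_div, le_div_iff₀ hK]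
    calc |(x : ℝ) - y| * (θ * (2 * Real.pi * R)) = θ * (2 * Real.pi * R) * |(x : ℝ) - y| := by ring
      _ ≤ _ := h
  have h1 := hanti.le_hausdorffMeasure_image (zero_le_one (α := ℝ)) Set.univ
  have h2 : Measure.hausdorffMeasure (1 : ℝ) (Set.univ : Set B) = volume B := by
    have h3 := (isometry_subtype_coe (s := B)).hausdorffMeasure_image
      (Or.inl (zero_le_one (α := ℝ))) Set.univ
    rw [Set.image_univ, Subtype.range_coe, hausdorffMeasure_real] at h3
    exact h3.symm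
  have h4 : (fun x : B => cpar z₀ c ((x : ℝ) : UnitAddCircle)) '' Set.univ =
      (fun t : ℝ => cpar z₀ c (t : UnitAddCircle)) '' B := by
    ext w
    constructor
    · rintro ⟨x, _, rfl⟩
      exact ⟨x, x.2, rfl⟩
    · rintro ⟨x, hx, rfl⟩
      exact ⟨⟨x, hx⟩, trivial, rfl⟩
  rw [h2, h4, ENNReal.rpow_one, ENNReal.coe_inv hK0] at h1
  have h5 : ENNReal.ofReal (θ * (2 * Real.pi * R)) = (K : ENNReal) := by
    rw [hKdef]
    rfl
  rw [h5]
  have hKE : (K : ENNReal) ≠ 0 := by exact_mod_cast hK0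
  calc (K : ENNReal) * volume B ≤ (K : ENNReal) * ((K : ENNReal)⁻¹ *
        Measure.hausdorffMeasure (1 : ℝ) ((fun t : ℝ => cpar z₀ c (t : UnitAddCircle)) '' B)) := by
        gcongr
    _ = _ := by
      rw [← mul_assoc, ENNReal.mul_inv_cancel hKE ENNReal.coe_ne_top, one_mul]

theorem h1_arc_theta (z₀ c : ℂ) (R : ℝ) (hR : 0 < R) (hc : ‖c - z₀‖ = R) (A : Set ℝ)
    (hA : MeasurableSet A) (hA1 : A ⊆ Set.Ico 0 1) (θ : ℝ) (hθ0 : 0 < θ) (hθ : θ < 1) :
    ENNReal.ofReal (θ * (2 * Real.pi * R)) * volume A ≤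
      Measure.hausdorffMeasure (1 : ℝ) ((fun t : ℝ => cpar z₀ c (t : UnitAddCircle)) '' A) := by
  obtain ⟨N, hN⟩ := exists_nat_gt (max 1 (Real.pi ^ 2 / (6 * (1 - θ))))
  have hN1 : (1 : ℝ) < N := (le_max_left _ _).trans_lt hN
  have hN2 : Real.pi ^ 2 / (6 * (1 - θ)) < N := (le_max_right _ _).trans_lt hN
  have hpos : 0 < 6 * (1 - θ) := by linarith
  have hN3 : Real.pi ^ 2 < N * (6 * (1 - θ)) := (div_lt_iff₀ hpos).1 hN2
  obtain ⟨B, hBdef⟩ : ∃ B : ℤ → Set ℝ, B = fun k => A ∩ {t : ℝ | ⌊(N : ℝ) * t⌋ = k} := ⟨_, rfl⟩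
  have hBm : ∀ k, MeasurableSet (B k) := by
    intro k
    rw [hBdef]
    apply hA.inter
    have hf : Measurable (fun t : ℝ => ⌊(N : ℝ) * t⌋) :=
      Int.measurable_floor.comp (measurable_const_mul _)
    exact hf (measurableSet_singleton k)
  have hBu : (⋃ k, B k) = A := by
    rw [hBdef]
    ext t
    simp only [Set.mem_iUnion, Set.mem_inter_iff, Set.mem_setOf_eq]
    constructor
    · rintro ⟨k, h, _⟩
      exact h
    · intro h
      exact ⟨_, h, rfl⟩
  have hBsub : ∀ k, B k ⊆ A := by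
    intro k
    rw [hBdef]
    exact Set.inter_subset_left
  have hcont : Continuous (fun t : ℝ => cpar z₀ c (t : UnitAddCircle)) :=
    (cpar_continuous z₀ c).comp (AddCircle.continuous_mk' 1)
  have hinj := h1_injOn z₀ c R hR hc
  have himm : ∀ k, MeasurableSet ((fun t : ℝ => cpar z₀ c (t : UnitAddCircle)) '' B k) := by
    intro k
    exact (hBm k).image_of_continuousOn_injOn hcont.continuousOn
      (hinj.mono ((hBsub k).trans hA1))
  have hdisj : Pairwise (Function.onFun Disjoint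
      (fun k => (fun t : ℝ => cpar z₀ c (t : UnitAddCircle)) '' B k)) := by
    intro k l hkl
    rw [Function.onFun, Set.disjoint_left]
    rintro w ⟨s, hs, rfl⟩ ⟨t, ht, hst⟩
    have hst' := hinj (hA1 (hBsub l ht)) (hA1 (hBsub k hs)) hst
    subst hst'
    rw [hBdef] at hs ht
    exact hkl (hs.2.symm.trans ht.2)
  have hpc : ∀ k, ENNReal.ofReal (θ * (2 * Real.pi * R)) * volume (B k) ≤
      Measure.hausdorffMeasure (1 : ℝ)
        ((fun t : ℝ => cpar z₀ c (t : UnitAddCircle)) '' B k) := by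
    intro k
    apply h1_piece z₀ c R hR hc θ hθ0 hθ
    intro s hs t ht
    rw [hBdef] at hs ht
    have h1 : ⌊(N : ℝ) * s⌋ = ⌊(N : ℝ) * t⌋ := hs.2.trans ht.2.symm
    have h2 := Int.abs_sub_lt_one_of_floor_eq_floor h1
    rw [← mul_sub, abs_mul, abs_of_pos (by linarith : (0 : ℝ) < N)] at h2
    have h3 : (s - t) ^ 2 * N ≤ 1 := by
      have h4 : 0 ≤ |s - t| := abs_nonneg _
      have h5 : |s - t| ≤ 1 := by nlinarith
      rw [← sq_abs]
      calc |s - t| ^ 2 * N = |s - t| * (N * |s - t|) := by ring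
        _ ≤ 1 * 1 := mul_le_mul h5 h2.le (by positivity) zero_le_one
        _ = 1 := one_mul 1
    have h6 : 0 ≤ (s - t) ^ 2 := sq_nonneg _
    calc (Real.pi * (s - t)) ^ 2 = (s - t) ^ 2 * Real.pi ^ 2 := by ring
      _ ≤ (s - t) ^ 2 * (N * (6 * (1 - θ))) := mul_le_mul_of_nonneg_left hN3.le h6
      _ = ((s - t) ^ 2 * N) * (6 * (1 - θ)) := by ring
      _ ≤ 1 * (6 * (1 - θ)) := mul_le_mul_of_nonneg_right h3 hpos.le
      _ = _ := one_mul _
  calc ENNReal.ofReal (θ * (2 * Real.pi * R)) * volume A =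
      ENNReal.ofReal (θ * (2 * Real.pi * R)) * volume (⋃ k, B k) := by rw [hBu]
    _ ≤ ENNReal.ofReal (θ * (2 * Real.pi * R)) * ∑' k, volume (B k) := by
        gcongr
        exact measure_iUnion_le _
    _ = ∑' k, ENNReal.ofReal (θ * (2 * Real.pi * R)) * volume (B k) := ENNReal.tsum_mul_left.symm
    _ ≤ ∑' k, Measure.hausdorffMeasure (1 : ℝ)
        ((fun t : ℝ => cpar z₀ c (t : UnitAddCircle)) '' B k) := ENNReal.tsum_le_tsum hpc
    _ = Measure.hausdorffMeasure (1 : ℝ)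
        (⋃ k, (fun t : ℝ => cpar z₀ c (t : UnitAddCircle)) '' B k) :=
        (measure_iUnion hdisj himm).symm
    _ = _ := by rw [← Set.image_iUnion, hBu]

/-- Arc length. For a Borel (or arbitrary) set `A ⊆ [0, 1]` the Hausdorff measure of its image under
`t ↦ z₀ + (c - z₀) exp(2π i t)` is `2 π R` times its Lebesgue measure.

Proof. Let `γ t = z₀ + (c - z₀) exp(2π i t)`, `L = 2 π R`. Upper bound: `γ` is `L`-Lipschitz
(`‖exp(i s) - exp(i t)‖ ≤ |s - t|`), so `μH[1] (γ '' A) ≤ L μH[1] A = L volume A`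
(`LipschitzOnWith.hausdorffMeasure_image_le`, `hausdorffMeasure_real`). Lower bound: for
`|s - t| ≤ 1/n`, `|γ s - γ t| = 2 R |sin(π (s-t))| ≥ L (1 - π²/(6 n²)) |s - t|`
(`x - x³/6 ≤ sin x`), so that on pieces `A_k = A ∩ [k/n, (k+1)/n)` the inverse of `γ` is Lipschitz
with constant `(L (1 - π²/(6 n²)))⁻¹`: `volume A_k ≤ (L (1 - π²/(6n²)))⁻¹ μH[1] (γ '' A_k)`
(`AntilipschitzWith.hausdorffMeasure_preimage_le` on the piece, or Lipschitz image under the inverse).
Sum over `k` (the images are disjoint Borel sets for `A ⊆ [0,1)` Borel: `γ` is injective and continuous on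
`[0, 1)`), and let `n → ∞`. -/
theorem H1_arc (z₀ c : ℂ) (R : ℝ) (hR : 0 < R) (hc : ‖c - z₀‖ = R) (A : Set ℝ)
    (hA : MeasurableSet A) (hA1 : A ⊆ Set.Ico 0 1) :
    Measure.hausdorffMeasure (1 : ℝ) ((fun t : ℝ => cpar z₀ c (t : UnitAddCircle)) '' A) =
      ENNReal.ofReal (2 * Real.pi * R) * volume A := by
  have hL : 0 < 2 * Real.pi * R := mul_pos (mul_pos two_pos Real.pi_pos) hR
  apply le_antisymm
  · have hlip : LipschitzWith (Real.toNNReal (2 * Real.pi * R))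
        (fun t : ℝ => cpar z₀ c (t : UnitAddCircle)) := by
      apply LipschitzWith.of_dist_le_mul
      intro s t
      rw [dist_eq_norm, Real.dist_eq, Real.coe_toNNReal _ hL.le]
      exact h1_upper z₀ c R hR hc s t
    have h := hlip.hausdorffMeasure_image_le (zero_le_one (α := ℝ)) A
    rw [ENNReal.rpow_one, hausdorffMeasure_real] at h
    exact h
  · have hlim : Filter.Tendsto
        (fun θ : ℝ => ENNReal.ofReal (θ * (2 * Real.pi * R)) * volume A)
        (nhdsWithin 1 (Set.Iio 1)) (nhds (ENNReal.ofReal (1 * (2 * Real.pi * R)) * volume A)) := by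
      have hv : volume A ≠ ⊤ := by
        have h1 : volume A ≤ volume (Set.Ico (0:ℝ) 1) := measure_mono hA1
        rw [Real.volume_Ico] at h1
        exact (h1.trans_lt ENNReal.ofReal_lt_top).ne
      apply ENNReal.Tendsto.mul_const _ (Or.inr hv)
      apply ENNReal.tendsto_ofReal
      apply Filter.Tendsto.mono_left _ nhdsWithin_le_nhds
      exact (continuous_id.mul continuous_const).tendsto 1
    rw [one_mul] at hlim
    refine le_of_tendsto hlim ?_
    have h0 : ∀ᶠ θ : ℝ in nhdsWithin 1 (Set.Iio 1), 0 < θ :=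
      (lt_mem_nhds zero_lt_one).filter_mono nhdsWithin_le_nhds
    have h1 : ∀ᶠ θ : ℝ in nhdsWithin 1 (Set.Iio 1), θ < 1 := self_mem_nhdsWithin
    filter_upwards [h0, h1] with θ hθ0 hθ
    exact h1_arc_theta z₀ c R hR hc A hA hA1 θ hθ0 hθ

theorem h1_sphere (z₀ c : ℂ) (R : ℝ) (hR : 0 < R) (hc : ‖c - z₀‖ = R) :
    (fun t : ℝ => cpar z₀ c (t : UnitAddCircle)) '' Set.Ico 0 1 = Metric.sphere z₀ R := by
  have hc0 : c - z₀ ≠ 0 := by
    intro h0
    rw [h0, norm_zero] at hc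
    exact hR.ne hc
  ext w
  constructor
  · rintro ⟨t, _, rfl⟩
    rw [mem_sphere_iff_norm]
    show ‖z₀ + (c - z₀) * (AddCircle.toCircle (t : UnitAddCircle) : ℂ) - z₀‖ = R
    rw [add_sub_cancel_left, norm_mul, Circle.norm_coe, mul_one, hc]
  · intro hw
    rw [mem_sphere_iff_norm] at hw
    have h1 : ‖(w - z₀) / (c - z₀)‖ = 1 := by
      rw [norm_div, hw, hc, div_self hR.ne']
    obtain ⟨x, hx⟩ := (AddCircle.homeomorphCircle (T := (1:ℝ)) one_ne_zero).surjective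
      ⟨(w - z₀) / (c - z₀), mem_sphere_zero_iff_norm.2 h1⟩
    rw [AddCircle.homeomorphCircle_apply] at hx
    have h2 : x ∈ ((↑) : ℝ → AddCircle (1:ℝ)) '' Set.Ico 0 (0 + 1) := by
      rw [AddCircle.coe_image_Ico_eq (1:ℝ) 0]
      exact Set.mem_univ _
    obtain ⟨t, ht, htx⟩ := h2
    rw [zero_add] at ht
    refine ⟨t, ht, ?_⟩
    show z₀ + (c - z₀) * (AddCircle.toCircle (t : UnitAddCircle) : ℂ) = w
    have h3 : (AddCircle.toCircle (t : UnitAddCircle) : ℂ) = (w - z₀) / (c - z₀) := by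
      have h4 : (AddCircle.toCircle x : ℂ) = (w - z₀) / (c - z₀) := congrArg Subtype.val hx
      rw [← h4, ← htx]
    rw [h3, mul_div_cancel₀ _ hc0, add_sub_cancel]

/-- Hence the Hausdorff measure of the circle is the image of Lebesgue measure of `ℝ/ℤ`.
Proof. Evaluate on a Borel set `E`: with `A = {t ∈ [0,1) : γ t ∈ E}`, `γ '' A = sphere ∩ E` and
`volume {x : ℝ/ℤ | cpar x ∈ E} = volume A` (`AddCircle.measurePreserving_mk` or similar). -/
theorem H1_circle (z₀ c : ℂ) (R : ℝ) (hR : 0 < R) (hc : ‖c - z₀‖ = R) :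
    (Measure.hausdorffMeasure (1 : ℝ) : Measure ℂ).restrict (Metric.sphere z₀ R) =
      ENNReal.ofReal (2 * Real.pi * R) •
        (volume : Measure UnitAddCircle).map (cpar z₀ c) := by
  have hcont : Continuous (fun t : ℝ => cpar z₀ c (t : UnitAddCircle)) :=
    (cpar_continuous z₀ c).comp (AddCircle.continuous_mk' 1)
  ext E hE
  rw [Measure.restrict_apply hE, Measure.smul_apply, smul_eq_mul,
    Measure.map_apply (cpar_continuous z₀ c).measurable hE]
  have hA : MeasurableSet (Set.Ico (0:ℝ) 1 ∩ (fun t : ℝ => cpar z₀ c (t : UnitAddCircle)) ⁻¹' E) :=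
    measurableSet_Ico.inter (hcont.measurable hE)
  have h1 := H1_arc z₀ c R hR hc _ hA Set.inter_subset_left
  have h2 : (fun t : ℝ => cpar z₀ c (t : UnitAddCircle)) ''
      (Set.Ico (0:ℝ) 1 ∩ (fun t : ℝ => cpar z₀ c (t : UnitAddCircle)) ⁻¹' E) =
      E ∩ Metric.sphere z₀ R := by
    rw [Set.image_inter_preimage, h1_sphere z₀ c R hR hc, Set.inter_comm]
  rw [h2] at h1
  rw [h1]
  congr 1
  have h3 := UnitAddCircle.measurePreserving_mk 0
  rw [zero_add] at h3
  rw [← h3.measure_preimage ((cpar_continuous z₀ c).measurable hE).nullMeasurableSet,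
    Measure.restrict_congr_set Ico_ae_eq_Ioc.symm, Measure.restrict_apply, Set.inter_comm]
  · rfl
  · exact hcont.measurable hE

end H7b
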