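import Pool.Agent.H.MP_7b4a29_an.Emb
import Pool.Agent.H.MP_7b4a29_an.H1

/-!
# The unit circle in the plane
-/

open MeasureTheory

namespace H7b

/-- The circle group and the unit sphere of the plane. -/
noncomputable def embcAux : Circle ≃ₜ circ where
  toFun z := ⟨(z : ℂ), mem_sphere_zero_iff_norm.2 (Circle.norm_coe z)⟩
  invFun w := ⟨(w : ℂ), w.2⟩
  left_inv _ := rfl
  right_inv _ := rfl
  continuous_toFun := Continuous.subtype_mk continuous_subtype_val _
  continuous_invFun := Continuous.subtype_mk continuous_subtype_val _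

/-- The homeomorphism of the model circle with the unit circle. -/
noncomputable def embcHomeo : UnitAddCircle ≃ₜ circ :=
  (AddCircle.homeomorphCircle (T := (1 : ℝ)) one_ne_zero).trans embcAux

theorem embcAux_coe (z : Circle) : ((embcAux z : circ) : ℂ) = (z : ℂ) := rfl

theorem embc_coe (x : UnitAddCircle) : ((embcHomeo x : circ) : ℂ) = cpar 0 1 x := by
  rw [cpar, zero_add, sub_zero, one_mul, embcHomeo, Homeomorph.trans_apply, embcAux_coe,
    AddCircle.homeomorphCircle_apply]

/-- The unit circle is the model circle, with the normalized Hausdorff measure.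

Proof. `ψ x = cpar 0 1 x = exp(2π i x)`: a continuous bijection of the compact space `ℝ/ℤ` onto the unit
circle (`AddCircle.homeomorphCircle`, or `Continuous.homeoOfEquivCompactToT2`). The measure:
`integral_nrm` with `H1_circle` for `R = 1`: `μH[1] circ = 2π` (the total mass of the right side) and
`(2π)⁻¹ • 2π • map = map`. -/
theorem exists_embC : ∃ e : UnitAddCircle ≃ₜ circ, ∀ f : C(circ, ℂ),
    ∫ x, f (e x) = ∫ y, f y ∂(nrm (Measure.hausdorffMeasure (1 : ℝ)) circ) := by
  refine ⟨embcHomeo, fun f => ?_⟩
  have h1 := H1_circle 0 1 1 one_pos (by simp)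
  rw [mul_one] at h1
  have hc : (fun z => ((embcHomeo z : circ) : ℂ)) = cpar 0 1 := funext embc_coe
  have hpos : ENNReal.ofReal (2 * Real.pi) ≠ 0 := by
    rw [ENNReal.ofReal_ne_zero_iff]
    positivity
  have htop : ENNReal.ofReal (2 * Real.pi) ≠ ⊤ := ENNReal.ofReal_ne_top
  have hmass : (Measure.hausdorffMeasure (1 : ℝ) : Measure ℂ) circ =
      ENNReal.ofReal (2 * Real.pi) := by
    have h2 : ((Measure.hausdorffMeasure (1 : ℝ) : Measure ℂ).restrict (Metric.sphere 0 1))
        Set.univ = (ENNReal.ofReal (2 * Real.pi) •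
          (volume : Measure UnitAddCircle).map (cpar 0 1)) Set.univ := by rw [h1]
    rw [Measure.restrict_apply_univ, Measure.smul_apply,
      Measure.map_apply (cpar_continuous 0 1).measurable MeasurableSet.univ,
      Set.preimage_univ, UnitAddCircle.measure_univ, smul_eq_mul, mul_one] at h2
    exact h2
  refine integral_nrm _ circ Metric.isClosed_sphere volume embcHomeo ?_ f
  rw [hc, hmass]
  have h3 : (Measure.hausdorffMeasure (1 : ℝ) : Measure ℂ).restrict circ =
      ENNReal.ofReal (2 * Real.pi) • (volume : Measure UnitAddCircle).map (cpar 0 1) := h1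
  rw [h3, smul_smul, ENNReal.inv_mul_cancel hpos htop, one_smul]

end H7b
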