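import Mathlib

/-!
# One-dimensional Hausdorff measure of segments
-/

open MeasureTheory

namespace H7b

/-- The segment.
Proof. `t ↦ A + t (B - A)` is a similarity with ratio `‖B - A‖` of `ℝ` into `ℂ`; `t ↦ A + t w` with
`w = (B - A)/‖B - A‖` is an isometry (`Isometry.hausdorffMeasure_image`,
`hausdorffMeasure_real`), and scaling of Lebesgue measure. -/
theorem H1_segment (A B : ℂ) (hAB : A ≠ B) :
    (Measure.hausdorffMeasure (1 : ℝ) : Measure ℂ).restrict (segment ℝ A B) =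
      ENNReal.ofReal ‖B - A‖ •
        (volume : Measure unitInterval).map (fun u : unitInterval => A + (u : ℝ) * (B - A)) := by
  have hBA : B - A ≠ 0 := sub_ne_zero.2 (Ne.symm hAB)
  have hL : 0 < ‖B - A‖ := norm_pos_iff.2 hBA
  have hLc : ((‖B - A‖ : ℝ) : ℂ) ≠ 0 := by exact_mod_cast hL.ne'
  obtain ⟨w, hw⟩ : ∃ w : ℂ, w = (B - A) / (‖B - A‖ : ℝ) := ⟨_, rfl⟩
  have hwn : ‖w‖ = 1 := by
    rw [hw, norm_div, Complex.norm_real, norm_norm, div_self hL.ne']
  have hwL : ((‖B - A‖ : ℝ) : ℂ) * w = B - A := by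
    rw [hw, mul_div_cancel₀ _ hLc]
  obtain ⟨φ, hφ⟩ : ∃ φ : ℝ → ℂ, φ = fun t : ℝ => A + (t : ℂ) * w := ⟨_, rfl⟩
  have hiso : Isometry φ := by
    refine Isometry.of_dist_eq fun x y => ?_
    rw [hφ, dist_eq_norm, dist_eq_norm]
    have e : (fun t : ℝ => A + (t : ℂ) * w) x - (fun t : ℝ => A + (t : ℂ) * w) y =
        ((x - y : ℝ) : ℂ) * w := by
      push_cast
      ring
    rw [e, norm_mul, hwn, mul_one, Complex.norm_real]
  have hseg : segment ℝ A B = φ '' Set.Icc 0 ‖B - A‖ := by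
    rw [segment_eq_image', hφ]
    ext z
    constructor
    · rintro ⟨t, ht, rfl⟩
      refine ⟨t * ‖B - A‖, ⟨mul_nonneg ht.1 hL.le, ?_⟩, ?_⟩
      · calc t * ‖B - A‖ ≤ 1 * ‖B - A‖ := mul_le_mul_of_nonneg_right ht.2 hL.le
          _ = ‖B - A‖ := one_mul _
      · show A + ((t * ‖B - A‖ : ℝ) : ℂ) * w = A + t • (B - A)
        rw [Complex.ofReal_mul, mul_assoc, hwL, Complex.real_smul]
    · rintro ⟨t, ht, rfl⟩
      refine ⟨t / ‖B - A‖, ⟨div_nonneg ht.1 hL.le, (div_le_one hL).2 ht.2⟩, ?_⟩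
      show A + (t / ‖B - A‖) • (B - A) = A + (t : ℂ) * w
      rw [Complex.real_smul, Complex.ofReal_div, hw]
      field_simp
  have hmeas : Measurable (fun u : unitInterval => A + ((u : ℝ) : ℂ) * (B - A)) := by
    have hc : Continuous (fun u : unitInterval => A + ((u : ℝ) : ℂ) * (B - A)) := by
      fun_prop
    exact hc.measurable
  ext s hs
  rw [Measure.restrict_apply hs, Measure.smul_apply, Measure.map_apply hmeas hs, smul_eq_mul]
  have h1 : s ∩ segment ℝ A B = φ '' (φ ⁻¹' s ∩ Set.Icc 0 ‖B - A‖) := by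
    rw [hseg, Set.image_preimage_inter]
  have h2 : Measure.hausdorffMeasure (1 : ℝ) (s ∩ segment ℝ A B) =
      (volume : Measure ℝ) (φ ⁻¹' s ∩ Set.Icc 0 ‖B - A‖) := by
    rw [h1, hiso.hausdorffMeasure_image (Or.inl zero_le_one), hausdorffMeasure_real]
  have h3 : (volume : Measure unitInterval)
      ((fun u : unitInterval => A + ((u : ℝ) : ℂ) * (B - A)) ⁻¹' s) =
      (volume : Measure ℝ) ((fun t : ℝ => ‖B - A‖ * t) ⁻¹' (φ ⁻¹' s ∩ Set.Icc 0 ‖B - A‖)) := by
    rw [Measure.Subtype.volume_def, comap_subtype_coe_apply measurableSet_Icc]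
    congr 1
    ext t
    constructor
    · rintro ⟨u, hu, rfl⟩
      refine ⟨?_, mul_nonneg hL.le u.2.1, ?_⟩
      · have hu' : A + ((u : ℝ) : ℂ) * (B - A) ∈ s := hu
        show φ (‖B - A‖ * (u : ℝ)) ∈ s
        have e : φ (‖B - A‖ * (u : ℝ)) = A + ((u : ℝ) : ℂ) * (B - A) := by
          rw [hφ]
          show A + ((‖B - A‖ * (u : ℝ) : ℝ) : ℂ) * w = _
          rw [Complex.ofReal_mul, mul_comm ((‖B - A‖ : ℝ) : ℂ), mul_assoc, hwL]
        rw [e]
        exact hu'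
      · show ‖B - A‖ * (u : ℝ) ≤ ‖B - A‖
        calc ‖B - A‖ * (u : ℝ) ≤ ‖B - A‖ * 1 := mul_le_mul_of_nonneg_left u.2.2 hL.le
          _ = ‖B - A‖ := mul_one _
    · rintro ⟨ht, ht0, ht1⟩
      have ht0' : 0 ≤ ‖B - A‖ * t := ht0
      have ht1' : ‖B - A‖ * t ≤ ‖B - A‖ := ht1
      have a0 : 0 ≤ t := by
        by_contra h
        have h' : t < 0 := not_le.1 h
        have := mul_neg_of_pos_of_neg hL h'
        linarith
      have a1 : t ≤ 1 := by
        by_contra h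
        have h' : 1 < t := not_le.1 h
        have := mul_lt_mul_of_pos_left h' hL
        linarith
      refine ⟨⟨t, a0, a1⟩, ?_, rfl⟩
      show A + (t : ℂ) * (B - A) ∈ s
      have e : φ (‖B - A‖ * t) = A + (t : ℂ) * (B - A) := by
        rw [hφ]
        show A + ((‖B - A‖ * t : ℝ) : ℂ) * w = _
        rw [Complex.ofReal_mul, mul_comm ((‖B - A‖ : ℝ) : ℂ), mul_assoc, hwL]
      rw [← e]
      exact ht
  rw [h2, h3, Real.volume_preimage_mul_left hL.ne', ← mul_assoc,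
    ← ENNReal.ofReal_mul hL.le, abs_inv, abs_of_pos hL, mul_inv_cancel₀ hL.ne',
    ENNReal.ofReal_one, one_mul]

end H7b
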