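import Pool.Agent.H.MP_47f0a1_an.PZB
import Pool.Agent.H.MP_7b4a29_an.Defs

/-!
# The general isomorphism theorem
-/

open MeasureTheory

namespace H7b

open H47

/-- `C(Z) * C([0,1])^{*∞}` and `C(Z') * C([0,1])^{*∞}` are isomorphic. -/
def EqPZ {Z Z' : Type} [MetricSpace Z] [CompactSpace Z] [MeasurableSpace Z] [BorelSpace Z]
    [MetricSpace Z'] [CompactSpace Z'] [MeasurableSpace Z'] [BorelSpace Z']
    (μ : Measure Z) [IsProbabilityMeasure μ] (μ' : Measure Z') [IsProbabilityMeasure μ'] : Prop :=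
  ∀ (P P' : Type) [CStarAlgebra P] [CStarAlgebra P'] (tr : P →ₗ[ℂ] ℂ) (tr' : P' →ₗ[ℂ] ℂ)
    (inc : C(Z, ℂ) →⋆ₐ[ℂ] P) (kap : ℕ → C(unitInterval, ℂ) →⋆ₐ[ℂ] P)
    (inc' : C(Z', ℂ) →⋆ₐ[ℂ] P') (kap' : ℕ → C(unitInterval, ℂ) →⋆ₐ[ℂ] P'),
    IsPZ μ tr inc kap → IsPZ μ' tr' inc' kap' → Nonempty (P ≃⋆ₐ[ℂ] P')

variable {Z Z' Z'' : Type} [MetricSpace Z] [CompactSpace Z] [MeasurableSpace Z] [BorelSpace Z]
  [MetricSpace Z'] [CompactSpace Z'] [MeasurableSpace Z'] [BorelSpace Z']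
  [MetricSpace Z''] [CompactSpace Z''] [MeasurableSpace Z''] [BorelSpace Z'']
  {μ : Measure Z} [IsProbabilityMeasure μ] {μ' : Measure Z'} [IsProbabilityMeasure μ']
  {μ'' : Measure Z''} [IsProbabilityMeasure μ'']

theorem EqPZ.symm (h : EqPZ μ μ') : EqPZ μ' μ := by
  intro P P' _ _ tr tr' inc kap inc' kap' k k'
  obtain ⟨e⟩ := h P' P tr' tr inc' kap' inc kap k' k
  exact ⟨e.symm⟩

/-- Transitivity: through an algebra for the middle space, which exists by `exists_PZ`. -/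
theorem EqPZ.trans [μ'.IsOpenPosMeasure] (h : EqPZ μ μ') (h' : EqPZ μ' μ'') : EqPZ μ μ'' := by
  intro P P' _ _ tr tr' inc kap inc' kap' k k'
  obtain ⟨P₀, _, tr₀, inc₀, kap₀, k₀, -⟩ := exists_PZ μ'
  obtain ⟨e⟩ := h P P₀ tr tr₀ inc kap inc₀ kap₀ k k₀
  obtain ⟨e'⟩ := h' P₀ P' tr₀ tr' inc₀ kap₀ inc' kap' k₀ k'
  exact ⟨e.trans e'⟩

/-- **General isomorphism theorem.** `p` and `q` preserve the measures, and there are homotopies `c`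
of `Z`, `c'` of `Z'` from the identity to maps that do not see `p ∘ q`, `q ∘ p` respectively.
The proof is that of `H47.IsPZ.iso` (file `PZB`): reduce to the algebras of `exists_PZ` by
`IsPZ.unique`; `Φ` for `p`, `Ψ` for `q` by `IsPZ.hom`; `Ψ Φ` is induced by `p ∘ q : Z → Z`
(`c (1, p (q z)) = c (1, z)`), `Φ Ψ` by `q ∘ p`; `intertwine`. -/
theorem EqPZ.of_maps [μ.IsOpenPosMeasure] [μ'.IsOpenPosMeasure] (p : C(Z', Z)) (q : C(Z, Z'))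
    (hp : ∀ a : C(Z, ℂ), intL μ' (a.comp p) = intL μ a)
    (hq : ∀ a : C(Z', ℂ), intL μ (a.comp q) = intL μ' a)
    (c : C(unitInterval × Z, Z)) (c0 : ∀ z, c (0, z) = z) (c1 : ∀ z, c (1, p (q z)) = c (1, z))
    (c' : C(unitInterval × Z', Z')) (c0' : ∀ z, c' (0, z) = z)
    (c1' : ∀ z, c' (1, q (p z)) = c' (1, z)) : EqPZ μ μ' := by
  intro P P' _ _ tr tr' inc kap inc' kap' h h'
  obtain ⟨P₀, _, tr₀, inc₀, kap₀, k₀, app₀⟩ := exists_PZ μ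
  obtain ⟨P₁, _, tr₁, inc₁, kap₁, k₁, app₁⟩ := exists_PZ μ'
  obtain ⟨u₀, -⟩ := h.unique k₀
  obtain ⟨u₁, -⟩ := h'.unique k₁
  obtain ⟨Φ, hΦ1, hΦ2, -, hΦ3⟩ := k₀.hom k₁ p hp
  obtain ⟨Ψ, hΨ1, hΨ2, -, hΨ3⟩ := k₁.hom k₀ q hq
  have := k₀.separable
  have := k₁.separable
  obtain ⟨e⟩ := intertwine Φ Ψ hΦ3 hΨ3
    (fun F ε hε => by
      refine app₀ (p.comp q) (fun a => ?_) c c0 (fun z => c1 z) (Ψ.comp Φ) (fun a => ?_)
        (fun j f => ?_) F ε hε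
      · rw [← ContinuousMap.comp_assoc, hq, hp]
      · rw [StarAlgHom.comp_apply, hΦ1, hΨ1, ContinuousMap.comp_assoc]
      · rw [StarAlgHom.comp_apply, hΦ2, hΨ2])
    (fun F ε hε => by
      refine app₁ (q.comp p) (fun a => ?_) c' c0' (fun z => c1' z) (Φ.comp Ψ) (fun a => ?_)
        (fun j f => ?_) F ε hε
      · rw [← ContinuousMap.comp_assoc, hp, hq]
      · rw [StarAlgHom.comp_apply, hΨ1, hΦ1, ContinuousMap.comp_assoc]
      · rw [StarAlgHom.comp_apply, hΨ2, hΦ2])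
  exact ⟨(u₀.trans e).trans u₁.symm⟩

end H7b
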