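import Pool.Agent.H.MP_7b4a29_an.PL
import Pool.Agent.H.MP_7b4a29_an.Gen

/-!
# The model of the circle with a segment
-/

open MeasureTheory

namespace H7b

open H47

/-- Parameters: `al` is the mass of the circle, `be` the position of the common point on the segment
`[0,1]`. -/
structure XP where
  al : ℝ
  pos : 0 < al
  lt1 : al < 1
  be : unitInterval

/-- The model space: `{(x, u) ∈ ℝ/ℤ × [0,1] : x = 0 or u = be}`. -/
def XM (P : XP) : Set (UnitAddCircle × unitInterval) := {z | z.1 = 0 ∨ z.2 = P.be}

theorem isClosed_XM (P : XP) : IsClosed (XM P) := by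
  have h1 : IsClosed {z : UnitAddCircle × unitInterval | z.1 = 0} :=
    isClosed_eq continuous_fst continuous_const
  have h2 : IsClosed {z : UnitAddCircle × unitInterval | z.2 = P.be} :=
    isClosed_eq continuous_snd continuous_const
  exact h1.union h2

instance instCompactXM (P : XP) : CompactSpace (XM P) :=
  isCompact_iff_compactSpace.mp (isClosed_XM P).isCompact

/-- The circle in the model. -/
def inC (P : XP) : C(UnitAddCircle, XM P) where
  toFun x := ⟨(x, P.be), Or.inr rfl⟩
  continuous_toFun := by fun_prop

/-- The segment in the model. -/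
def inS (P : XP) : C(unitInterval, XM P) where
  toFun u := ⟨(0, u), Or.inl rfl⟩
  continuous_toFun := by fun_prop

/-- The measure of the model. -/
noncomputable def nuX (P : XP) : Measure (XM P) :=
  ENNReal.ofReal P.al • (volume : Measure UnitAddCircle).map (inC P) +
    ENNReal.ofReal (1 - P.al) • (volume : Measure unitInterval).map (inS P)

instance instProbX (P : XP) : IsProbabilityMeasure (nuX P) := by
  constructor
  have h1 : ((volume : Measure UnitAddCircle).map (inC P)) Set.univ = 1 := by
    rw [Measure.map_apply (inC P).continuous.measurable MeasurableSet.univ, Set.preimage_univ,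
      measure_univ]
  have h2 : ((volume : Measure unitInterval).map (inS P)) Set.univ = 1 := by
    rw [Measure.map_apply (inS P).continuous.measurable MeasurableSet.univ, Set.preimage_univ,
      measure_univ]
  have hl := P.lt1
  rw [nuX, Measure.add_apply, Measure.smul_apply, Measure.smul_apply, h1, h2, smul_eq_mul,
    smul_eq_mul, mul_one, mul_one, ← ENNReal.ofReal_add P.pos.le (by linarith)]
  simp

/-- Lebesgue measure on the segment has full support. -/
theorem xmod_openPos : (volume : Measure unitInterval).IsOpenPosMeasure := by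
  constructor
  rintro U hU ⟨x, hx⟩ h0
  obtain ⟨V, hV, rfl⟩ := isOpen_induced_iff.mp hU
  have h1 : (volume : Measure unitInterval) (Subtype.val ⁻¹' V)
      = (volume : Measure ℝ) (Subtype.val '' (Subtype.val ⁻¹' V : Set unitInterval)) :=
    comap_subtype_coe_apply measurableSet_Icc _ _
  have hcl : (x : ℝ) ∈ closure (Set.Ioo (0 : ℝ) 1) := by
    rw [closure_Ioo (by norm_num)]
    exact x.2
  obtain ⟨y, hyV, hy⟩ := mem_closure_iff.mp hcl V hV hx
  have h2 : (volume : Measure ℝ) (V ∩ Set.Ioo 0 1) ≠ 0 :=
    (hV.inter isOpen_Ioo).measure_ne_zero _ ⟨y, hyV, hy⟩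
  apply h2
  rw [h1] at h0
  refine measure_mono_null ?_ h0
  rintro z ⟨hz1, hz2⟩
  exact ⟨⟨z, hz2.1.le, hz2.2.le⟩, hz1, rfl⟩

/-- Every nonempty open set meets the circle or the segment in a nonempty relatively open set. -/
instance instOpenPosX (P : XP) : (nuX P).IsOpenPosMeasure := by
  constructor
  rintro U hU ⟨⟨⟨x, u⟩, hz⟩, hzU⟩
  have hl := P.lt1
  rw [nuX, Measure.add_apply, Measure.smul_apply, Measure.smul_apply, smul_eq_mul, smul_eq_mul,
    Measure.map_apply (inC P).continuous.measurable hU.measurableSet,
    Measure.map_apply (inS P).continuous.measurable hU.measurableSet]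
  have hz' : x = 0 ∨ u = P.be := hz
  rcases hz' with h | h
  · have h3 : (volume : Measure unitInterval) ((inS P) ⁻¹' U) ≠ 0 := by
      have := xmod_openPos
      refine (hU.preimage (inS P).continuous).measure_ne_zero _ ⟨u, ?_⟩
      subst h
      exact hzU
    have h4 : ENNReal.ofReal (1 - P.al) ≠ 0 := by
      rw [Ne, ENNReal.ofReal_eq_zero, not_le]
      linarith
    intro h5
    exact (mul_ne_zero h4 h3) (add_eq_zero.mp h5).2
  · have h3 : (volume : Measure UnitAddCircle) ((inC P) ⁻¹' U) ≠ 0 := by
      refine (hU.preimage (inC P).continuous).measure_ne_zero _ ⟨x, ?_⟩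
      subst h
      exact hzU
    have h4 : ENNReal.ofReal P.al ≠ 0 := by
      rw [Ne, ENNReal.ofReal_eq_zero, not_le]
      exact P.pos
    intro h5
    exact (mul_ne_zero h4 h3) (add_eq_zero.mp h5).1

theorem integral_nuX (P : XP) (f : C(XM P, ℂ)) :
    intL (nuX P) f = (P.al : ℂ) * (∫ x, f (inC P x)) +
      ((1 - P.al : ℝ) : ℂ) * ∫ u, f (inS P u) := by
  have hl := P.lt1
  have hint : ∀ (μ : Measure (XM P)) [IsFiniteMeasure μ], Integrable (fun x => f x) μ := by
    intro μ _
    exact BoundedContinuousFunction.integrable μ (BoundedContinuousFunction.mkOfCompact f)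
  rw [intL_apply, nuX, integral_add_measure ((hint _).smul_measure ENNReal.ofReal_ne_top)
    ((hint _).smul_measure ENNReal.ofReal_ne_top), integral_smul_measure, integral_smul_measure,
    integral_map (inC P).continuous.measurable.aemeasurable f.continuous.aestronglyMeasurable,
    integral_map (inS P).continuous.measurable.aemeasurable f.continuous.aestronglyMeasurable,
    ENNReal.toReal_ofReal P.pos.le, ENNReal.toReal_ofReal (by linarith)]
  rfl

end H7b
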