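import Pool.Agent.H.MP_7b4a29_an.Emb
import Pool.Agent.H.MP_7b4a29_an.H1
import Pool.Agent.H.MP_7b4a29_an.H1S
import Pool.Agent.H.MP_7b4a29_an.XMod

/-!
# A circle and a segment in the plane
-/

open MeasureTheory

namespace H7b

open H47

/-- The map of the model into the plane. -/
noncomputable def embxMap (z₀ A B c : ℂ) (be : unitInterval) (z : UnitAddCircle × unitInterval) : ℂ :=
  cpar z₀ c z.1 + (((z.2 : ℝ) : ℂ) - ((be : ℝ) : ℂ)) * (B - A)

theorem embx_continuous (z₀ A B c : ℂ) (be : unitInterval) :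
    Continuous (embxMap z₀ A B c be) := by
  unfold embxMap
  have h1 : Continuous fun z : UnitAddCircle × unitInterval => cpar z₀ c z.1 :=
    (cpar_continuous z₀ c).comp continuous_fst
  have h2 : Continuous fun z : UnitAddCircle × unitInterval => (((z.2 : ℝ) : ℂ)) :=
    Complex.continuous_ofReal.comp (continuous_subtype_val.comp continuous_snd)
  exact h1.add ((h2.sub continuous_const).mul continuous_const)

theorem embx_cpar_zero (z₀ c : ℂ) : cpar z₀ c 0 = c := by
  unfold cpar
  rw [AddCircle.toCircle_zero]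
  simp

theorem embx_circ (z₀ A B c : ℂ) (be : unitInterval) (x : UnitAddCircle) :
    embxMap z₀ A B c be (x, be) = cpar z₀ c x := by
  unfold embxMap
  simp

theorem embx_seg (z₀ A B c : ℂ) (be : unitInterval)
    (hc : c = A + ((be : ℝ) : ℂ) * (B - A)) (u : unitInterval) :
    embxMap z₀ A B c be (0, u) = A + ((u : ℝ) : ℂ) * (B - A) := by
  unfold embxMap
  rw [embx_cpar_zero]
  nth_rewrite 1 [hc]
  ring

theorem embx_cpar_mem (z₀ c : ℂ) (R : ℝ) (hc : ‖c - z₀‖ = R) (x : UnitAddCircle) :
    cpar z₀ c x ∈ Metric.sphere z₀ R := by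
  unfold cpar
  rw [mem_sphere_iff_norm, add_sub_cancel_left, norm_mul, Circle.norm_coe, mul_one, hc]

theorem embx_cpar_inj (z₀ c : ℂ) (hc : c - z₀ ≠ 0) : Function.Injective (cpar z₀ c) := by
  intro x y hxy
  unfold cpar at hxy
  have h1 := mul_left_cancel₀ hc (add_left_cancel hxy)
  exact AddCircle.injective_toCircle one_ne_zero (Circle.ext h1)

theorem embx_cpar_surj (z₀ c : ℂ) (R : ℝ) (hR : 0 < R) (hc : ‖c - z₀‖ = R) {y : ℂ}
    (hy : y ∈ Metric.sphere z₀ R) : ∃ x, cpar z₀ c x = y := by
  have hc0 : c - z₀ ≠ 0 := by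
    intro h
    rw [h, norm_zero] at hc
    exact hR.ne hc
  have hn : ‖(y - z₀) / (c - z₀)‖ = 1 := by
    rw [norm_div, hc, mem_sphere_iff_norm.1 hy, div_self hR.ne']
  let w : Circle := ⟨(y - z₀) / (c - z₀), mem_sphere_zero_iff_norm.2 hn⟩
  obtain ⟨x, hx⟩ := (AddCircle.homeomorphCircle (T := 1) one_ne_zero).surjective w
  refine ⟨x, ?_⟩
  have hx' : AddCircle.toCircle x = w := by
    rw [← hx, AddCircle.homeomorphCircle_apply]
  unfold cpar
  rw [hx']
  change z₀ + (c - z₀) * ((y - z₀) / (c - z₀)) = y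
  rw [mul_div_cancel₀ _ hc0]
  ring

theorem embx_mem_segment (A B : ℂ) (u : unitInterval) :
    A + ((u : ℝ) : ℂ) * (B - A) ∈ segment ℝ A B := by
  rw [segment_eq_image']
  exact ⟨(u : ℝ), u.2, by simp only [Complex.real_smul]⟩

theorem embx_segment_surj (A B : ℂ) {y : ℂ} (hy : y ∈ segment ℝ A B) :
    ∃ u : unitInterval, A + ((u : ℝ) : ℂ) * (B - A) = y := by
  rw [segment_eq_image'] at hy
  obtain ⟨t, ht, hty⟩ := hy
  refine ⟨⟨t, ht⟩, ?_⟩
  rw [← hty]
  simp only [Complex.real_smul]

/-- A circle and a segment with exactly one common point are a model space `XM P`, with matching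
measures.

Proof. `c ∈ segment`, so `c = A + be (B - A)` with `be ∈ [0,1]`. Put
`al = 2πR/(2πR + ‖B - A‖)`. The map `ψ (x, u) = cpar z₀ c x + (u - be) (B - A)` is continuous; on
`{u = be}` it is the parametrization of the circle, and on `{x = 0}` it is `A + u (B - A)`
(`cpar z₀ c 0 = c`). It is injective on `XM P` (both parametrizations are injective, and a common value is
the common point `c`, i.e. `x = 0`, `u = be`), surjective onto `loll`; compactness gives a
homeomorphism. Measure: `integral_nrm`. `μH[1].restrict loll = μH[1].restrict sphere +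
μH[1].restrict segment` because the intersection is a point, which is null for `μH[1]`
(`Measure.restrict_union'` up to null sets; `μH[1]` has no atoms, `MeasureTheory.Measure.hausdorffMeasure`
instance `NoAtoms`). By `H1_circle`, `H1_segment` this is
`2πR • (push-forward of the circle) + ‖B - A‖ • (push-forward of [0,1])`, the total mass is
`2πR + ‖B - A‖`, and the quotient is the push-forward of `nuX P` under `ψ`. -/
theorem exists_embX (z₀ A B c : ℂ) (R : ℝ) (hR : 0 < R) (hAB : A ≠ B)
    (hX : Metric.sphere z₀ R ∩ segment ℝ A B = {c}) :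
    ∃ (P : XP) (e : XM P ≃ₜ loll z₀ R A B), ∀ f : C(loll z₀ R A B, ℂ),
      ∫ x, f (e x) ∂(nuX P) =
        ∫ y, f y ∂(nrm (Measure.hausdorffMeasure (1 : ℝ)) (loll z₀ R A B)) := by
  have hcm : c ∈ Metric.sphere z₀ R ∩ segment ℝ A B := by
    rw [hX]
    exact Set.mem_singleton c
  have hcR : ‖c - z₀‖ = R := mem_sphere_iff_norm.1 hcm.1
  have hc0 : c - z₀ ≠ 0 := by
    intro h
    rw [h, norm_zero] at hcR
    exact hR.ne hcR
  have hBA : B - A ≠ 0 := sub_ne_zero.2 hAB.symm
  have hBAn : 0 < ‖B - A‖ := norm_pos_iff.2 hBA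
  obtain ⟨be, hbe⟩ := embx_segment_surj A B hcm.2
  have h2 : 0 < 2 * Real.pi * R := by
    have := Real.pi_pos
    positivity
  have hL : 0 < 2 * Real.pi * R + ‖B - A‖ := add_pos h2 hBAn
  let P : XP :=
    { al := 2 * Real.pi * R / (2 * Real.pi * R + ‖B - A‖)
      pos := div_pos h2 hL
      lt1 := (div_lt_one hL).2 (lt_add_of_pos_right _ hBAn)
      be := be }
  have hPbe : P.be = be := rfl
  have hcirc : ∀ x, embxMap z₀ A B c be (x, be) = cpar z₀ c x := embx_circ z₀ A B c be
  have hseg : ∀ u : unitInterval, embxMap z₀ A B c be (0, u) = A + ((u : ℝ) : ℂ) * (B - A) :=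
    embx_seg z₀ A B c be hbe.symm
  have huinj : ∀ u u' : unitInterval,
      A + ((u : ℝ) : ℂ) * (B - A) = A + ((u' : ℝ) : ℂ) * (B - A) → u = u' := by
    intro u u' h
    have h1 := mul_right_cancel₀ hBA (add_left_cancel h)
    exact Subtype.ext (Complex.ofReal_injective h1)
  have hmix : ∀ (x : UnitAddCircle) (u : unitInterval),
      cpar z₀ c x = A + ((u : ℝ) : ℂ) * (B - A) → x = 0 ∧ u = be := by
    intro x u h
    have h1 : cpar z₀ c x ∈ Metric.sphere z₀ R ∩ segment ℝ A B :=
      ⟨embx_cpar_mem z₀ c R hcR x, by rw [h]; exact embx_mem_segment A B u⟩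
    rw [hX, Set.mem_singleton_iff] at h1
    refine ⟨embx_cpar_inj z₀ c hc0 (by rw [h1, embx_cpar_zero]), huinj u be ?_⟩
    rw [← h, h1, hbe]
  have hmaps : ∀ z : XM P, embxMap z₀ A B c be (z : UnitAddCircle × unitInterval)
      ∈ loll z₀ R A B := by
    rintro ⟨⟨x, u⟩, hz⟩
    rcases hz with hz | hz
    · have hz' : x = 0 := hz
      subst hz'
      right
      rw [hseg]
      exact embx_mem_segment A B u
    · have hz' : u = be := hz
      subst hz'
      left
      rw [hcirc]
      exact embx_cpar_mem z₀ c R hcR x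
  let g : XM P → loll z₀ R A B := fun z => ⟨embxMap z₀ A B c be z, hmaps z⟩
  have hgc : Continuous g :=
    ((embx_continuous z₀ A B c be).comp continuous_subtype_val).subtype_mk _
  have hginj : Function.Injective g := by
    rintro ⟨⟨x, u⟩, hz⟩ ⟨⟨x', u'⟩, hz'⟩ h
    have h' : embxMap z₀ A B c be (x, u) = embxMap z₀ A B c be (x', u') := congrArg Subtype.val h
    apply Subtype.ext
    change (x, u) = (x', u')
    rcases hz with hz | hz <;> rcases hz' with hz' | hz'
    · have e1 : x = 0 := hz
      have e2 : x' = 0 := hz'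
      subst e1
      subst e2
      rw [hseg, hseg] at h'
      rw [huinj u u' h']
    · have e1 : x = 0 := hz
      have e2 : u' = be := hz'
      subst e1
      subst e2
      rw [hseg, hcirc] at h'
      obtain ⟨e3, e4⟩ := hmix x' u h'.symm
      rw [e3, e4]
    · have e1 : u = be := hz
      have e2 : x' = 0 := hz'
      subst e1
      subst e2
      rw [hseg, hcirc] at h'
      obtain ⟨e3, e4⟩ := hmix x u' h'
      rw [e3, e4]
    · have e1 : u = be := hz
      have e2 : u' = be := hz'
      subst e1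
      subst e2
      rw [hcirc, hcirc] at h'
      rw [embx_cpar_inj z₀ c hc0 h']
  have hgsurj : Function.Surjective g := by
    rintro ⟨y, hy⟩
    rcases hy with hy | hy
    · obtain ⟨x, hx⟩ := embx_cpar_surj z₀ c R hR hcR hy
      refine ⟨⟨(x, be), Or.inr rfl⟩, Subtype.ext ?_⟩
      change embxMap z₀ A B c be (x, be) = y
      rw [hcirc, hx]
    · obtain ⟨u, hu⟩ := embx_segment_surj A B hy
      refine ⟨⟨(0, u), Or.inl rfl⟩, Subtype.ext ?_⟩
      change embxMap z₀ A B c be (0, u) = y
      rw [hseg, hu]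
  let e : XM P ≃ₜ loll z₀ R A B :=
    Continuous.homeoOfEquivCompactToT2 (f := Equiv.ofBijective g ⟨hginj, hgsurj⟩) hgc
  have he : ∀ z, ((e z : loll z₀ R A B) : ℂ) = embxMap z₀ A B c be z := fun z => rfl
  refine ⟨P, e, fun f => ?_⟩
  have hcl : IsClosed (loll z₀ R A B) := by
    refine Metric.isClosed_sphere.union ?_
    rw [segment_eq_image']
    refine (IsCompact.image isCompact_Icc ?_).isClosed
    fun_prop
  refine integral_nrm (Measure.hausdorffMeasure (1 : ℝ)) (loll z₀ R A B) hcl (nuX P) e ?_ f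
  have hfun : (fun z => ((e z : loll z₀ R A B) : ℂ))
      = fun z : XM P => embxMap z₀ A B c be z := funext he
  have hmeas : Measurable fun z : XM P => embxMap z₀ A B c be z :=
    ((embx_continuous z₀ A B c be).comp continuous_subtype_val).measurable
  have hsing : (Measure.hausdorffMeasure (1 : ℝ) : Measure ℂ) {c} = 0 :=
    (Measure.nullSingletonClass_hausdorff ℂ one_pos).measure_singleton c
  have hclS : IsClosed (segment ℝ A B) := by
    rw [segment_eq_image']
    refine (IsCompact.image isCompact_Icc ?_).isClosed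
    fun_prop
  have hres : (Measure.hausdorffMeasure (1 : ℝ) : Measure ℂ).restrict (loll z₀ R A B) =
      ENNReal.ofReal (2 * Real.pi * R) • (volume : Measure UnitAddCircle).map (cpar z₀ c) +
      ENNReal.ofReal ‖B - A‖ •
        (volume : Measure unitInterval).map (fun u : unitInterval => A + (u : ℝ) * (B - A)) := by
    unfold loll
    rw [Measure.restrict_union₀ (by rw [AEDisjoint, hX]; exact hsing)
      hclS.measurableSet.nullMeasurableSet, H1_circle z₀ c R hR hcR, H1_segment A B hAB]
  have hmS : Measurable (fun u : unitInterval => A + (u : ℝ) * (B - A)) := by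
    refine Continuous.measurable ?_
    fun_prop
  have hmass : (Measure.hausdorffMeasure (1 : ℝ) : Measure ℂ) (loll z₀ R A B)
      = ENNReal.ofReal (2 * Real.pi * R + ‖B - A‖) := by
    rw [← Measure.restrict_apply_univ, hres, Measure.add_apply, Measure.smul_apply,
      Measure.smul_apply, Measure.map_apply (cpar_continuous z₀ c).measurable MeasurableSet.univ,
      Measure.map_apply hmS MeasurableSet.univ, Set.preimage_univ, Set.preimage_univ,
      measure_univ, measure_univ, smul_eq_mul, smul_eq_mul, mul_one, mul_one,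
      ENNReal.ofReal_add h2.le hBAn.le]
  have hinC : Measurable (inC P) := (inC P).continuous.measurable
  have hinS : Measurable (inS P) := (inS P).continuous.measurable
  rw [hfun, hres, hmass]
  unfold nuX
  rw [Measure.map_add _ _ hmeas, Measure.map_smul, Measure.map_smul,
    Measure.map_map hmeas hinC, Measure.map_map hmeas hinS]
  have hc1 : (fun z : XM P => embxMap z₀ A B c be z) ∘ (inC P) = cpar z₀ c := by
    funext x
    exact hcirc x
  have hc2 : (fun z : XM P => embxMap z₀ A B c be z) ∘ (inS P)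
      = fun u : unitInterval => A + (u : ℝ) * (B - A) := by
    funext u
    exact hseg u
  rw [hc1, hc2, smul_add, smul_smul, smul_smul, ← ENNReal.ofReal_inv_of_pos hL,
    ← ENNReal.ofReal_mul (inv_nonneg.2 hL.le), ← ENNReal.ofReal_mul (inv_nonneg.2 hL.le)]
  have ha1 : P.al = (2 * Real.pi * R + ‖B - A‖)⁻¹ * (2 * Real.pi * R) := by
    change 2 * Real.pi * R / (2 * Real.pi * R + ‖B - A‖) = _
    rw [div_eq_inv_mul]
  have ha2 : 1 - P.al = (2 * Real.pi * R + ‖B - A‖)⁻¹ * ‖B - A‖ := by
    rw [ha1]
    field_simp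
    ring
  rw [← ha1, ← ha2]

end H7b
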