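import Pool.Agent.H.MP_7b4a29_an.EmbY0

/-!
# The annulus
-/

open MeasureTheory

namespace H7b

/-- The radius. -/
noncomputable def emby_rad (r R t : ℝ) : ℝ := Real.sqrt (r ^ 2 + (R ^ 2 - r ^ 2) * t)

theorem emby_arg {r R : ℝ} (hr : 0 < r) (hrR : r < R) {t : ℝ} (ht0 : 0 ≤ t) :
    r ^ 2 ≤ r ^ 2 + (R ^ 2 - r ^ 2) * t := by
  have h1 : 0 ≤ R ^ 2 - r ^ 2 := by nlinarith
  have := mul_nonneg h1 ht0
  linarith

theorem emby_arg' {r R : ℝ} (hr : 0 < r) (hrR : r < R) {t : ℝ} (ht1 : t ≤ 1) :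
    r ^ 2 + (R ^ 2 - r ^ 2) * t ≤ R ^ 2 := by
  have h1 : 0 ≤ R ^ 2 - r ^ 2 := by nlinarith
  have := mul_le_mul_of_nonneg_left ht1 h1
  linarith

theorem emby_le {r R : ℝ} (hr : 0 < r) (hrR : r < R) {t : ℝ} (ht0 : 0 ≤ t) :
    r ≤ emby_rad r R t :=
  Real.le_sqrt_of_sq_le (emby_arg hr hrR ht0)

theorem emby_le' {r R : ℝ} (hr : 0 < r) (hrR : r < R) {t : ℝ} (ht1 : t ≤ 1) :
    emby_rad r R t ≤ R :=
  Real.sqrt_le_iff.2 ⟨(hr.trans hrR).le, emby_arg' hr hrR ht1⟩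

/-- The parametrization. -/
noncomputable def emby_par (z₀ : ℂ) (r R : ℝ) (z : UnitAddCircle × unitInterval) : ℂ :=
  z₀ + (Real.sqrt (r ^ 2 + (R ^ 2 - r ^ 2) * (z.2 : ℝ)) : ℂ) * (AddCircle.toCircle z.1 : ℂ)

theorem emby_norm (z₀ : ℂ) (r R : ℝ) (z : UnitAddCircle × unitInterval) :
    ‖emby_par z₀ r R z - z₀‖ = emby_rad r R z.2 := by
  have e : emby_par z₀ r R z - z₀
      = (Real.sqrt (r ^ 2 + (R ^ 2 - r ^ 2) * (z.2 : ℝ)) : ℂ) * (AddCircle.toCircle z.1 : ℂ) := by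
    unfold emby_par
    ring
  rw [e, norm_mul, Circle.norm_coe, mul_one, Complex.norm_real, Real.norm_eq_abs,
    abs_of_nonneg (Real.sqrt_nonneg _)]
  rfl

theorem emby_mem {z₀ : ℂ} {r R : ℝ} (hr : 0 < r) (hrR : r < R)
    (z : UnitAddCircle × unitInterval) : emby_par z₀ r R z ∈ annu z₀ r R := by
  show r ≤ ‖emby_par z₀ r R z - z₀‖ ∧ ‖emby_par z₀ r R z - z₀‖ ≤ R
  rw [emby_norm]
  exact ⟨emby_le hr hrR z.2.2.1, emby_le' hr hrR z.2.2.2⟩

theorem emby_cont (z₀ : ℂ) (r R : ℝ) : Continuous (emby_par z₀ r R) := by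
  unfold emby_par
  refine continuous_const.add (Continuous.mul ?_ ?_)
  · exact Complex.continuous_ofReal.comp (Real.continuous_sqrt.comp
      (continuous_const.add (continuous_const.mul (continuous_subtype_val.comp continuous_snd))))
  · exact continuous_subtype_val.comp (AddCircle.continuous_toCircle.comp continuous_fst)

theorem emby_inj {z₀ : ℂ} {r R : ℝ} (hr : 0 < r) (hrR : r < R) :
    Function.Injective (emby_par z₀ r R) := by
  rintro ⟨x, t⟩ ⟨y, s⟩ h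
  have h1 : emby_rad r R t = emby_rad r R s := by
    have e1 := emby_norm z₀ r R (x, t)
    have e2 := emby_norm z₀ r R (y, s)
    rw [h] at e1
    exact e1.symm.trans e2
  have hts : (t : ℝ) = s := by
    have h2 : r ^ 2 + (R ^ 2 - r ^ 2) * (t : ℝ) = r ^ 2 + (R ^ 2 - r ^ 2) * (s : ℝ) := by
      refine (Real.sqrt_inj ?_ ?_).1 h1
      · exact (sq_nonneg r).trans (emby_arg hr hrR t.2.1)
      · exact (sq_nonneg r).trans (emby_arg hr hrR s.2.1)
    have h3 : R ^ 2 - r ^ 2 ≠ 0 := by nlinarith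
    exact mul_left_cancel₀ h3 (add_left_cancel h2)
  have hts' : t = s := Subtype.ext hts
  subst hts'
  have h4 : (Real.sqrt (r ^ 2 + (R ^ 2 - r ^ 2) * (t : ℝ)) : ℂ) ≠ 0 := by
    have h5 : 0 < emby_rad r R t := hr.trans_le (emby_le hr hrR t.2.1)
    exact_mod_cast h5.ne'
  have h6 : (AddCircle.toCircle x : ℂ) = (AddCircle.toCircle y : ℂ) :=
    mul_left_cancel₀ h4 (add_left_cancel h)
  have h7 : x = y := AddCircle.injective_toCircle one_ne_zero (Subtype.ext h6)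
  rw [h7]

theorem emby_surj {z₀ : ℂ} {r R : ℝ} (hr : 0 < r) (hrR : r < R) {y : ℂ}
    (hy : y ∈ annu z₀ r R) : ∃ z, emby_par z₀ r R z = y := by
  obtain ⟨h1, h2⟩ : r ≤ ‖y - z₀‖ ∧ ‖y - z₀‖ ≤ R := hy
  have hρ : 0 < ‖y - z₀‖ := hr.trans_le h1
  have hd : 0 < R ^ 2 - r ^ 2 := by nlinarith
  have ht : (‖y - z₀‖ ^ 2 - r ^ 2) / (R ^ 2 - r ^ 2) ∈ unitInterval := by
    constructor
    · exact div_nonneg (by nlinarith) hd.le
    · rw [div_le_one hd]
      nlinarith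
  have hw : ‖(y - z₀) / (‖y - z₀‖ : ℂ)‖ = 1 := by
    rw [norm_div, Complex.norm_real, norm_norm]
    exact div_self hρ.ne'
  obtain ⟨x, hx⟩ := (AddCircle.homeomorphCircle (T := 1) one_ne_zero).surjective
    ⟨(y - z₀) / (‖y - z₀‖ : ℂ), mem_sphere_zero_iff_norm.2 hw⟩
  rw [AddCircle.homeomorphCircle_apply] at hx
  refine ⟨(x, ⟨_, ht⟩), ?_⟩
  unfold emby_par
  have e1 : r ^ 2 + (R ^ 2 - r ^ 2) * ((‖y - z₀‖ ^ 2 - r ^ 2) / (R ^ 2 - r ^ 2))
      = ‖y - z₀‖ ^ 2 := by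
    field_simp
    ring
  change z₀ + (Real.sqrt (r ^ 2 + (R ^ 2 - r ^ 2) *
    ((‖y - z₀‖ ^ 2 - r ^ 2) / (R ^ 2 - r ^ 2))) : ℂ) * (AddCircle.toCircle x : ℂ) = y
  have hn : (‖y - z₀‖ : ℂ) ≠ 0 := by exact_mod_cast hρ.ne'
  rw [e1, Real.sqrt_sq hρ.le, hx]
  change z₀ + (‖y - z₀‖ : ℂ) * ((y - z₀) / (‖y - z₀‖ : ℂ)) = y
  rw [mul_div_cancel₀ _ hn]
  ring

theorem emby_closed (z₀ : ℂ) (r R : ℝ) : IsClosed (annu z₀ r R) := by
  have h1 : Continuous fun z : ℂ => ‖z - z₀‖ := (continuous_id.sub continuous_const).norm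
  exact (isClosed_le continuous_const h1).inter (isClosed_le h1 continuous_const)

/-- The annulus is `ℝ/ℤ × [0,1]` with matching measures: the map above is a homeomorphism
(continuous bijection from a compact space), and `integral_nrm`. -/
theorem exists_embY (z₀ : ℂ) (r R : ℝ) (hr : 0 < r) (hrR : r < R) :
    ∃ e : (UnitAddCircle × unitInterval) ≃ₜ annu z₀ r R, ∀ f : C(annu z₀ r R, ℂ),
      ∫ x, f (e x) = ∫ y, f y ∂(nrm volume (annu z₀ r R)) := by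
  let g : UnitAddCircle × unitInterval → annu z₀ r R :=
    fun z => ⟨emby_par z₀ r R z, emby_mem hr hrR z⟩
  have hg : Continuous g := (emby_cont z₀ r R).subtype_mk _
  have hb : Function.Bijective g := by
    constructor
    · intro z w h
      exact emby_inj hr hrR (congrArg Subtype.val h)
    · rintro ⟨y, hy⟩
      obtain ⟨z, hz⟩ := emby_surj hr hrR hy
      exact ⟨z, Subtype.ext hz⟩
  let e : (UnitAddCircle × unitInterval) ≃ₜ annu z₀ r R :=
    Continuous.homeoOfEquivCompactToT2 (f := Equiv.ofBijective g hb) hg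
  refine ⟨e, fun f => ?_⟩
  exact integral_nrm volume (annu z₀ r R) (emby_closed z₀ r R) volume e
    (map_annulus z₀ r R hr hrR) f

end H7b
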