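import Pool.Agent.H.MP_7b4a29_an.Emb

/-!
# Polar coordinates for the annulus
-/

open MeasureTheory

namespace H7b

open scoped ENNReal

/-- The circle, parametrized by the angle. -/
theorem emby0_angle (k : ℂ → ℝ≥0∞) :
    ∫⁻ φ in Set.Ioo (-Real.pi) Real.pi, k (Complex.exp (φ * Complex.I)) =
      ENNReal.ofReal (2 * Real.pi) * ∫⁻ x : UnitAddCircle, k (AddCircle.toCircle x : ℂ) := by
  have h1 : ∫⁻ x : UnitAddCircle, k (AddCircle.toCircle x : ℂ) =
      ∫⁻ x in Set.Ioo (-(1 / 2) : ℝ) (1 / 2), k (Complex.exp ((2 * Real.pi * x : ℝ) * Complex.I)) := by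
    rw [← UnitAddCircle.lintegral_preimage (-(1 / 2))]
    have e1 : (-(1 / 2) + 1 : ℝ) = 1 / 2 := by norm_num
    rw [e1, Measure.restrict_congr_set (Ioo_ae_eq_Ioc (a := (-(1 / 2) : ℝ)) (b := 1 / 2)).symm]
    refine lintegral_congr fun x => ?_
    have e2 : (AddCircle.toCircle ((x : ℝ) : UnitAddCircle) : ℂ) =
        Complex.exp ((2 * Real.pi * x : ℝ) * Complex.I) := by
      rw [AddCircle.toCircle_apply_mk, Circle.coe_exp]
      norm_num
    rw [e2]
  have h2 : (fun x : ℝ => 2 * Real.pi * x) '' Set.Ioo (-(1 / 2) : ℝ) (1 / 2) =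
      Set.Ioo (-Real.pi) Real.pi := by
    rw [Set.image_mul_left_Ioo (by positivity)]
    congr 1 <;> ring
  have h3 := lintegral_image_eq_lintegral_abs_deriv_mul (s := Set.Ioo (-(1 / 2) : ℝ) (1 / 2))
    (f := fun x : ℝ => 2 * Real.pi * x) (f' := fun _ => 2 * Real.pi) measurableSet_Ioo
    (fun x _ => by
      simpa using ((hasDerivAt_id x).const_mul (2 * Real.pi)).hasDerivWithinAt)
    (fun x _ y _ hxy => mul_left_cancel₀ (by positivity) hxy)
    (fun φ => k (Complex.exp (φ * Complex.I)))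
  rw [h2] at h3
  rw [h3, h1, lintegral_const_mul' _ _ ENNReal.ofReal_ne_top, abs_of_pos (by positivity)]

/-- The substitution in the radius. -/
theorem emby0_radius (r R : ℝ) (hr : 0 < r) (hrR : r < R) (K : ℝ → ℝ≥0∞) :
    ∫⁻ t in Set.Icc (0 : ℝ) 1, K (Real.sqrt (r ^ 2 + (R ^ 2 - r ^ 2) * t)) =
      ENNReal.ofReal (2 / (R ^ 2 - r ^ 2)) * ∫⁻ ρ in Set.Icc r R, ENNReal.ofReal ρ * K ρ := by
  have h0 : 0 < R ^ 2 - r ^ 2 := by nlinarith
  have h2 : (fun ρ : ℝ => (ρ ^ 2 - r ^ 2) / (R ^ 2 - r ^ 2)) '' Set.Icc r R = Set.Icc 0 1 := by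
    ext t
    simp only [Set.mem_image, Set.mem_Icc]
    constructor
    · rintro ⟨ρ, ⟨h1, h2⟩, rfl⟩
      refine ⟨div_nonneg (by nlinarith) h0.le, (div_le_one h0).2 (by nlinarith)⟩
    · rintro ⟨h1, h2⟩
      have h3 := mul_nonneg h0.le h1
      have h4 := mul_le_mul_of_nonneg_left h2 h0.le
      refine ⟨Real.sqrt (r ^ 2 + (R ^ 2 - r ^ 2) * t), ⟨Real.le_sqrt_of_sq_le (by linarith),
        Real.sqrt_le_iff.2 ⟨by linarith, by linarith⟩⟩, ?_⟩
      rw [Real.sq_sqrt (by positivity)]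
      field_simp
      ring
  have h3 := lintegral_image_eq_lintegral_abs_deriv_mul (s := Set.Icc r R)
    (f := fun ρ : ℝ => (ρ ^ 2 - r ^ 2) / (R ^ 2 - r ^ 2))
    (f' := fun ρ => 2 * ρ / (R ^ 2 - r ^ 2)) measurableSet_Icc
    (fun x _ => by
      have := (((hasDerivAt_pow 2 x).sub_const (r ^ 2)).div_const (R ^ 2 - r ^ 2)).hasDerivWithinAt
        (s := Set.Icc r R)
      simpa using this)
    (fun x hx y hy hxy => by
      have hxy' : (x ^ 2 - r ^ 2) / (R ^ 2 - r ^ 2) = (y ^ 2 - r ^ 2) / (R ^ 2 - r ^ 2) := hxy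
      have h5 : x ^ 2 - r ^ 2 = y ^ 2 - r ^ 2 := by
        field_simp at hxy'
        linarith
      have h6 : x ^ 2 = y ^ 2 := by linarith
      exact (sq_eq_sq₀ (hr.le.trans hx.1) (hr.le.trans hy.1)).1 h6)
    (fun t => K (Real.sqrt (r ^ 2 + (R ^ 2 - r ^ 2) * t)))
  rw [h2] at h3
  rw [h3, ← lintegral_const_mul' _ _ ENNReal.ofReal_ne_top]
  refine setLIntegral_congr_fun measurableSet_Icc fun ρ hρ => ?_
  have hρ0 : 0 < ρ := hr.trans_le hρ.1
  have e1 : r ^ 2 + (R ^ 2 - r ^ 2) * ((ρ ^ 2 - r ^ 2) / (R ^ 2 - r ^ 2)) = ρ ^ 2 := by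
    field_simp
    ring
  have e2 : |2 * ρ / (R ^ 2 - r ^ 2)| = 2 / (R ^ 2 - r ^ 2) * ρ := by
    rw [abs_of_pos (by positivity)]
    ring
  rw [e1, e2, Real.sqrt_sq hρ0.le, ENNReal.ofReal_mul (by positivity), mul_assoc]

/-- The integral over the annulus in polar coordinates. -/
theorem emby0_polar (z₀ : ℂ) (r R : ℝ) (hr : 0 < r) (g : ℂ → ℝ≥0∞) (hg : Measurable g) :
    ∫⁻ z in annu z₀ r R, g z = ENNReal.ofReal (2 * Real.pi) *
      ∫⁻ ρ in Set.Icc r R, ENNReal.ofReal ρ *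
        ∫⁻ x : UnitAddCircle, g (z₀ + (ρ : ℂ) * (AddCircle.toCircle x : ℂ)) := by
  have hm : MeasurableSet (annu z₀ r R) := by
    have hc : Continuous fun z : ℂ => ‖z - z₀‖ := (continuous_id.sub continuous_const).norm
    exact ((isClosed_le continuous_const hc).inter (isClosed_le hc continuous_const)).measurableSet
  have hG : Measurable ((annu z₀ r R).indicator g) := hg.indicator hm
  rw [← lintegral_indicator hm, ← lintegral_add_left_eq_self _ z₀,
    ← Complex.lintegral_comp_polarCoord_symm]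
  have hmeas : Measurable fun p : ℝ × ℝ => ENNReal.ofReal p.1 •
      (annu z₀ r R).indicator g (z₀ + Complex.polarCoord.symm p) := by
    refine (ENNReal.measurable_ofReal.comp measurable_fst).mul (hG.comp ?_)
    refine measurable_const.add ?_
    have : (Complex.polarCoord.symm : ℝ × ℝ → ℂ) =
        fun p => (p.1 : ℂ) * (Real.cos p.2 + Real.sin p.2 * Complex.I) := by
      funext p
      exact Complex.polarCoord_symm_apply p
    rw [this]
    fun_prop
  have ht : polarCoord.target = Set.Ioi (0 : ℝ) ×ˢ Set.Ioo (-Real.pi) Real.pi := rfl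
  rw [ht, Measure.volume_eq_prod, setLIntegral_prod _ hmeas.aemeasurable]
  have hsub : Set.Icc r R ⊆ Set.Ioi (0 : ℝ) := fun ρ hρ => hr.trans_le hρ.1
  have e1 : ∀ ρ ∈ Set.Ioi (0 : ℝ), (∫⁻ φ in Set.Ioo (-Real.pi) Real.pi, ENNReal.ofReal (ρ, φ).1 •
      (annu z₀ r R).indicator g (z₀ + Complex.polarCoord.symm (ρ, φ))) =
      (Set.Icc r R).indicator (fun ρ => ENNReal.ofReal (2 * Real.pi) * (ENNReal.ofReal ρ *
        ∫⁻ x : UnitAddCircle, g (z₀ + (ρ : ℂ) * (AddCircle.toCircle x : ℂ)))) ρ := by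
    intro ρ hρ
    have hρ0 : 0 < ρ := hρ
    have e3 : ∀ φ : ℝ, Complex.polarCoord.symm (ρ, φ) = (ρ : ℂ) * Complex.exp (φ * Complex.I) := by
      intro φ
      rw [Complex.polarCoord_symm_apply, Complex.exp_mul_I]
      simp
    have e4 : ∀ φ : ℝ, (z₀ + Complex.polarCoord.symm (ρ, φ) ∈ annu z₀ r R ↔ ρ ∈ Set.Icc r R) := by
      intro φ
      have e5 : ‖z₀ + Complex.polarCoord.symm (ρ, φ) - z₀‖ = ρ := by
        rw [add_sub_cancel_left, Complex.norm_polarCoord_symm, abs_of_pos hρ0]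
      show r ≤ ‖z₀ + Complex.polarCoord.symm (ρ, φ) - z₀‖ ∧
        ‖z₀ + Complex.polarCoord.symm (ρ, φ) - z₀‖ ≤ R ↔ _
      rw [e5]
      rfl
    by_cases h : ρ ∈ Set.Icc r R
    · rw [Set.indicator_of_mem h]
      have e6 : ∀ φ : ℝ, ENNReal.ofReal (ρ, φ).1 •
          (annu z₀ r R).indicator g (z₀ + Complex.polarCoord.symm (ρ, φ)) =
          ENNReal.ofReal ρ * g (z₀ + (ρ : ℂ) * Complex.exp (φ * Complex.I)) := by
        intro φ
        rw [Set.indicator_of_mem ((e4 φ).2 h), e3]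
        rfl
      simp_rw [e6]
      rw [lintegral_const_mul' _ _ ENNReal.ofReal_ne_top,
        emby0_angle (fun w => g (z₀ + (ρ : ℂ) * w))]
      ring
    · rw [Set.indicator_of_notMem h]
      have e6 : ∀ φ : ℝ, ENNReal.ofReal (ρ, φ).1 •
          (annu z₀ r R).indicator g (z₀ + Complex.polarCoord.symm (ρ, φ)) = 0 := by
        intro φ
        rw [Set.indicator_of_notMem (fun h' => h ((e4 φ).1 h')), smul_zero]
      simp_rw [e6]
      simp
  rw [setLIntegral_congr_fun measurableSet_Ioi e1, setLIntegral_indicator measurableSet_Icc,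
    Set.inter_eq_left.2 hsub, lintegral_const_mul' _ _ ENNReal.ofReal_ne_top]

/-- Polar coordinates: the push-forward of Lebesgue measure of `ℝ/ℤ × [0,1]` under
`(x, t) ↦ z₀ + √(r² + (R² - r²) t) exp(2π i x)` is the normalized Lebesgue measure of the annulus.

Proof. For a nonnegative measurable (or indicator) function `g`:
`∫_{annulus} g = ∫_{r}^{R} ∫_{-π}^{π} g(z₀ + ρ exp(i φ)) ρ dφ dρ`
(`Complex.lintegral_comp_polarCoord_symm` or the integral version), substitute `φ = 2π x` and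
`ρ² = r² + (R² - r²) t`, `ρ dρ = (R² - r²)/2 dt`; the total mass is `π (R² - r²)`. -/
theorem map_annulus (z₀ : ℂ) (r R : ℝ) (hr : 0 < r) (hrR : r < R) :
    (volume : Measure (UnitAddCircle × unitInterval)).map
        (fun z => z₀ + (Real.sqrt (r ^ 2 + (R ^ 2 - r ^ 2) * (z.2 : ℝ)) : ℂ) *
          (AddCircle.toCircle z.1 : ℂ)) =
      ((volume : Measure ℂ) (annu z₀ r R))⁻¹ • (volume : Measure ℂ).restrict (annu z₀ r R) := by
  have hF : Continuous fun z : UnitAddCircle × unitInterval =>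
      z₀ + (Real.sqrt (r ^ 2 + (R ^ 2 - r ^ 2) * (z.2 : ℝ)) : ℂ) *
          (AddCircle.toCircle z.1 : ℂ) := by
    refine continuous_const.add (Continuous.mul ?_ ?_)
    · exact Complex.continuous_ofReal.comp (Real.continuous_sqrt.comp
        (continuous_const.add (continuous_const.mul (continuous_subtype_val.comp continuous_snd))))
    · exact continuous_subtype_val.comp (AddCircle.continuous_toCircle.comp continuous_fst)
  have hπ : ENNReal.ofReal (2 * Real.pi) ≠ 0 := by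
    rw [Ne, ENNReal.ofReal_eq_zero, not_le]
    positivity
  have key : ∀ g : ℂ → ℝ≥0∞, Measurable g →
      ∫⁻ z : UnitAddCircle × unitInterval, g (z₀ + (Real.sqrt (r ^ 2 + (R ^ 2 - r ^ 2) *
        (z.2 : ℝ)) : ℂ) * (AddCircle.toCircle z.1 : ℂ)) =
      (ENNReal.ofReal (2 / (R ^ 2 - r ^ 2)) * (ENNReal.ofReal (2 * Real.pi))⁻¹) *
        ∫⁻ z in annu z₀ r R, g z := by
    intro g hg
    rw [emby0_polar z₀ r R hr g hg]
    have e0 : ∫⁻ z : UnitAddCircle × unitInterval, g (z₀ + (Real.sqrt (r ^ 2 + (R ^ 2 - r ^ 2) *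
        (z.2 : ℝ)) : ℂ) * (AddCircle.toCircle z.1 : ℂ)) =
        ∫⁻ t : unitInterval, ∫⁻ x : UnitAddCircle, g (z₀ + (Real.sqrt (r ^ 2 + (R ^ 2 - r ^ 2) *
        (t : ℝ)) : ℂ) * (AddCircle.toCircle x : ℂ)) :=
      lintegral_prod_symm' (μ := (volume : Measure UnitAddCircle))
        (ν := (volume : Measure unitInterval)) _ (hg.comp hF.measurable)
    have e1 := lintegral_subtype_comap (μ := (volume : Measure ℝ)) (s := Set.Icc (0 : ℝ) 1)
      measurableSet_Icc (fun t => ∫⁻ x : UnitAddCircle, g (z₀ + (Real.sqrt (r ^ 2 + (R ^ 2 - r ^ 2) *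
        t) : ℂ) * (AddCircle.toCircle x : ℂ)))
    have e2 := emby0_radius r R hr hrR (fun ρ => ∫⁻ x : UnitAddCircle, g (z₀ + (ρ : ℂ) *
      (AddCircle.toCircle x : ℂ)))
    refine (e0.trans (e1.trans e2)).trans ?_
    rw [mul_assoc, ← mul_assoc _ (ENNReal.ofReal (2 * Real.pi)),
      ENNReal.inv_mul_cancel hπ ENNReal.ofReal_ne_top, one_mul]
  have hc : (ENNReal.ofReal (2 / (R ^ 2 - r ^ 2)) * (ENNReal.ofReal (2 * Real.pi))⁻¹) =
      ((volume : Measure ℂ) (annu z₀ r R))⁻¹ := by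
    have h1 := key (fun _ => 1) measurable_const
    simp only [lintegral_const, measure_univ, mul_one, one_mul, Measure.restrict_apply_univ] at h1
    exact ENNReal.eq_inv_of_mul_eq_one_left h1.symm
  refine Measure.ext_of_lintegral _ fun g hg => ?_
  rw [lintegral_map hg hF.measurable, key g hg, hc, lintegral_smul_measure]
  rfl

end H7b
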