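import Pool.Agent.H.MP_7b4a29_an.XInt

/-!
# The circle with a segment is equivalent to the circle
-/

open MeasureTheory

namespace H7b

open H47

variable (P : XP)

theorem xeq_Fpl_ge (a b x : ℝ) (ha : 0 < a) (hx : a ≤ x) (b0 : ℝ) (hb : b0 = b) :
    Fpl a b x = b0 + ((1/2 - b) / (1/2 - a)) * (x - a) := by
  have h1 : clip a x = a := by
    unfold clip
    rw [min_eq_right hx, max_eq_right (by linarith)]
  unfold Fpl
  rw [h1, div_mul_cancel₀ _ ha.ne', hb]

theorem xeq_Fpl_le (a b x : ℝ) (ha : 0 < a) (hx : x ≤ -a) :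
    Fpl a b x = -b + ((1/2 - b) / (1/2 - a)) * (x + a) := by
  have h1 : clip a x = -a := by
    unfold clip
    rw [min_eq_left (by linarith), max_eq_left hx]
  unfold Fpl
  rw [h1, mul_neg, div_mul_cancel₀ _ ha.ne', sub_neg_eq_add]

theorem xeq_coef_d : (1/2 - (0:ℝ)) / (1/2 - xd P) = 1 / P.al := by
  have h := P.pos
  have h2 : 1/2 - xd P = P.al / 2 := by
    unfold xd
    ring
  rw [h2]
  field_simp
  norm_num

theorem xeq_coef_b : (1/2 - xb P) / (1/2 - (1/4 : ℝ)) = P.al := by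
  unfold xb
  ring

/-- `Fpl d 0` outside. -/
theorem xeq_d_ge (x : ℝ) (hx : xd P ≤ x) : Fpl (xd P) 0 x = (x - xd P) / P.al := by
  rw [xeq_Fpl_ge (xd P) 0 x (xd_pos P) hx 0 rfl, xeq_coef_d, zero_add]
  ring

theorem xeq_d_le (x : ℝ) (hx : x ≤ -(xd P)) : Fpl (xd P) 0 x = (x + xd P) / P.al := by
  rw [xeq_Fpl_le (xd P) 0 x (xd_pos P) hx, xeq_coef_d, neg_zero, zero_add]
  ring

theorem xeq_b_ge (x : ℝ) (hx : 1/4 ≤ x) : Fpl (1/4) (xb P) x = xb P + P.al * (x - 1/4) := by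
  rw [xeq_Fpl_ge (1/4) (xb P) x (by norm_num) hx (xb P) rfl, xeq_coef_b]

theorem xeq_b_le (x : ℝ) (hx : x ≤ -(1/4)) : Fpl (1/4) (xb P) x = -(xb P) + P.al * (x + 1/4) := by
  rw [xeq_Fpl_le (1/4) (xb P) x (by norm_num) hx, xeq_coef_b]

theorem xeq_bd : xb P - xd P = P.al / 4 := by
  unfold xb xd
  ring

theorem xeq_hd : 1/2 - xd P = P.al / 2 := by
  unfold xd
  ring

theorem xeq_hb : 1/2 - xb P = P.al / 4 := by
  unfold xb
  ring

theorem xeq_xq_out (z : UnitAddCircle) (hz : xd P ≤ ‖z‖) :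
    xq P z = inC P (pl (xd P) 0 (xd_pos P) (xd_lt P) z) := by
  apply Subtype.ext
  show (pl (xd P) 0 (xd_pos P) (xd_lt P) z, xe P z) =
    (pl (xd P) 0 (xd_pos P) (xd_lt P) z, P.be)
  rw [xe_out P z hz]

theorem xeq_xq_in (z : UnitAddCircle) (hz : ‖z‖ ≤ xd P) : xq P z = inS P (xe P z) := by
  apply Subtype.ext
  show (pl (xd P) 0 (xd_pos P) (xd_lt P) z, xe P z) = (0, xe P z)
  rw [pl_collapse (xd P) (xd_pos P) (xd_lt P) z hz]

theorem xeq_norm_zig (w : UnitAddCircle) :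
    ‖((xb P * (4 * ‖w‖ - 1) : ℝ) : UnitAddCircle)‖ ≤ xb P := by
  have h0 : 0 ≤ ‖w‖ := norm_nonneg w
  have h1 : ‖w‖ ≤ 1/2 := by
    have h := AddCircle.norm_le_half_period (1:ℝ) (x := w) one_ne_zero
    simpa using h
  have hb := xb_pos P
  have hb' := xb_lt P
  have h2 : |xb P * (4 * ‖w‖ - 1)| ≤ xb P := by
    rw [abs_mul, abs_of_pos hb]
    have h3 : |4 * ‖w‖ - 1| ≤ 1 := by
      rw [abs_le]
      constructor <;> linarith
    nlinarith
  rw [norm_coe]
  · exact h2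
  · have h4 := abs_le.1 h2
    constructor <;> linarith [h4.1, h4.2]

/-- `p (q z) = z` for `‖z‖ ≥ b`: with `z = x`, `x ≥ b > 0` (or `x ≤ -b`), `q z = inC ((x - d)/al)`,
`(x - d)/al ≥ (b - d)/al = 1/4` and `Fpl (1/4) b y = b + al (y - 1/4)` for `y ≥ 1/4`. -/
theorem xp_xq_out (z : UnitAddCircle) (hz : xb P ≤ ‖z‖) : xp P (xq P z) = z := by
  obtain ⟨x, hx, rfl⟩ := exists_rep z
  rw [norm_coe x hx] at hz
  have hal := P.pos
  have hbd := xeq_bd P
  have hhd := xeq_hd P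
  have hd0 := xd_pos P
  have hz2 : xd P ≤ |x| := by linarith
  have hz3 : xd P ≤ ‖(x : UnitAddCircle)‖ := by rwa [norm_coe x hx]
  rw [xeq_xq_out P _ hz3, xp_inC, pl_coe (xd P) 0 (xd_pos P) (xd_lt P) x hx]
  rcases le_total 0 x with h0 | h0
  · rw [abs_of_nonneg h0] at hz hz2
    rw [xeq_d_ge P x hz2]
    have h1 : 1/4 ≤ (x - xd P) / P.al := by
      rw [le_div_iff₀ hal]
      linarith
    have h2 : (x - xd P) / P.al ≤ 1/2 := by
      rw [div_le_iff₀ hal]
      linarith [hx.2]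
    rw [pl_coe _ _ _ _ _ ⟨by linarith, h2⟩, xeq_b_ge P _ h1, mul_sub, mul_div_cancel₀ _ hal.ne']
    congr 1
    linarith
  · rw [abs_of_nonpos h0] at hz hz2
    rw [xeq_d_le P x (by linarith)]
    have h1 : (x + xd P) / P.al ≤ -(1/4) := by
      rw [div_le_iff₀ hal]
      linarith
    have h2 : -(1/2) ≤ (x + xd P) / P.al := by
      rw [le_div_iff₀ hal]
      linarith [hx.1]
    rw [pl_coe _ _ _ _ _ ⟨h2, by linarith⟩, xeq_b_le P _ h1, mul_add, mul_div_cancel₀ _ hal.ne']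
    congr 1
    linarith

/-- `‖p (q z)‖ ≤ b` for `‖z‖ ≤ b`. For `‖z‖ ≤ d` the first coordinate of `q z` is `0`, and
`|b (4 s - 1)| ≤ b` for `0 ≤ s ≤ 1/2`. For `d ≤ ‖z‖ ≤ b`: `q z = inC w` with `‖w‖ ≤ 1/4`,
`norm_pl_le`. -/
theorem norm_xp_xq_le (z : UnitAddCircle) (hz : ‖z‖ ≤ xb P) : ‖xp P (xq P z)‖ ≤ xb P := by
  rcases le_total ‖z‖ (xd P) with h | h
  · rw [xeq_xq_in P z h, xp_inS]
    exact xeq_norm_zig P _
  · rw [xeq_xq_out P z h, xp_inC]
    refine norm_pl_le (1/4) (xb P) (by norm_num) (by norm_num) (xb_pos P).le (xb_lt P).le _ ?_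
    obtain ⟨x, hx, rfl⟩ := exists_rep z
    rw [norm_coe x hx] at hz h
    rw [pl_coe (xd P) 0 (xd_pos P) (xd_lt P) x hx]
    have hal := P.pos
    have hbd := xeq_bd P
    have hd0 := xd_pos P
    rcases le_total 0 x with h0 | h0
    · rw [abs_of_nonneg h0] at hz h
      rw [xeq_d_ge P x h]
      have h1 : 0 ≤ (x - xd P) / P.al := div_nonneg (by linarith) hal.le
      have h2 : (x - xd P) / P.al ≤ 1/4 := by
        rw [div_le_iff₀ hal]
        linarith
      rw [norm_coe _ ⟨by linarith, by linarith⟩, abs_of_nonneg h1]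
      exact h2
    · rw [abs_of_nonpos h0] at hz h
      rw [xeq_d_le P x (by linarith)]
      have h1 : (x + xd P) / P.al ≤ 0 := div_nonpos_of_nonpos_of_nonneg (by linarith) hal.le
      have h2 : -(1/4) ≤ (x + xd P) / P.al := by
        rw [le_div_iff₀ hal]
        linarith
      rw [norm_coe _ ⟨by linarith, by linarith⟩, abs_of_nonpos h1]
      linarith

/-- `pl d 0 (pl (1/4) b z) = z` for `‖z‖ ≥ 1/4`. -/
theorem pl_pl_out (z : UnitAddCircle) (hz : 1/4 ≤ ‖z‖) :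
    pl (xd P) 0 (xd_pos P) (xd_lt P) (pl (1/4) (xb P) (by norm_num) (by norm_num) z) = z := by
  obtain ⟨x, hx, rfl⟩ := exists_rep z
  rw [norm_coe x hx] at hz
  have hal := P.pos
  have hal1 := P.lt1
  have hbd := xeq_bd P
  have hhb := xeq_hb P
  have hb0 := xb_pos P
  rw [pl_coe _ _ _ _ _ hx]
  rcases le_total 0 x with h0 | h0
  · rw [abs_of_nonneg h0] at hz
    rw [xeq_b_ge P x hz]
    have h1 : xd P ≤ xb P + P.al * (x - 1/4) := by nlinarith
    have h2 : xb P + P.al * (x - 1/4) ≤ 1/2 := by nlinarith [hx.2]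
    rw [pl_coe _ _ _ _ _ ⟨by linarith [xd_pos P], h2⟩, xeq_d_ge P _ h1]
    congr 1
    rw [div_eq_iff hal.ne']
    linarith
  · rw [abs_of_nonpos h0] at hz
    rw [xeq_b_le P x (by linarith)]
    have h1 : -(xb P) + P.al * (x + 1/4) ≤ -(xd P) := by nlinarith
    have h2 : -(1/2) ≤ -(xb P) + P.al * (x + 1/4) := by nlinarith [hx.1]
    rw [pl_coe _ _ _ _ _ ⟨h2, by linarith [xd_pos P]⟩, xeq_d_le P _ h1]
    congr 1
    rw [div_eq_iff hal.ne']
    linarith

/-- `‖pl d 0 z‖ ≤ 1/4` for `‖z‖ ≤ b`. -/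
theorem norm_pl_d_le (z : UnitAddCircle) (hz : ‖z‖ ≤ xb P) :
    ‖pl (xd P) 0 (xd_pos P) (xd_lt P) z‖ ≤ 1/4 := by
  rcases le_total ‖z‖ (xd P) with h | h
  · rw [pl_collapse (xd P) (xd_pos P) (xd_lt P) z h, norm_zero]
    norm_num
  · obtain ⟨x, hx, rfl⟩ := exists_rep z
    rw [norm_coe x hx] at hz h
    rw [pl_coe (xd P) 0 (xd_pos P) (xd_lt P) x hx]
    have hal := P.pos
    have hbd := xeq_bd P
    have hd0 := xd_pos P
    rcases le_total 0 x with h0 | h0
    · rw [abs_of_nonneg h0] at hz h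
      rw [xeq_d_ge P x h]
      have h1 : 0 ≤ (x - xd P) / P.al := div_nonneg (by linarith) hal.le
      have h2 : (x - xd P) / P.al ≤ 1/4 := by
        rw [div_le_iff₀ hal]
        linarith
      rw [norm_coe _ ⟨by linarith, by linarith⟩, abs_of_nonneg h1]
      exact h2
    · rw [abs_of_nonpos h0] at hz h
      rw [xeq_d_le P x (by linarith)]
      have h1 : (x + xd P) / P.al ≤ 0 := div_nonpos_of_nonpos_of_nonneg (by linarith) hal.le
      have h2 : -(1/4) ≤ (x + xd P) / P.al := by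
        rw [le_div_iff₀ hal]
        linarith
      rw [norm_coe _ ⟨by linarith, by linarith⟩, abs_of_nonpos h1]
      linarith

/-- `‖p z‖ ≤ b` if `z = inS u`, or `z = inC x` with `‖x‖ ≤ 1/4`. -/
theorem norm_xp_inS (u : unitInterval) : ‖xp P (inS P u)‖ ≤ xb P := by
  rw [xp_inS]
  exact xeq_norm_zig P _

/-- The homotopy of the model: `(s, (x, u)) ↦ (x + s φ_{1/4,0}(x), (1-s) u + s be)`. It stays in the
model: for `x = 0` by `plh_fix`, for `u = be` clear. -/
theorem exists_hX : ∃ c : C(unitInterval × XM P, XM P), (∀ z, c (0, z) = z) ∧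
    ∀ z, c (1, z) = inC P (pl (1/4) 0 (by norm_num) (by norm_num) z.1.1) := by
  have hm : ∀ (s u : unitInterval), (1 - (s : ℝ)) * (u : ℝ) + (s : ℝ) * (P.be : ℝ) ∈
      Set.Icc (0:ℝ) 1 := by
    intro s u
    have s0 := s.2.1
    have s1 := s.2.2
    have u0 := u.2.1
    have u1 := u.2.2
    have b0 := P.be.2.1
    have b1 := P.be.2.2
    constructor
    · nlinarith [mul_nonneg (sub_nonneg.2 s1) u0, mul_nonneg s0 b0]
    · nlinarith [mul_nonneg (sub_nonneg.2 s1) (sub_nonneg.2 u1), mul_nonneg s0 (sub_nonneg.2 b1)]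
  have hmem : ∀ w : unitInterval × XM P,
      (plh (1/4) 0 (by norm_num) (by norm_num) (w.1, w.2.1.1),
        (⟨(1 - (w.1 : ℝ)) * (w.2.1.2 : ℝ) + (w.1 : ℝ) * (P.be : ℝ), hm w.1 w.2.1.2⟩ :
          unitInterval)) ∈ XM P := by
    rintro ⟨s, ⟨⟨x, u⟩, h⟩⟩
    rcases h with h | h
    · left
      have h' : x = 0 := h
      subst h'
      exact plh_fix (1/4) 0 (by norm_num) (by norm_num) s
    · right
      have h' : u = P.be := h
      subst h'
      apply Subtype.ext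
      show (1 - (s : ℝ)) * (P.be : ℝ) + (s : ℝ) * (P.be : ℝ) = (P.be : ℝ)
      ring
  refine ⟨⟨fun w => ⟨_, hmem w⟩, ?_⟩, ?_, ?_⟩
  · refine Continuous.subtype_mk (Continuous.prodMk ?_ (Continuous.subtype_mk ?_ _)) _
    · exact (plh (1/4) 0 (by norm_num) (by norm_num)).continuous.comp (by fun_prop)
    · fun_prop
  · intro z
    apply Subtype.ext
    refine Prod.ext ?_ ?_
    · exact plh_zero (1/4) 0 (by norm_num) (by norm_num) z.1.1
    · apply Subtype.ext
      show (1 - ((0 : unitInterval) : ℝ)) * (z.1.2 : ℝ) + ((0 : unitInterval) : ℝ) * (P.be : ℝ) =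
        (z.1.2 : ℝ)
      simp
  · intro z
    apply Subtype.ext
    refine Prod.ext ?_ ?_
    · exact plh_one (1/4) 0 (by norm_num) (by norm_num) z.1.1
    · apply Subtype.ext
      show (1 - ((1 : unitInterval) : ℝ)) * (z.1.2 : ℝ) + ((1 : unitInterval) : ℝ) * (P.be : ℝ) =
        (P.be : ℝ)
      simp

/-- **Equivalence.**

Proof. `EqPZ.of_maps` with `Z` the circle, `Z' = XM P`, `p = xp P`, `q = xq P`, `intL_xp`, `intL_xq`,
`c = plh b 0` (`plh_one`): `pl b 0 (p (q z)) = pl b 0 z` by `xp_xq_out` for `‖z‖ ≥ b`, and both are `0` by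
`pl_collapse` for `‖z‖ ≤ b` (`norm_xp_xq_le`). `c'` from `exists_hX`: we need
`pl (1/4) 0 ((q (p z)).1) = pl (1/4) 0 z.1`, where `(q w).1 = pl d 0 w`. For `z = inC x` with
`‖x‖ ≥ 1/4`: `pl_pl_out`. For `z = inC x`, `‖x‖ ≤ 1/4`, or `z = inS u`: `‖p z‖ ≤ b`, so
`‖(q (p z)).1‖ ≤ 1/4` by `norm_pl_d_le` and both sides are `0` (`pl_collapse`). -/
theorem eqX : EqPZ (volume : Measure UnitAddCircle) (nuX P) := by
  obtain ⟨c', hc0, hc1⟩ := exists_hX P
  refine EqPZ.of_maps (xp P) (xq P) (intL_xp P) (intL_xq P)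
    (plh (xb P) 0 (xb_pos P) (xb_lt P)) (plh_zero _ _ _ _) ?_ c' hc0 ?_
  · intro z
    rw [plh_one, plh_one]
    rcases le_total (xb P) ‖z‖ with h | h
    · rw [xp_xq_out P z h]
    · rw [pl_collapse (xb P) (xb_pos P) (xb_lt P) z h,
        pl_collapse (xb P) (xb_pos P) (xb_lt P) _ (norm_xp_xq_le P z h)]
  · intro z
    rw [hc1, hc1]
    have key : pl (1/4) 0 (by norm_num) (by norm_num) (xq P (xp P z)).1.1 =
        pl (1/4) 0 (by norm_num) (by norm_num) z.1.1 := by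
      have e1 : (xq P (xp P z)).1.1 = pl (xd P) 0 (xd_pos P) (xd_lt P) (xp P z) := rfl
      rw [e1]
      rcases z.2 with h | h
      · have hz : z = inS P z.1.2 := by
          apply Subtype.ext
          exact Prod.ext h rfl
        have h1 : ‖xp P z‖ ≤ xb P := by
          rw [hz]
          exact norm_xp_inS P _
        rw [pl_collapse (1/4) (by norm_num) (by norm_num) _ (norm_pl_d_le P _ h1), h, pl_zero]
      · have hz : z = inC P z.1.1 := by
          apply Subtype.ext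
          exact Prod.ext rfl h
        have e2 : xp P z = pl (1/4) (xb P) (by norm_num) (by norm_num) z.1.1 := by
          conv_lhs => rw [hz]
          exact xp_inC P _
        rw [e2]
        rcases le_total (1/4) ‖z.1.1‖ with h1 | h1
        · rw [pl_pl_out P _ h1]
        · have h2 : ‖pl (1/4) (xb P) (by norm_num) (by norm_num) z.1.1‖ ≤ xb P :=
            norm_pl_le (1/4) (xb P) (by norm_num) (by norm_num) (xb_pos P).le (xb_lt P).le _ h1
          rw [pl_collapse (1/4) (by norm_num) (by norm_num) _ (norm_pl_d_le P _ h2),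
            pl_collapse (1/4) (by norm_num) (by norm_num) _ h1]
    rw [key]

end H7b
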