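import Pool.Agent.H.MP_7b4a29_an.ZMod

/-!
# Integrals over rectangles
-/

open MeasureTheory

namespace H7b

theorem zintb_swap (k : ℝ × ℝ → ℂ) (hk : Continuous k) :
    ∫ y in (0:ℝ)..(1/4), ∫ τ in (4 * y)..1, k (y, τ) =
      ∫ τ in (0:ℝ)..1, ∫ y in (0:ℝ)..(τ / 4), k (y, τ) := by
  have hT : MeasurableSet {p : ℝ × ℝ | 4 * p.1 ≤ p.2} :=
    (isClosed_le (by fun_prop) (by fun_prop)).measurableSet
  have hswap := MeasureTheory.integral_integral_swap
    (μ := (volume : Measure ℝ).restrict (Set.Ioc 0 (1/4)))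
    (ν := (volume : Measure ℝ).restrict (Set.Ioc 0 1))
    (f := fun y τ => {p : ℝ × ℝ | 4 * p.1 ≤ p.2}.indicator k (y, τ)) ?_
  · rw [intervalIntegral.integral_of_le (by norm_num), intervalIntegral.integral_of_le (by norm_num)]
    refine Eq.trans ?_ (hswap.trans ?_)
    · refine setIntegral_congr_fun measurableSet_Ioc fun y hy => ?_
      have hy1 := hy.1
      have hy2 := hy.2
      show ∫ τ in (4 * y)..1, k (y, τ) = _
      have e1 : (fun τ => {p : ℝ × ℝ | 4 * p.1 ≤ p.2}.indicator k (y, τ)) =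
          (Set.Ici (4 * y)).indicator (fun τ => k (y, τ)) := by
        funext τ
        by_cases h : 4 * y ≤ τ
        · rw [Set.indicator_of_mem (show (y, τ) ∈ {p : ℝ × ℝ | 4 * p.1 ≤ p.2} from h),
            Set.indicator_of_mem (show τ ∈ Set.Ici (4 * y) from h)]
        · rw [Set.indicator_of_notMem (show (y, τ) ∉ {p : ℝ × ℝ | 4 * p.1 ≤ p.2} from h),
            Set.indicator_of_notMem (show τ ∉ Set.Ici (4 * y) from h)]
      rw [e1, setIntegral_indicator measurableSet_Ici]
      have e2 : Set.Ioc (0:ℝ) 1 ∩ Set.Ici (4 * y) = Set.Icc (4 * y) 1 := by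
        ext τ
        simp only [Set.mem_inter_iff, Set.mem_Ioc, Set.mem_Ici, Set.mem_Icc]
        constructor
        · rintro ⟨⟨_, h2⟩, h3⟩
          exact ⟨h3, h2⟩
        · rintro ⟨h3, h2⟩
          exact ⟨⟨by linarith, h2⟩, h3⟩
      rw [e2, integral_Icc_eq_integral_Ioc, intervalIntegral.integral_of_le (by linarith)]
    · refine setIntegral_congr_fun measurableSet_Ioc fun τ hτ => ?_
      have hy1 := hτ.1
      have hy2 := hτ.2
      show _ = ∫ y in (0:ℝ)..(τ / 4), k (y, τ)
      have e1 : (fun y => {p : ℝ × ℝ | 4 * p.1 ≤ p.2}.indicator k (y, τ)) =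
          (Set.Iic (τ / 4)).indicator (fun y => k (y, τ)) := by
        funext y
        by_cases h : 4 * y ≤ τ
        · rw [Set.indicator_of_mem (show (y, τ) ∈ {p : ℝ × ℝ | 4 * p.1 ≤ p.2} from h),
            Set.indicator_of_mem (show y ∈ Set.Iic (τ / 4) from by
              rw [Set.mem_Iic]
              linarith)]
        · rw [Set.indicator_of_notMem (show (y, τ) ∉ {p : ℝ × ℝ | 4 * p.1 ≤ p.2} from h),
            Set.indicator_of_notMem (show y ∉ Set.Iic (τ / 4) from by
              rw [Set.mem_Iic]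
              intro h'
              exact h (by linarith))]
      rw [e1, setIntegral_indicator measurableSet_Iic]
      have e2 : Set.Ioc (0:ℝ) (1/4) ∩ Set.Iic (τ / 4) = Set.Ioc 0 (τ / 4) := by
        ext y
        simp only [Set.mem_inter_iff, Set.mem_Ioc, Set.mem_Iic]
        constructor
        · rintro ⟨⟨h1, _⟩, h3⟩
          exact ⟨h1, h3⟩
        · rintro ⟨h1, h3⟩
          exact ⟨⟨h1, by linarith⟩, h3⟩
      rw [e2, intervalIntegral.integral_of_le (by linarith)]
  · rw [Measure.prod_restrict]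
    have h1 : IntegrableOn k (Set.Icc (0:ℝ) (1/4) ×ˢ Set.Icc (0:ℝ) 1) volume :=
      hk.continuousOn.integrableOn_compact (isCompact_Icc.prod isCompact_Icc)
    have h2 : IntegrableOn k (Set.Ioc (0:ℝ) (1/4) ×ˢ Set.Ioc (0:ℝ) 1) volume :=
      h1.mono_set (Set.prod_mono Set.Ioc_subset_Icc_self Set.Ioc_subset_Icc_self)
    exact Integrable.indicator h2 hT

theorem zintb_half (k : ℝ × ℝ → ℂ) (hk : Continuous k) :
    ∫ y in (0:ℝ)..(1/4), ∫ τ in (0:ℝ)..1, k (y, τ) =
      (∫ τ in (0:ℝ)..1, ∫ y in (0:ℝ)..(τ / 4), k (y, τ)) +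
      ∫ y in (0:ℝ)..(1/4), ∫ τ in (0:ℝ)..(4 * y), k (y, τ) := by
  rw [← zintb_swap k hk, add_comm, ← intervalIntegral.integral_add]
  · refine intervalIntegral.integral_congr fun y _ => ?_
    have hc : Continuous fun τ : ℝ => k (y, τ) := by fun_prop
    exact (intervalIntegral.integral_add_adjacent_intervals (hc.intervalIntegrable _ _)
      (hc.intervalIntegrable _ _)).symm
  · have h1 : Continuous fun y : ℝ => ∫ τ in (0:ℝ)..(4 * y), k (y, τ) := by
      refine intervalIntegral.continuous_parametric_intervalIntegral_of_continuous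
        (f := fun y τ => k (y, τ)) ?_ (by fun_prop)
      exact hk
    exact h1.intervalIntegrable _ _
  · have h1 : Continuous fun y : ℝ => ∫ τ in (0:ℝ)..(4 * y), k (y, τ) := by
      refine intervalIntegral.continuous_parametric_intervalIntegral_of_continuous
        (f := fun y τ => k (y, τ)) ?_ (by fun_prop)
      exact hk
    have h2 : Continuous fun y : ℝ => ∫ τ in (0:ℝ)..1, k (y, τ) := by
      refine intervalIntegral.continuous_parametric_intervalIntegral_of_continuous
        (f := fun y τ => k (y, τ)) ?_ (by fun_prop)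
      exact hk
    have h3 : (fun y : ℝ => ∫ τ in (4 * y)..1, k (y, τ)) =
        fun y : ℝ => (∫ τ in (0:ℝ)..1, k (y, τ)) - ∫ τ in (0:ℝ)..(4 * y), k (y, τ) := by
      funext y
      have hc : Continuous fun τ : ℝ => k (y, τ) := by fun_prop
      exact (intervalIntegral.integral_interval_sub_left (hc.intervalIntegrable _ _)
        (hc.intervalIntegrable _ _)).symm
    rw [h3]
    exact (h2.sub h1).intervalIntegrable _ _

/-- The rectangle `[-1/4, 1/4] × [0,1]` is the union of the inverted triangle and of the two right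
triangles, in the form of iterated integrals.

Proof. For fixed `y ∈ [0, 1/4]`, `∫_0^1 = ∫_0^{4y} + ∫_{4y}^1`; by Fubini
`∫_0^{1/4} ∫_{4y}^1 g(y,τ) dτ dy = ∫_0^1 ∫_0^{τ/4} g(y, τ) dy dτ`, and the same for `-y`. (Fubini for
the indicator of a triangle: `MeasureTheory.integral_prod` for the set `{(y, τ) : 4 y ≤ τ}`, or
`intervalIntegral` versions.) -/
theorem int_rectangle (g : C(ℝ × ℝ, ℂ)) :
    ∫ y in (-(1/4) : ℝ)..(1/4), ∫ τ in (0:ℝ)..1, g (y, τ) =
      (∫ τ in (0:ℝ)..1, ∫ y in (-(τ / 4))..(τ / 4), g (y, τ)) +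
      (∫ y in (0:ℝ)..(1/4), ∫ τ in (0:ℝ)..(4 * y), g (y, τ)) +
      ∫ y in (0:ℝ)..(1/4), ∫ τ in (0:ℝ)..(4 * y), g (-y, τ) := by
  have hg : Continuous (g : ℝ × ℝ → ℂ) := g.continuous
  have hF : Continuous fun y : ℝ => ∫ τ in (0:ℝ)..1, g (y, τ) := by
    refine intervalIntegral.continuous_parametric_intervalIntegral_of_continuous
      (f := fun y τ => g (y, τ)) ?_ (by fun_prop)
    exact hg
  have hk : Continuous fun p : ℝ × ℝ => g (-p.1, p.2) := by fun_prop
  have e1 := zintb_half (fun p => g p) hg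
  have e2 := zintb_half (fun p => g (-p.1, p.2)) hk
  have e3 : ∫ y in (-(1/4) : ℝ)..0, ∫ τ in (0:ℝ)..1, g (y, τ) =
      ∫ y in (0:ℝ)..(1/4), ∫ τ in (0:ℝ)..1, g (-y, τ) := by
    have h := intervalIntegral.integral_comp_neg (a := 0) (b := 1/4)
      (fun y : ℝ => ∫ τ in (0:ℝ)..1, g (y, τ))
    rw [neg_zero] at h
    exact h.symm
  have e4 : ∫ τ in (0:ℝ)..1, ∫ y in (-(τ / 4))..(τ / 4), g (y, τ) =
      (∫ τ in (0:ℝ)..1, ∫ y in (0:ℝ)..(τ / 4), g (y, τ)) +
        ∫ τ in (0:ℝ)..1, ∫ y in (0:ℝ)..(τ / 4), g (-y, τ) := by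
    rw [← intervalIntegral.integral_add]
    · refine intervalIntegral.integral_congr fun τ _ => ?_
      have hc : Continuous fun y : ℝ => g (y, τ) := by fun_prop
      have h1 : ∫ y in (-(τ / 4))..0, g (y, τ) = ∫ y in (0:ℝ)..(τ / 4), g (-y, τ) := by
        have h := intervalIntegral.integral_comp_neg (a := 0) (b := τ / 4)
          (fun y : ℝ => g (y, τ))
        rw [neg_zero] at h
        exact h.symm
      show ∫ y in (-(τ / 4))..(τ / 4), g (y, τ) =
        (∫ y in (0:ℝ)..(τ / 4), g (y, τ)) + ∫ y in (0:ℝ)..(τ / 4), g (-y, τ)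
      rw [← h1, add_comm]
      exact (intervalIntegral.integral_add_adjacent_intervals (hc.intervalIntegrable _ _)
        (hc.intervalIntegrable _ _)).symm
    · have h1 : Continuous fun τ : ℝ => ∫ y in (0:ℝ)..(τ / 4), g (y, τ) := by
        refine intervalIntegral.continuous_parametric_intervalIntegral_of_continuous
          (f := fun τ y => g (y, τ)) ?_ (by fun_prop)
        show Continuous fun p : ℝ × ℝ => g (p.2, p.1)
        fun_prop
      exact h1.intervalIntegrable _ _
    · have h1 : Continuous fun τ : ℝ => ∫ y in (0:ℝ)..(τ / 4), g (-y, τ) := by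
        refine intervalIntegral.continuous_parametric_intervalIntegral_of_continuous
          (f := fun τ y => g (-y, τ)) ?_ (by fun_prop)
        show Continuous fun p : ℝ × ℝ => g (-p.2, p.1)
        fun_prop
      exact h1.intervalIntegrable _ _
  rw [← intervalIntegral.integral_add_adjacent_intervals (hF.intervalIntegrable _ _)
    (hF.intervalIntegrable _ _) (b := 0), e3, e4]
  simp only at e1 e2
  rw [e1, e2]
  ring

/-- Integrals over the model annulus as iterated interval integrals. -/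
theorem integral_model (f : C(UnitAddCircle × unitInterval, ℂ)) (g : C(ℝ × ℝ, ℂ))
    (hg : ∀ x t : ℝ, g (x, t) = f ((x : UnitAddCircle), Set.projIcc 0 1 zero_le_one t)) :
    H47.intL (volume : Measure (UnitAddCircle × unitInterval)) f =
      ∫ x in (-(1/2) : ℝ)..(1/2), ∫ t in (0:ℝ)..1, g (x, t) := by
  rw [H47.intL_apply]
  have hint : Integrable (f : UnitAddCircle × unitInterval → ℂ)
      ((volume : Measure UnitAddCircle).prod (volume : Measure unitInterval)) :=
    f.continuous.integrable_of_hasCompactSupport (HasCompactSupport.of_compactSpace _)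
  rw [Measure.volume_eq_prod, integral_prod _ hint,
    ← UnitAddCircle.intervalIntegral_preimage (-(1/2))]
  rw [show (-(1/2) : ℝ) + 1 = 1/2 by norm_num]
  refine intervalIntegral.integral_congr fun x _ => ?_
  show ∫ t : unitInterval, f ((x : UnitAddCircle), t) = ∫ t in (0:ℝ)..1, g (x, t)
  have e1 : (fun t : unitInterval => f ((x : UnitAddCircle), t)) =
      fun t : unitInterval => g (x, (t : ℝ)) := by
    funext t
    rw [hg, Set.projIcc_val]
  rw [e1, intervalIntegral.integral_of_le zero_le_one, ← integral_Icc_eq_integral_Ioc]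
  exact integral_subtype measurableSet_Icc (fun t : ℝ => g (x, t))

end H7b
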