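import Pool.Agent.H.MP_7b4a29_an.ZOneI

/-!
# The circle is equivalent to the pinched annulus
-/

open MeasureTheory

namespace H7b

open H47

/-- **Equivalence.** `EqPZ.of_maps` with `Z` the circle, `Z' = ZM`, `p = zfst`, `q = zq1`
(`zfst (zq1 y) = z1 y`), `c = plh (1/8) (1/2)`, `c'` from `exists_hZ (1/8) (1/2)`:
`pl (1/8) (1/2) (z1 z) = pl (1/8) (1/2) z` for all `z` by `z1_spec` and `pl_collapse_half`. -/
theorem eqZ1 : EqPZ (volume : Measure UnitAddCircle) nuZ := by
  have key : ∀ z : UnitAddCircle,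
      pl (1/8) (1/2) (by norm_num) (by norm_num) (zfst (zq1 z)) =
        pl (1/8) (1/2) (by norm_num) (by norm_num) z := by
    intro z
    have h0 : zfst (zq1 z) = z1 z := rfl
    rw [h0]
    rcases le_total ‖z‖ (1/8) with h | h
    · rw [(z1_spec z).1 h]
    · rw [pl_collapse_half _ _ _ _ ((z1_spec z).2 h), pl_collapse_half _ _ _ _ h]
  obtain ⟨c', c0', c1'⟩ := exists_hZ (1/8) (1/2) (by norm_num) (by norm_num)
  refine EqPZ.of_maps zfst zq1 intL_zfst intL_zq1
    (plh (1/8) (1/2) (by norm_num) (by norm_num)) (fun z => plh_zero _ _ _ _ z) (fun z => ?_)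
    c' c0' (fun z => ?_)
  · rw [plh_one, plh_one]
    exact key z
  · exact c1' _ _ (key (zfst z))

end H7b
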