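import Pool.Agent.H.MP_7b4a29_an.ZIntA
import Pool.Agent.H.MP_7b4a29_an.ZIntB
import Pool.Agent.H.MP_7b4a29_an.ZOneE

/-!
# The map from the pinched annulus to the annulus preserves the measures
-/

open MeasureTheory

namespace H7b

open H47

/-- The function `(x, t) ↦ F (x mod 1, t clipped to [0,1])`. -/
noncomputable def zint_lift (F : C(UnitAddCircle × unitInterval, ℂ)) : C(ℝ × ℝ, ℂ) where
  toFun w := F ((w.1 : UnitAddCircle), Set.projIcc 0 1 zero_le_one w.2)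
  continuous_toFun := by
    have h1 : Continuous (fun w : ℝ × ℝ => ((w.1 : ℝ) : UnitAddCircle)) :=
      (AddCircle.continuous_mk' (1 : ℝ)).comp continuous_fst
    have h2 : Continuous (fun w : ℝ × ℝ => Set.projIcc (0 : ℝ) 1 zero_le_one w.2) :=
      continuous_projIcc.comp continuous_snd
    exact F.continuous.comp (h1.prodMk h2)

theorem zint_lift_apply (F : C(UnitAddCircle × unitInterval, ℂ)) (x t : ℝ) :
    zint_lift F (x, t) = F ((x : UnitAddCircle), Set.projIcc 0 1 zero_le_one t) := rfl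

/-- Integrals over one variable are continuous. -/
theorem zint_cont (g : C(ℝ × ℝ, ℂ)) : Continuous (fun x : ℝ => ∫ t in (0:ℝ)..1, g (x, t)) :=
  intervalIntegral.continuous_parametric_intervalIntegral_of_continuous'
    (f := fun x t => g (x, t)) (by exact g.continuous) 0 1

/-- The value of the lift at the reflected point. -/
noncomputable def zint_neg (g : C(ℝ × ℝ, ℂ)) : C(ℝ × ℝ, ℂ) where
  toFun w := g (-w.1, w.2)
  continuous_toFun := by fun_prop

/-- `q` preserves the measures.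

Proof. `intL nuZ (f ∘ q) = intL volume (f ∘ q ∘ zp)` (`intL_nuZ`). Split the integral over
`[-1/2, 1/2]` at `±1/4`, `±1/8`: outer parts: identity (`zq2_outer`); `1/8 ≤ |x| ≤ 1/4`: `zq2_middle`
and `int_triangle` (for `g(y, τ)` and `g(-y, τ)`); `|x| ≤ 1/8`: `zq2_inner`, `int_inverted`. Sum up with
`int_rectangle` and `integral_model`. -/
theorem intL_zq2 (f : C(UnitAddCircle × unitInterval, ℂ)) :
    intL nuZ (f.comp zq2) = intL (volume : Measure (UnitAddCircle × unitInterval)) f := by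
  rw [intL_nuZ, integral_model ((f.comp zq2).comp zp) (zint_lift ((f.comp zq2).comp zp))
    (fun x t => rfl), integral_model f (zint_lift f) (fun x t => rfl)]
  obtain ⟨g1, hg1⟩ : ∃ g1, g1 = zint_lift ((f.comp zq2).comp zp) := ⟨_, rfl⟩
  obtain ⟨g2, hg2⟩ : ∃ g2, g2 = zint_lift f := ⟨_, rfl⟩
  rw [← hg1, ← hg2]
  have v1 : ∀ x t : ℝ, g1 (x, t) =
      f (zq2 (zp ((x : UnitAddCircle), Set.projIcc 0 1 zero_le_one t))) := by
    intro x t
    rw [hg1]
    rfl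
  have v2 : ∀ (x : ℝ) (t : unitInterval), g2 (x, (t : ℝ)) = f ((x : UnitAddCircle), t) := by
    intro x t
    rw [hg2, zint_lift_apply, Set.projIcc_val]
  have v2' : ∀ (w : UnitAddCircle × unitInterval) (y τ : ℝ), w.1 = (y : UnitAddCircle) →
      (w.2 : ℝ) = τ → f w = g2 (y, τ) := by
    intro w y τ h1 h2
    rw [← h2, v2, ← h1]
  have c1 := zint_cont g1
  have c2 := zint_cont g2
  have i1 : ∀ a b : ℝ, IntervalIntegrable (fun x : ℝ => ∫ t in (0:ℝ)..1, g1 (x, t)) volume a b :=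
    fun a b => c1.intervalIntegrable a b
  have i2 : ∀ a b : ℝ, IntervalIntegrable (fun x : ℝ => ∫ t in (0:ℝ)..1, g2 (x, t)) volume a b :=
    fun a b => c2.intervalIntegrable a b
  -- outer parts
  have hout : ∀ x ∈ Set.Icc (-(1/2) : ℝ) (1/2), 1/4 ≤ |x| →
      (∫ t in (0:ℝ)..1, g1 (x, t)) = ∫ t in (0:ℝ)..1, g2 (x, t) := by
    intro x hx hx'
    refine intervalIntegral.integral_congr fun t _ => ?_
    show g1 (x, t) = g2 (x, t)
    rw [v1, zq2_outer x hx hx', hg2, zint_lift_apply]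
  have e1 : (∫ x in (-(1/2) : ℝ)..(-(1/4)), ∫ t in (0:ℝ)..1, g1 (x, t)) =
      ∫ x in (-(1/2) : ℝ)..(-(1/4)), ∫ t in (0:ℝ)..1, g2 (x, t) := by
    refine intervalIntegral.integral_congr fun x hx => ?_
    rw [Set.uIcc_of_le (by norm_num)] at hx
    exact hout x ⟨hx.1, by linarith [hx.2]⟩ (by rw [abs_of_nonpos (by linarith [hx.2])]; linarith [hx.2])
  have e5 : (∫ x in (1/4 : ℝ)..(1/2), ∫ t in (0:ℝ)..1, g1 (x, t)) =
      ∫ x in (1/4 : ℝ)..(1/2), ∫ t in (0:ℝ)..1, g2 (x, t) := by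
    refine intervalIntegral.integral_congr fun x hx => ?_
    rw [Set.uIcc_of_le (by norm_num)] at hx
    exact hout x ⟨by linarith [hx.1], hx.2⟩ (by rw [abs_of_nonneg (by linarith [hx.1])]; exact hx.1)
  -- right middle part
  have e4 : (∫ x in (1/8 : ℝ)..(1/4), ∫ t in (0:ℝ)..1, g1 (x, t)) =
      ∫ y in (0:ℝ)..(1/4), ∫ τ in (0:ℝ)..(4 * y), g2 (y, τ) := by
    rw [← int_triangle g2]
    refine intervalIntegral.integral_congr fun x hx => ?_
    rw [Set.uIcc_of_le (by norm_num)] at hx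
    refine intervalIntegral.integral_congr fun t ht => ?_
    rw [Set.uIcc_of_le (by norm_num)] at ht
    show g1 (x, t) = g2 (rh x / 4, rh x * t)
    obtain ⟨h1, h2, -, -⟩ := zq2_middle x hx.1 hx.2 (Set.projIcc 0 1 zero_le_one t)
    rw [v1]
    refine v2' _ _ _ h1 ?_
    rw [h2, Set.projIcc_of_mem _ ht]
  -- left middle part
  have e2 : (∫ x in (-(1/4) : ℝ)..(-(1/8)), ∫ t in (0:ℝ)..1, g1 (x, t)) =
      ∫ y in (0:ℝ)..(1/4), ∫ τ in (0:ℝ)..(4 * y), g2 (-y, τ) := by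
    have h0 := int_triangle (zint_neg g2)
    have h0' : (∫ y in (0:ℝ)..(1/4), ∫ τ in (0:ℝ)..(4 * y), zint_neg g2 (y, τ)) =
      ∫ y in (0:ℝ)..(1/4), ∫ τ in (0:ℝ)..(4 * y), g2 (-y, τ) := rfl
    rw [← h0', ← h0]
    have h3 := intervalIntegral.integral_comp_neg (a := (1/8 : ℝ)) (b := 1/4)
      (fun x : ℝ => ∫ t in (0:ℝ)..1, g1 (x, t))
    rw [← h3]
    refine intervalIntegral.integral_congr fun x hx => ?_
    rw [Set.uIcc_of_le (by norm_num)] at hx
    refine intervalIntegral.integral_congr fun t ht => ?_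
    rw [Set.uIcc_of_le (by norm_num)] at ht
    show g1 (-x, t) = g2 (-(rh x / 4), rh x * t)
    obtain ⟨-, -, h1, h2⟩ := zq2_middle x hx.1 hx.2 (Set.projIcc 0 1 zero_le_one t)
    rw [v1]
    refine v2' _ _ _ h1 ?_
    rw [h2, Set.projIcc_of_mem _ ht]
  -- inner part
  have e3 : (∫ x in (-(1/8) : ℝ)..(1/8), ∫ t in (0:ℝ)..1, g1 (x, t)) =
      ∫ τ in (0:ℝ)..1, ∫ y in (-(τ / 4))..(τ / 4), g2 (y, τ) := by
    rw [← int_inverted g2]
    refine intervalIntegral.integral_congr fun x hx => ?_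
    rw [Set.uIcc_of_le (by norm_num)] at hx
    have h4 : (∫ t in (0:ℝ)..1, g1 (x, t)) = ∫ t in (0:ℝ)..1, g2 (alift x, blift x) := by
      refine intervalIntegral.integral_congr fun t ht => ?_
      show g1 (x, t) = g2 (alift x, blift x)
      obtain ⟨h1, h2⟩ := zq2_inner x (abs_le.2 ⟨hx.1, hx.2⟩) (Set.projIcc 0 1 zero_le_one t)
      rw [v1]
      exact v2' _ _ _ h1 h2
    show (∫ t in (0:ℝ)..1, g1 (x, t)) = g2 (alift x, blift x)
    rw [h4, intervalIntegral.integral_const, sub_zero, one_smul]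
  have hrect := int_rectangle g2
  have s1 : (∫ x in (-(1/2) : ℝ)..(1/2), ∫ t in (0:ℝ)..1, g1 (x, t)) =
      (∫ x in (-(1/2) : ℝ)..(-(1/4)), ∫ t in (0:ℝ)..1, g1 (x, t)) +
      (∫ x in (-(1/4) : ℝ)..(-(1/8)), ∫ t in (0:ℝ)..1, g1 (x, t)) +
      (∫ x in (-(1/8) : ℝ)..(1/8), ∫ t in (0:ℝ)..1, g1 (x, t)) +
      (∫ x in (1/8 : ℝ)..(1/4), ∫ t in (0:ℝ)..1, g1 (x, t)) +
      (∫ x in (1/4 : ℝ)..(1/2), ∫ t in (0:ℝ)..1, g1 (x, t)) := by
    rw [intervalIntegral.integral_add_adjacent_intervals (i1 _ _) (i1 _ _),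
      intervalIntegral.integral_add_adjacent_intervals (i1 _ _) (i1 _ _),
      intervalIntegral.integral_add_adjacent_intervals (i1 _ _) (i1 _ _),
      intervalIntegral.integral_add_adjacent_intervals (i1 _ _) (i1 _ _)]
  have s2 : (∫ x in (-(1/2) : ℝ)..(1/2), ∫ t in (0:ℝ)..1, g2 (x, t)) =
      (∫ x in (-(1/2) : ℝ)..(-(1/4)), ∫ t in (0:ℝ)..1, g2 (x, t)) +
      (∫ x in (-(1/4) : ℝ)..(1/4), ∫ t in (0:ℝ)..1, g2 (x, t)) +
      (∫ x in (1/4 : ℝ)..(1/2), ∫ t in (0:ℝ)..1, g2 (x, t)) := by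
    rw [intervalIntegral.integral_add_adjacent_intervals (i2 _ _) (i2 _ _),
      intervalIntegral.integral_add_adjacent_intervals (i2 _ _) (i2 _ _)]
  rw [s1, s2, hrect, e1, e2, e3, e4, e5]
  ring

/-- **Equivalence.** `EqPZ.of_maps` with `Z = ZM`, `Z' = ℝ/ℤ × [0,1]`, `p = zp`, `q = zq2`,
`intL_nuZ`, `intL_zq2`, homotopies `exists_hZ (1/4) 0`, `exists_hP (1/4) 0`:
`c (1, p (q z)) = c (1, z)` because `zfst (zp w) = w.1` and `pl_zq2`;
`c' (1, q (p w)) = c' (1, w)` because of `pl_zq2 (zp w)`. -/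
theorem eqZ2 : EqPZ nuZ (volume : Measure (UnitAddCircle × unitInterval)) := by
  obtain ⟨c, c0, c1⟩ := exists_hZ (1/4) 0 (by norm_num) (by norm_num)
  obtain ⟨c', c0', c1'⟩ := exists_hP (1/4) 0 (by norm_num) (by norm_num)
  exact EqPZ.of_maps zp zq2 (fun a => (intL_nuZ a).symm) intL_zq2 c c0
    (fun z => c1 _ _ (pl_zq2 z)) c' c0' (fun z => c1' _ _ (pl_zq2 (zp z)))

end H7b
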