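import Pool.Agent.H.MP_7b4a29_an.GenProd
import Pool.Agent.H.MP_7b4a29_an.XEq
import Pool.Agent.H.MP_7b4a29_an.ZInt
import Pool.Agent.H.MP_7b4a29_an.ZOneE
import Pool.Agent.H.MP_7b4a29_an.EmbC
import Pool.Agent.H.MP_7b4a29_an.EmbX
import Pool.Agent.H.MP_7b4a29_an.EmbY

/-!
# Parts (a) and (b)
-/

open MeasureTheory

namespace H7b

open H47

/-- Part (a): `iso_of_models` with `eqX`, `exists_embC`, `exists_embX`. -/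
theorem part_a (z₀ A B c : ℂ) (R : ℝ) (hR : 0 < R) (hAB : A ≠ B)
    (hX : Metric.sphere z₀ R ∩ segment ℝ A B = {c})
    {B' P Q : Type*} [CStarAlgebra B'] [CStarAlgebra P] [CStarAlgebra Q] {τ : B' →ₗ[ℂ] ℂ}
    {ι : ℕ → C(unitInterval, ℂ) →⋆ₐ[ℂ] B'} (hB : FreeInf B' τ ι)
    {σ : P →ₗ[ℂ] ℂ} {a : C(circ, ℂ) →⋆ₐ[ℂ] P} {b : B' →⋆ₐ[ℂ] P}
    (h : FreeProdZ (nrm (Measure.hausdorffMeasure (1 : ℝ)) circ) τ P σ a b)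
    {σ' : Q →ₗ[ℂ] ℂ} {a' : C(loll z₀ R A B, ℂ) →⋆ₐ[ℂ] Q} {b' : B' →⋆ₐ[ℂ] Q}
    (h' : FreeProdZ (nrm (Measure.hausdorffMeasure (1 : ℝ)) (loll z₀ R A B)) τ Q σ' a' b') :
    Nonempty (P ≃⋆ₐ[ℂ] Q) := by
  obtain ⟨e, he⟩ := exists_embC
  obtain ⟨P₀, e', he'⟩ := exists_embX z₀ A B c R hR hAB hX
  exact iso_of_models (eqX P₀) e e' he he' hB h h'

/-- Part (b): `iso_of_models` with `eqZ1.trans eqZ2`, `exists_embC`, `exists_embY`. -/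
theorem part_b (z₀ : ℂ) (r R : ℝ) (hr : 0 < r) (hrR : r < R)
    {B' P Q : Type*} [CStarAlgebra B'] [CStarAlgebra P] [CStarAlgebra Q] {τ : B' →ₗ[ℂ] ℂ}
    {ι : ℕ → C(unitInterval, ℂ) →⋆ₐ[ℂ] B'} (hB : FreeInf B' τ ι)
    {σ : P →ₗ[ℂ] ℂ} {a : C(circ, ℂ) →⋆ₐ[ℂ] P} {b : B' →⋆ₐ[ℂ] P}
    (h : FreeProdZ (nrm (Measure.hausdorffMeasure (1 : ℝ)) circ) τ P σ a b)
    {σ' : Q →ₗ[ℂ] ℂ} {a' : C(annu z₀ r R, ℂ) →⋆ₐ[ℂ] Q} {b' : B' →⋆ₐ[ℂ] Q}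
    (h' : FreeProdZ (nrm volume (annu z₀ r R)) τ Q σ' a' b') :
    Nonempty (P ≃⋆ₐ[ℂ] Q) := by
  obtain ⟨e, he⟩ := exists_embC
  obtain ⟨e', he'⟩ := exists_embY z₀ r R hr hrR
  exact iso_of_models (eqZ1.trans eqZ2) e e' he he' hB h h'

/-- Existence for the circle, the circle with a segment, and the annulus: `exists_of_model`. -/
theorem exists_circ {B' : Type*} [CStarAlgebra B'] {τ : B' →ₗ[ℂ] ℂ}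
    {ι : ℕ → C(unitInterval, ℂ) →⋆ₐ[ℂ] B'} (hB : FreeInf B' τ ι) :
    ∃ (P : Type) (_ : CStarAlgebra P) (σ : P →ₗ[ℂ] ℂ) (a : C(circ, ℂ) →⋆ₐ[ℂ] P)
      (b : B' →⋆ₐ[ℂ] P),
      FreeProdZ (nrm (Measure.hausdorffMeasure (1 : ℝ)) circ) τ P σ a b := by
  obtain ⟨e, he⟩ := exists_embC
  exact exists_of_model e he hB

theorem exists_loll (z₀ A B c : ℂ) (R : ℝ) (hR : 0 < R) (hAB : A ≠ B)
    (hX : Metric.sphere z₀ R ∩ segment ℝ A B = {c}) {B' : Type*} [CStarAlgebra B']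
    {τ : B' →ₗ[ℂ] ℂ} {ι : ℕ → C(unitInterval, ℂ) →⋆ₐ[ℂ] B'} (hB : FreeInf B' τ ι) :
    ∃ (P : Type) (_ : CStarAlgebra P) (σ : P →ₗ[ℂ] ℂ) (a : C(loll z₀ R A B, ℂ) →⋆ₐ[ℂ] P)
      (b : B' →⋆ₐ[ℂ] P),
      FreeProdZ (nrm (Measure.hausdorffMeasure (1 : ℝ)) (loll z₀ R A B)) τ P σ a b := by
  obtain ⟨P₀, e', he'⟩ := exists_embX z₀ A B c R hR hAB hX
  exact exists_of_model e' he' hB

theorem exists_annu (z₀ : ℂ) (r R : ℝ) (hr : 0 < r) (hrR : r < R) {B' : Type*} [CStarAlgebra B']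
    {τ : B' →ₗ[ℂ] ℂ} {ι : ℕ → C(unitInterval, ℂ) →⋆ₐ[ℂ] B'} (hB : FreeInf B' τ ι) :
    ∃ (P : Type) (_ : CStarAlgebra P) (σ : P →ₗ[ℂ] ℂ) (a : C(annu z₀ r R, ℂ) →⋆ₐ[ℂ] P)
      (b : B' →⋆ₐ[ℂ] P), FreeProdZ (nrm volume (annu z₀ r R)) τ P σ a b := by
  obtain ⟨e', he'⟩ := exists_embY z₀ r R hr hrR
  exact exists_of_model e' he' hB

end H7b
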