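import Pool.Agent.H.MP_47f0a1_an.FinalB
import Pool.Agent.H.MP_7b4a29_an.Gen

/-!
# Free products with a general compact space
-/

open MeasureTheory

namespace H7b

open H47

/-- A `FreeProdZ` algebra over a `FreeInf` algebra is of type `IsPZ`. The proof is that of
`H47.PZ_of_freeProd` (file `FinalA`). -/
theorem PZ_of_freeProdZ {Z : Type} [MetricSpace Z] [CompactSpace Z] [MeasurableSpace Z]
    [BorelSpace Z] {μ : Measure Z} [IsProbabilityMeasure μ] {B P : Type*} [CStarAlgebra B]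
    [CStarAlgebra P] {τ : B →ₗ[ℂ] ℂ} {ι : ℕ → C(unitInterval, ℂ) →⋆ₐ[ℂ] B} (hB : FreeInf B τ ι)
    {σ : P →ₗ[ℂ] ℂ} {a : C(Z, ℂ) →⋆ₐ[ℂ] P} {b : B →⋆ₐ[ℂ] P}
    (hP : FreeProdZ μ τ P σ a b) : IsPZ μ σ a (fun j => b.comp (ι j)) where
  tr_inc f := by rw [hP.integral f, intL_apply]
  tr_kap j f := by
    rw [← hB.integral j f, ← hP.state (ι j f)]
    rfl
  rfp := by
    refine ⟨hP.rfp.st, ?_, ?_, hP.rfp.gns⟩
    · have hT : IsFree σ (fun j => (b.comp (ι j)).range) := by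
        refine free_push σ b (fun j => (ι j).range) _ ?_ τ (fun x => (hP.state x).symm)
          hB.rfp.free
        rintro j _ ⟨x, rfl⟩
        exact ⟨ι j x, ⟨x, rfl⟩, rfl⟩
      have h1 := free_refine_option σ ![a.range, b.range] (fun j => (b.comp (ι j)).range)
        (by
          rintro j _ ⟨x, rfl⟩
          exact ⟨ι j x, rfl⟩) hP.rfp.free hT
      refine cast (congrArg (IsFree σ) ?_) h1
      funext o
      cases o <;> rfl
    · refine finalA_gen ι hB.rfp.gen a b hP.rfp.gen _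
        (StarSubalgebra.isClosed_topologicalClosure _) ?_ ?_
      · exact (le_iSup (famZ a (fun j => b.comp (ι j))) none).trans
          (StarSubalgebra.le_topologicalClosure _)
      · intro j
        exact (le_iSup (famZ a (fun j => b.comp (ι j))) (some j)).trans
          (StarSubalgebra.le_topologicalClosure _)

/-- Existence. The proof is that of `H47.exists_freeProd` (file `FinalB`). -/
theorem exists_freeProdZ {Z : Type} [MetricSpace Z] [CompactSpace Z] [MeasurableSpace Z]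
    [BorelSpace Z] (μ : Measure Z) [IsProbabilityMeasure μ] [μ.IsOpenPosMeasure] {B : Type*}
    [CStarAlgebra B] {τ : B →ₗ[ℂ] ℂ} {ι : ℕ → C(unitInterval, ℂ) →⋆ₐ[ℂ] B} (hB : FreeInf B τ ι) :
    ∃ (P : Type) (_ : CStarAlgebra P) (σ : P →ₗ[ℂ] ℂ) (a : C(Z, ℂ) →⋆ₐ[ℂ] P) (b : B →⋆ₐ[ℂ] P),
      FreeProdZ μ τ P σ a b := by
  obtain ⟨P, iP, tr, inc, kap, h, -⟩ := exists_PZ μ
  have hft : IsFT tr := h.ft
  have hτ : IsFT τ := hB.rfp.ft_comm (by
    rintro i _ ⟨x, rfl⟩ _ ⟨y, rfl⟩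
    change ι i x * ι i y = ι i y * ι i x
    rw [← map_mul, ← map_mul, mul_comm])
  have hfk : IsFree tr (fun j => (kap j).range) :=
    free_reindex tr (famZ inc kap) some (Option.some_injective ℕ) h.rfp.free
  obtain ⟨b, hb1, hb2, -⟩ := univ_ranges τ tr hτ.st hft.st hτ.faithful hft.faithful ι kap
    hB.rfp.free hfk (fun i c => by rw [hB.integral, h.tr_kap]) hB.rfp.gen
  refine ⟨P, iP, tr, inc, b, ⟨fun f => by rw [h.tr_inc, intL_apply], hb2, h.rfp.st, ?_, ?_,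
    h.rfp.gns⟩⟩
  · have hg := free_closure tr h.rfp.st.one h.rfp.st.continuous _
      (free_group tr h.rfp.st.one (famZ inc kap)
        (fun o : Option ℕ => (Option.elim o 0 (fun _ => 1) : Fin 2)) h.rfp.free)
    refine free_mono tr _ _ (fun i => ?_) hg
    fin_cases i
    · refine le_trans ?_ (StarSubalgebra.le_topologicalClosure _)
      exact le_iSup (fun i : {i : Option ℕ // Option.elim i (0 : Fin 2) (fun _ => 1) = 0} =>
        famZ inc kap i.1) ⟨none, rfl⟩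
    · refine finalb_range_le b _ hB.rfp.gen _ ?_
      rintro j _ ⟨f, rfl⟩
      refine (le_iSup (fun i : {i : Option ℕ // Option.elim i (0 : Fin 2) (fun _ => 1) = 1} =>
        famZ inc kap i.1) ⟨some j, rfl⟩) ?_
      change b (ι j f) ∈ (kap j).range
      rw [hb1]
      exact ⟨f, rfl⟩
  · refine top_le_iff.mp ?_
    rw [← h.rfp.gen]
    refine StarSubalgebra.topologicalClosure_mono (iSup_le fun o => ?_)
    rcases o with _ | j
    · exact le_iSup (![inc.range, b.range]) 0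
    · refine le_trans ?_ (le_iSup (![inc.range, b.range]) 1)
      rintro _ ⟨f, rfl⟩
      exact ⟨ι j f, hb1 j f⟩

/-- Transfer along a homeomorphism that preserves the integrals of continuous functions.
The range of `a ∘ (precomposition with e.symm)` is the range of `a`. -/
theorem FreeProdZ.transfer {Z W : Type*} [TopologicalSpace Z] [MeasurableSpace Z]
    [TopologicalSpace W] [MeasurableSpace W] {μ : Measure Z} {ν : Measure W} {B P : Type*}
    [CStarAlgebra B] [CStarAlgebra P] {τ : B →ₗ[ℂ] ℂ} {σ : P →ₗ[ℂ] ℂ} {b : B →⋆ₐ[ℂ] P}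
    {a : C(W, ℂ) →⋆ₐ[ℂ] P} (e : Z ≃ₜ W)
    (he : ∀ f : C(W, ℂ), ∫ x, f (e x) ∂μ = ∫ y, f y ∂ν) (h : FreeProdZ ν τ P σ a b) :
    FreeProdZ μ τ P σ
      (a.comp (ContinuousMap.compStarAlgHom' ℂ ℂ (e.symm : C(W, Z)))) b := by
  have hr : (a.comp (ContinuousMap.compStarAlgHom' ℂ ℂ (e.symm : C(W, Z)))).range = a.range := by
    apply le_antisymm
    · rintro _ ⟨f, rfl⟩
      exact ⟨f.comp (e.symm : C(W, Z)), rfl⟩
    · rintro _ ⟨f, rfl⟩
      refine ⟨f.comp (e : C(Z, W)), ?_⟩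
      change a ((f.comp (e : C(Z, W))).comp (e.symm : C(W, Z))) = a f
      congr 1
      ext x
      change f (e (e.symm x)) = f x
      rw [e.apply_symm_apply]
  refine ⟨fun f => ?_, h.state, ?_⟩
  · change σ (a (f.comp (e.symm : C(W, Z)))) = ∫ x, f x ∂μ
    rw [h.integral, ← he]
    refine integral_congr_ae (Filter.Eventually.of_forall fun x => ?_)
    change f (e.symm (e x)) = f x
    rw [e.symm_apply_apply]
  · rw [hr]
    exact h.rfp

/-- The final step: if the model spaces are related by `EqPZ`, and the concrete spaces are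
homeomorphic to the models with matching measures, then the reduced free products with `B` are
isomorphic.

Proof. `FreeProdZ.transfer` for both, `PZ_of_freeProdZ`. To pass to algebras in `Type` use
`exists_PZ` for `μ` and `μ'` and `IsPZ.unique`. -/
theorem iso_of_models {Z Z' : Type} [MetricSpace Z] [CompactSpace Z] [MeasurableSpace Z]
    [BorelSpace Z] [MetricSpace Z'] [CompactSpace Z'] [MeasurableSpace Z'] [BorelSpace Z']
    {μ : Measure Z} [IsProbabilityMeasure μ] [μ.IsOpenPosMeasure] {μ' : Measure Z'}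
    [IsProbabilityMeasure μ'] [μ'.IsOpenPosMeasure] (hEq : EqPZ μ μ')
    {W W' : Type*} [TopologicalSpace W] [MeasurableSpace W] [TopologicalSpace W']
    [MeasurableSpace W'] {ν : Measure W} {ν' : Measure W'} (e : Z ≃ₜ W) (e' : Z' ≃ₜ W')
    (he : ∀ f : C(W, ℂ), ∫ x, f (e x) ∂μ = ∫ y, f y ∂ν)
    (he' : ∀ f : C(W', ℂ), ∫ x, f (e' x) ∂μ' = ∫ y, f y ∂ν')
    {B P P' : Type*} [CStarAlgebra B] [CStarAlgebra P] [CStarAlgebra P'] {τ : B →ₗ[ℂ] ℂ}
    {ι : ℕ → C(unitInterval, ℂ) →⋆ₐ[ℂ] B} (hB : FreeInf B τ ι)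
    {σ : P →ₗ[ℂ] ℂ} {a : C(W, ℂ) →⋆ₐ[ℂ] P} {b : B →⋆ₐ[ℂ] P} (h : FreeProdZ ν τ P σ a b)
    {σ' : P' →ₗ[ℂ] ℂ} {a' : C(W', ℂ) →⋆ₐ[ℂ] P'} {b' : B →⋆ₐ[ℂ] P'}
    (h' : FreeProdZ ν' τ P' σ' a' b') : Nonempty (P ≃⋆ₐ[ℂ] P') := by
  have k := PZ_of_freeProdZ hB (h.transfer e he)
  have k' := PZ_of_freeProdZ hB (h'.transfer e' he')
  obtain ⟨P₀, _, tr₀, inc₀, kap₀, k₀, -⟩ := exists_PZ μ
  obtain ⟨P₁, _, tr₁, inc₁, kap₁, k₁, -⟩ := exists_PZ μ'
  obtain ⟨u₀, -⟩ := k.unique k₀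
  obtain ⟨u₁, -⟩ := k'.unique k₁
  obtain ⟨u⟩ := hEq P₀ P₁ tr₀ tr₁ inc₀ kap₀ inc₁ kap₁ k₀ k₁
  exact ⟨(u₀.trans u).trans u₁.symm⟩

/-- Existence over a concrete space homeomorphic to a model: `exists_freeProdZ` and
`FreeProdZ.transfer` along `e.symm`. -/
theorem exists_of_model {Z : Type} [MetricSpace Z] [CompactSpace Z] [MeasurableSpace Z]
    [BorelSpace Z] {μ : Measure Z} [IsProbabilityMeasure μ] [μ.IsOpenPosMeasure]
    {W : Type*} [TopologicalSpace W] [MeasurableSpace W] {ν : Measure W} (e : Z ≃ₜ W)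
    (he : ∀ f : C(W, ℂ), ∫ x, f (e x) ∂μ = ∫ y, f y ∂ν)
    {B : Type*} [CStarAlgebra B] {τ : B →ₗ[ℂ] ℂ}
    {ι : ℕ → C(unitInterval, ℂ) →⋆ₐ[ℂ] B} (hB : FreeInf B τ ι) :
    ∃ (P : Type) (_ : CStarAlgebra P) (σ : P →ₗ[ℂ] ℂ) (a : C(W, ℂ) →⋆ₐ[ℂ] P) (b : B →⋆ₐ[ℂ] P),
      FreeProdZ ν τ P σ a b := by
  obtain ⟨P, iP, σ, a, b, h⟩ := exists_freeProdZ μ hB
  refine ⟨P, iP, σ, _, b, h.transfer e.symm (fun f => ?_)⟩
  refine (he (f.comp (e.symm : C(W, Z)))).symm.trans ?_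
  refine integral_congr_ae (Filter.Eventually.of_forall fun x => ?_)
  change f (e.symm (e x)) = f x
  rw [e.symm_apply_apply]

end H7b
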