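import Pool.Agent.H.MP_7b4a29_an.Defs

/-!
# Piecewise linear odd maps of the circle

The circle is `UnitAddCircle = ℝ/ℤ`. For `z = (x : ℝ/ℤ)` with `|x| ≤ 1/2` one has `‖z‖ = |x|`.
`Fpl a b` is the odd piecewise linear map of `[-1/2, 1/2]` with `a ↦ b`, `1/2 ↦ 1/2`.
-/

open MeasureTheory

namespace H7b

instance instProbCircle : IsProbabilityMeasure (volume : Measure UnitAddCircle) :=
  ⟨UnitAddCircle.measure_univ⟩

theorem exists_rep (z : UnitAddCircle) : ∃ x : ℝ, x ∈ Set.Icc (-(1/2) : ℝ) (1/2) ∧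
    (x : UnitAddCircle) = z := by
  have h : z ∈ ((↑) : ℝ → AddCircle (1:ℝ)) '' Set.Icc (-(1/2)) (-(1/2) + 1) := by
    rw [AddCircle.coe_image_Icc_eq (1:ℝ) (-(1/2))]
    exact Set.mem_univ _
  obtain ⟨x, hx, hxz⟩ := h
  refine ⟨x, ⟨hx.1, ?_⟩, hxz⟩
  have := hx.2
  linarith

theorem norm_coe (x : ℝ) (hx : x ∈ Set.Icc (-(1/2) : ℝ) (1/2)) :
    ‖(x : UnitAddCircle)‖ = |x| := by
  have h := (AddCircle.norm_coe_eq_abs_iff (p := (1:ℝ)) (x := x) one_ne_zero).2
  apply h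
  rw [abs_one]
  exact abs_le.2 ⟨hx.1, hx.2⟩

/-- `∫_T g = ∫_{-1/2}^{1/2} g`. From `UnitAddCircle.intervalIntegral_preimage`. -/
theorem integral_circle (g : UnitAddCircle → ℂ) :
    ∫ z, g z = ∫ x in (-(1/2) : ℝ)..(1/2), g (x : UnitAddCircle) := by
  have h := UnitAddCircle.intervalIntegral_preimage (-(1/2) : ℝ) g
  rw [← h]
  congr 1
  norm_num

noncomputable def clip (a x : ℝ) : ℝ := max (-a) (min x a)

noncomputable def Fpl (a b x : ℝ) : ℝ :=
  (b / a) * clip a x + ((1/2 - b) / (1/2 - a)) * (x - clip a x)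

theorem Fpl_continuous (a b : ℝ) : Continuous (Fpl a b) := by
  unfold Fpl clip
  fun_prop

theorem pl_clip_of_ge (a x : ℝ) (ha : 0 < a) (hx : a ≤ x) : clip a x = a := by
  unfold clip
  rw [min_eq_right hx, max_eq_right (by linarith)]

theorem pl_clip_of_le (a x : ℝ) (ha : 0 < a) (hx : x ≤ -a) : clip a x = -a := by
  unfold clip
  rw [min_eq_left (by linarith), max_eq_left hx]

theorem pl_clip_of_abs (a x : ℝ) (hx : |x| ≤ a) : clip a x = x := by
  unfold clip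
  rw [min_eq_left (abs_le.1 hx).2, max_eq_right (abs_le.1 hx).1]

theorem Fpl_half (a b : ℝ) (ha : 0 < a) (ha' : a < 1/2) :
    Fpl a b (1/2) = 1/2 ∧ Fpl a b (-(1/2)) = -(1/2) := by
  have h1 : (1/2 - a) ≠ 0 := by
    have : 0 < 1/2 - a := by linarith
    exact this.ne'
  have h2 : a ≠ 0 := ha.ne'
  constructor
  · unfold Fpl
    rw [pl_clip_of_ge a (1/2) ha (by linarith), div_mul_cancel₀ _ h2, div_mul_cancel₀ _ h1]
    ring
  · unfold Fpl
    rw [pl_clip_of_le a (-(1/2)) ha (by linarith)]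
    have e1 : (b / a) * (-a) = -b := by
      rw [mul_neg, div_mul_cancel₀ _ h2]
    have e2 : ((1/2 - b) / (1/2 - a)) * (-(1/2) - -a) = -(1/2 - b) := by
      rw [show (-(1/2) - -a : ℝ) = -(1/2 - a) by ring, mul_neg, div_mul_cancel₀ _ h1]
    rw [e1, e2]
    ring

/-- The continuous periodic function `x ↦ Fpl a b x - x`, descended to the circle.
Continuity: `AddCircle.liftIco_continuous` with `Fpl_half`. -/
noncomputable def phi (a b : ℝ) (ha : 0 < a) (ha' : a < 1/2) : C(UnitAddCircle, ℝ) where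
  toFun := AddCircle.liftIco (1 : ℝ) (-(1/2)) (fun x => Fpl a b x - x)
  continuous_toFun := by
    apply AddCircle.liftIco_continuous
    · have e : (-(1/2) + 1 : ℝ) = 1/2 := by norm_num
      simp only [e]
      rw [(Fpl_half a b ha ha').1, (Fpl_half a b ha ha').2]
      norm_num
    · exact ((Fpl_continuous a b).sub continuous_id).continuousOn

theorem phi_coe (a b : ℝ) (ha : 0 < a) (ha' : a < 1/2) (x : ℝ)
    (hx : x ∈ Set.Icc (-(1/2) : ℝ) (1/2)) :
    phi a b ha ha' (x : UnitAddCircle) = Fpl a b x - x := by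
  have hdef : ∀ z, phi a b ha ha' z =
      AddCircle.liftIco (1 : ℝ) (-(1/2)) (fun x => Fpl a b x - x) z := fun z => rfl
  rw [hdef]
  rcases lt_or_eq_of_le hx.2 with h | h
  · exact AddCircle.liftIco_coe_apply (p := (1:ℝ)) (a := -(1/2)) ⟨hx.1, by linarith⟩
  · subst h
    have e : (((1/2 : ℝ)) : AddCircle (1:ℝ)) = ((-(1/2) : ℝ) : AddCircle (1:ℝ)) := by
      rw [← AddCircle.coe_add_period (1:ℝ) (-(1/2))]
      norm_num
    have e2 : AddCircle.liftIco (1 : ℝ) (-(1/2)) (fun x => Fpl a b x - x)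
        ((-(1/2) : ℝ) : AddCircle (1:ℝ)) = Fpl a b (-(1/2)) - (-(1/2)) :=
      AddCircle.liftIco_coe_apply (p := (1:ℝ)) (a := -(1/2)) ⟨le_refl _, by norm_num⟩
    have e3 : AddCircle.liftIco (1 : ℝ) (-(1/2)) (fun x => Fpl a b x - x)
        (((1/2 : ℝ)) : AddCircle (1:ℝ)) = Fpl a b (-(1/2)) - (-(1/2)) := by
      rw [e]; exact e2
    refine e3.trans ?_
    rw [(Fpl_half a b ha ha').1, (Fpl_half a b ha ha').2]
    norm_num

theorem pl_Fpl_zero (a b : ℝ) (ha : 0 < a) : Fpl a b 0 = 0 := by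
  unfold Fpl
  rw [pl_clip_of_abs a 0 (by rw [abs_zero]; exact ha.le)]
  ring

theorem phi_zero (a b : ℝ) (ha : 0 < a) (ha' : a < 1/2) : phi a b ha ha' 0 = 0 := by
  have h := phi_coe a b ha ha' 0 ⟨by norm_num, by norm_num⟩
  rw [pl_Fpl_zero a b ha] at h
  have e : ((0 : ℝ) : UnitAddCircle) = 0 := rfl
  rw [e] at h
  rw [h]
  ring

/-- The homotopy `(s, z) ↦ z + s φ(z)`. -/
noncomputable def plh (a b : ℝ) (ha : 0 < a) (ha' : a < 1/2) :
    C(unitInterval × UnitAddCircle, UnitAddCircle) where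
  toFun w := w.2 + (((w.1 : ℝ) * phi a b ha ha' w.2 : ℝ) : UnitAddCircle)
  continuous_toFun := by
    apply Continuous.add continuous_snd
    apply (AddCircle.continuous_mk' (1:ℝ)).comp
    exact (continuous_subtype_val.comp continuous_fst).mul
      ((phi a b ha ha').continuous.comp continuous_snd)

/-- The piecewise linear map of the circle. -/
noncomputable def pl (a b : ℝ) (ha : 0 < a) (ha' : a < 1/2) : C(UnitAddCircle, UnitAddCircle) where
  toFun z := z + ((phi a b ha ha' z : ℝ) : UnitAddCircle)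
  continuous_toFun := by
    apply Continuous.add continuous_id
    exact (AddCircle.continuous_mk' (1:ℝ)).comp (phi a b ha ha').continuous

theorem plh_zero (a b : ℝ) (ha : 0 < a) (ha' : a < 1/2) (z : UnitAddCircle) :
    plh a b ha ha' (0, z) = z := by
  change z + ((((0 : unitInterval) : ℝ) * phi a b ha ha' z : ℝ) : UnitAddCircle) = z
  rw [Set.Icc.coe_zero, zero_mul]
  exact add_zero z

theorem plh_one (a b : ℝ) (ha : 0 < a) (ha' : a < 1/2) (z : UnitAddCircle) :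
    plh a b ha ha' (1, z) = pl a b ha ha' z := by
  change z + ((((1 : unitInterval) : ℝ) * phi a b ha ha' z : ℝ) : UnitAddCircle) =
    z + ((phi a b ha ha' z : ℝ) : UnitAddCircle)
  rw [Set.Icc.coe_one, one_mul]

theorem plh_fix (a b : ℝ) (ha : 0 < a) (ha' : a < 1/2) (s : unitInterval) :
    plh a b ha ha' (s, 0) = 0 := by
  change (0 : UnitAddCircle) + (((s : ℝ) * phi a b ha ha' 0 : ℝ) : UnitAddCircle) = 0
  rw [phi_zero, mul_zero]
  exact add_zero _

theorem pl_coe (a b : ℝ) (ha : 0 < a) (ha' : a < 1/2) (x : ℝ)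
    (hx : x ∈ Set.Icc (-(1/2) : ℝ) (1/2)) :
    pl a b ha ha' (x : UnitAddCircle) = (Fpl a b x : UnitAddCircle) := by
  change (x : UnitAddCircle) + ((phi a b ha ha' (x : UnitAddCircle) : ℝ) : UnitAddCircle) = _
  rw [phi_coe a b ha ha' x hx, ← AddCircle.coe_add]
  congr 1
  ring

theorem pl_zero (a b : ℝ) (ha : 0 < a) (ha' : a < 1/2) : pl a b ha ha' 0 = 0 := by
  rw [← plh_one, plh_fix]

/-- `pl a 0` collapses `‖z‖ ≤ a` to `0`. -/
theorem pl_collapse (a : ℝ) (ha : 0 < a) (ha' : a < 1/2) (z : UnitAddCircle) (hz : ‖z‖ ≤ a) :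
    pl a 0 ha ha' z = 0 := by
  obtain ⟨x, hx, rfl⟩ := exists_rep z
  rw [norm_coe x hx] at hz
  rw [pl_coe a 0 ha ha' x hx]
  have h : Fpl a 0 x = 0 := by
    unfold Fpl
    rw [pl_clip_of_abs a x hz]
    ring
  rw [h]
  rfl

/-- `pl a (1/2)` collapses `a ≤ ‖z‖` to the point `1/2`. -/
theorem pl_collapse_half (a : ℝ) (ha : 0 < a) (ha' : a < 1/2) (z : UnitAddCircle)
    (hz : a ≤ ‖z‖) : pl a (1/2) ha ha' z = ((1/2 : ℝ) : UnitAddCircle) := by
  obtain ⟨x, hx, rfl⟩ := exists_rep z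
  rw [norm_coe x hx] at hz
  rw [pl_coe a (1/2) ha ha' x hx]
  have h2 : a ≠ 0 := ha.ne'
  rcases le_total 0 x with h0 | h0
  · rw [abs_of_nonneg h0] at hz
    have h : Fpl a (1/2) x = 1/2 := by
      unfold Fpl
      rw [pl_clip_of_ge a x ha hz, div_mul_cancel₀ _ h2, sub_self, zero_div, zero_mul, add_zero]
    rw [h]
  · rw [abs_of_nonpos h0] at hz
    have h : Fpl a (1/2) x = -(1/2) := by
      unfold Fpl
      rw [pl_clip_of_le a x ha (by linarith), mul_neg, div_mul_cancel₀ _ h2, sub_self, zero_div,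
        zero_mul, add_zero]
    rw [h, ← AddCircle.coe_add_period (1:ℝ) (-(1/2))]
    norm_num

/-- `‖pl a b z‖ ≤ b` for `‖z‖ ≤ a` (`0 ≤ b ≤ 1/2`). -/
theorem norm_pl_le (a b : ℝ) (ha : 0 < a) (ha' : a < 1/2) (hb : 0 ≤ b) (hb' : b ≤ 1/2)
    (z : UnitAddCircle) (hz : ‖z‖ ≤ a) : ‖pl a b ha ha' z‖ ≤ b := by
  obtain ⟨x, hx, rfl⟩ := exists_rep z
  rw [norm_coe x hx] at hz
  rw [pl_coe a b ha ha' x hx]
  have h : Fpl a b x = (b / a) * x := by
    unfold Fpl
    rw [pl_clip_of_abs a x hz]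
    ring
  have habs : |(b / a) * x| ≤ b := by
    rw [abs_mul, abs_of_nonneg (div_nonneg hb ha.le)]
    calc (b / a) * |x| ≤ (b / a) * a := by
          apply mul_le_mul_of_nonneg_left hz (div_nonneg hb ha.le)
      _ = b := div_mul_cancel₀ _ ha.ne'
  rw [h, norm_coe _ (abs_le.1 (habs.trans hb'))]
  exact habs

end H7b
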