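import Pool.Agent.H.MP_7b4a29_an.PL

/-!
# Change of variables for the piecewise linear maps
-/

open MeasureTheory

namespace H7b

theorem pli_intervalIntegrable (h : C(UnitAddCircle, ℂ)) (s t : ℝ) :
    IntervalIntegrable (fun x : ℝ => h (x : UnitAddCircle)) volume s t :=
  (h.continuous.comp (AddCircle.continuous_mk' (1:ℝ))).intervalIntegrable s t

/-- One linear piece. -/
theorem pli_piece (a b : ℝ) (ha : 0 < a) (ha' : a < 1/2) (g : C(UnitAddCircle, ℂ))
    (s t c e s' t' : ℝ) (hst : s ≤ t) (hs : -(1/2) ≤ s) (ht : t ≤ 1/2) (hc : c ≠ 0)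
    (hF : ∀ x, s ≤ x → x ≤ t → Fpl a b x = c * x + e) (hs' : c * s + e = s')
    (ht' : c * t + e = t') :
    ∫ x in s..t, g (pl a b ha ha' (x : UnitAddCircle)) =
      ((c⁻¹ : ℝ) : ℂ) * ∫ x in s'..t', g (x : UnitAddCircle) := by
  have h1 : ∫ x in s..t, g (pl a b ha ha' (x : UnitAddCircle)) =
      ∫ x in s..t, g (((c * x + e : ℝ)) : UnitAddCircle) := by
    apply intervalIntegral.integral_congr
    intro x hx
    rw [Set.uIcc_of_le hst] at hx
    change g (pl a b ha ha' (x : UnitAddCircle)) = g (((c * x + e : ℝ)) : UnitAddCircle)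
    rw [pl_coe a b ha ha' x ⟨hs.trans hx.1, hx.2.trans ht⟩, hF x hx.1 hx.2]
  have h2 := intervalIntegral.integral_comp_mul_add (a := s) (b := t)
    (fun x : ℝ => g (x : UnitAddCircle)) hc e
  rw [h1]
  refine h2.trans ?_
  rw [hs', ht', Complex.real_smul]

/-- Change of variables: `∫ g ∘ pl a b = (a/b) ∫_{-b}^{b} g + ((1/2 - a)/(1/2 - b)) (∫_{-1/2}^{-b} g +
∫_b^{1/2} g)` for `0 < b < 1/2`. Split `[-1/2, 1/2]` at `±a`, `intervalIntegral.integral_comp_mul_add`
or similar. -/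
theorem integral_pl (a b : ℝ) (ha : 0 < a) (ha' : a < 1/2) (hb : 0 < b) (hb' : b < 1/2)
    (g : C(UnitAddCircle, ℂ)) :
    ∫ z, g (pl a b ha ha' z) = ((a / b : ℝ) : ℂ) * (∫ x in (-b)..b, g (x : UnitAddCircle)) +
      (((1/2 - a) / (1/2 - b) : ℝ) : ℂ) * ((∫ x in (-(1/2) : ℝ)..(-b), g (x : UnitAddCircle)) +
        ∫ x in b..(1/2), g (x : UnitAddCircle)) := by
  have ha0 : a ≠ 0 := ha.ne'
  have hb0 : b ≠ 0 := hb.ne'
  have ha1 : (1/2 - a) ≠ 0 := by
    have : 0 < 1/2 - a := by linarith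
    exact this.ne'
  have hb1 : (1/2 - b) ≠ 0 := by
    have : 0 < 1/2 - b := by linarith
    exact this.ne'
  have hi : ∀ s t : ℝ, IntervalIntegrable
      (fun x : ℝ => g (pl a b ha ha' (x : UnitAddCircle))) volume s t := fun s t =>
    pli_intervalIntegrable (g.comp (pl a b ha ha')) s t
  have hc1 : (1/2 - b) / (1/2 - a) ≠ 0 := div_ne_zero hb1 ha1
  have hc2 : b / a ≠ 0 := div_ne_zero hb0 ha0
  have hcm : (1/2 - b) / (1/2 - a) * (1/2 - a) = 1/2 - b := div_mul_cancel₀ _ ha1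
  have hcb : b / a * a = b := div_mul_cancel₀ _ ha0
  have p1 := pli_piece a b ha ha' g (-(1/2)) (-a) ((1/2 - b) / (1/2 - a))
    ((1/2 - b) / (1/2 - a) * a - b) (-(1/2)) (-b) (by linarith) le_rfl (by linarith) hc1
    (by
      intro x _ hx
      unfold Fpl
      rw [pl_clip_of_le a x ha hx]
      linear_combination (-1 : ℝ) * hcb)
    (by linear_combination (-1 : ℝ) * hcm) (by ring)
  have p2 := pli_piece a b ha ha' g (-a) a (b / a) 0 (-b) b (by linarith) (by linarith)
    (by linarith) hc2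
    (by
      intro x hx1 hx2
      unfold Fpl
      rw [pl_clip_of_abs a x (abs_le.2 ⟨hx1, hx2⟩)]
      ring)
    (by linear_combination (-1 : ℝ) * hcb) (by linear_combination hcb)
  have p3 := pli_piece a b ha ha' g a (1/2) ((1/2 - b) / (1/2 - a))
    (b - (1/2 - b) / (1/2 - a) * a) b (1/2) (by linarith) (by linarith) le_rfl hc1
    (by
      intro x hx _
      unfold Fpl
      rw [pl_clip_of_ge a x ha hx]
      linear_combination hcb)
    (by ring) (by linear_combination hcm)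
  rw [integral_circle (fun z => g (pl a b ha ha' z)),
    ← intervalIntegral.integral_add_adjacent_intervals (hi (-(1/2)) (-a)) (hi (-a) (1/2)),
    ← intervalIntegral.integral_add_adjacent_intervals (hi (-a) a) (hi a (1/2)), p1, p2, p3]
  have e1 : (((1/2 - b) / (1/2 - a))⁻¹ : ℝ) = (1/2 - a) / (1/2 - b) := inv_div _ _
  have e2 : ((b / a)⁻¹ : ℝ) = a / b := inv_div _ _
  rw [e1, e2]
  ring

end H7b
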