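import Pool.Agent.H.MP_7b4a29_an.XMod

/-!
# The excursion function
-/

open MeasureTheory

namespace H7b

open H47

variable (P : XP)

/-- The excursion on `[0,1]` as a function of `y`: from `be` up to `1` and back for
`0 ≤ y ≤ 1 - be`, then down to `0` and back for `1 - be ≤ y ≤ 1`; constant `be` outside `[0,1]`. -/
noncomputable def exc (y : ℝ) : ℝ :=
  (P.be : ℝ) + max 0 (min (2 * y) (2 * (1 - P.be - y))) -
    max 0 (min (2 * (y - (1 - P.be))) (2 * (1 - y)))

theorem xexc_left (y : ℝ) (hy : y ≤ 1 - P.be) :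
    exc P y = P.be + max 0 (min (2 * y) (2 * (1 - P.be - y))) := by
  unfold exc
  have h : min (2 * (y - (1 - (P.be : ℝ)))) (2 * (1 - y)) ≤ 0 :=
    (min_le_left _ _).trans (by linarith)
  rw [max_eq_left h, sub_zero]

theorem xexc_right (y : ℝ) (hy : 1 - P.be ≤ y) :
    exc P y = P.be - max 0 (min (2 * (y - (1 - P.be))) (2 * (1 - y))) := by
  unfold exc
  have h : min (2 * y) (2 * (1 - (P.be : ℝ) - y)) ≤ 0 :=
    (min_le_right _ _).trans (by linarith)
  rw [max_eq_left h, add_zero]

theorem exc_mem (y : ℝ) : exc P y ∈ Set.Icc (0:ℝ) 1 := by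
  have hb0 : 0 ≤ (P.be : ℝ) := P.be.2.1
  have hb1 : (P.be : ℝ) ≤ 1 := P.be.2.2
  rcases le_total y (1 - (P.be : ℝ)) with hy | hy
  · rw [xexc_left P y hy]
    have h1 : min (2 * y) (2 * (1 - (P.be : ℝ) - y)) ≤ 1 - P.be := by
      rcases le_total (2 * y) (1 - (P.be : ℝ)) with h | h
      · exact (min_le_left _ _).trans h
      · exact (min_le_right _ _).trans (by linarith)
    have h2 : max 0 (min (2 * y) (2 * (1 - (P.be : ℝ) - y))) ≤ 1 - P.be :=
      max_le (by linarith) h1
    have h3 : 0 ≤ max 0 (min (2 * y) (2 * (1 - (P.be : ℝ) - y))) := le_max_left _ _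
    exact ⟨by linarith, by linarith⟩
  · rw [xexc_right P y hy]
    have h1 : min (2 * (y - (1 - (P.be : ℝ)))) (2 * (1 - y)) ≤ P.be := by
      rcases le_total (2 * (y - (1 - (P.be : ℝ)))) (P.be : ℝ) with h | h
      · exact (min_le_left _ _).trans h
      · exact (min_le_right _ _).trans (by linarith)
    have h2 : max 0 (min (2 * (y - (1 - (P.be : ℝ)))) (2 * (1 - y))) ≤ P.be :=
      max_le (by linarith) h1
    have h3 : 0 ≤ max 0 (min (2 * (y - (1 - (P.be : ℝ)))) (2 * (1 - y))) := le_max_left _ _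
    exact ⟨by linarith, by linarith⟩

theorem exc_out (y : ℝ) (hy : y ≤ 0 ∨ 1 ≤ y) : exc P y = P.be := by
  have hb0 : 0 ≤ (P.be : ℝ) := P.be.2.1
  have hb1 : (P.be : ℝ) ≤ 1 := P.be.2.2
  rcases hy with hy | hy
  · rw [xexc_left P y (by linarith), max_eq_left ((min_le_left _ _).trans (by linarith)), add_zero]
  · rw [xexc_right P y (by linarith), max_eq_left ((min_le_right _ _).trans (by linarith)), sub_zero]

theorem xexc_cont : Continuous (exc P) := by
  unfold exc
  fun_prop

/-- One affine piece. -/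
theorem xexc_piece (h : C(ℝ, ℂ)) (a b c d : ℝ) (hab : a ≤ b) (hc : c ≠ 0)
    (he : ∀ y, a ≤ y → y ≤ b → exc P y = c * y + d) :
    ∫ y in a..b, h (exc P y) = c⁻¹ • ∫ u in (c * a + d)..(c * b + d), h u := by
  rw [← intervalIntegral.integral_comp_mul_add (fun u => h u) hc d]
  refine intervalIntegral.integral_congr fun y hy => ?_
  rw [Set.uIcc_of_le hab] at hy
  rw [he y hy.1 hy.2]

/-- The excursion is uniformly distributed. Split `[0,1]` at `(1-be)/2`, `1-be`, `1 - be/2`; the four
pieces are affine with slopes `±2` onto `[be, 1]`, `[be, 1]`, `[0, be]`, `[0, be]`. -/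
theorem integral_exc (h : C(ℝ, ℂ)) :
    ∫ y in (0:ℝ)..1, h (exc P y) = ∫ u in (0:ℝ)..1, h u := by
  have hb0 : 0 ≤ (P.be : ℝ) := P.be.2.1
  have hb1 : (P.be : ℝ) ≤ 1 := P.be.2.2
  obtain ⟨b, hb⟩ : ∃ b : ℝ, b = P.be := ⟨_, rfl⟩
  rw [← hb] at hb0 hb1
  have hI : ∀ s t : ℝ, IntervalIntegrable (fun y => h (exc P y)) volume s t := fun s t =>
    (h.continuous.comp (xexc_cont P)).intervalIntegrable _ _
  have hJ : ∀ s t : ℝ, IntervalIntegrable (fun y => h y) volume s t := fun s t =>
    h.continuous.intervalIntegrable _ _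
  have p1 : ∫ y in (0:ℝ)..((1 - b) / 2), h (exc P y) = (2 : ℝ)⁻¹ • ∫ u in b..1, h u := by
    rw [xexc_piece P h 0 ((1 - b) / 2) 2 b (by linarith) two_ne_zero]
    · congr 2 <;> ring
    · intro y hy1 hy2
      rw [xexc_left P y (by rw [← hb]; linarith), ← hb, min_eq_left (by linarith),
        max_eq_right (by linarith)]
      ring
  have p2 : ∫ y in ((1 - b) / 2)..(1 - b), h (exc P y) = (2 : ℝ)⁻¹ • ∫ u in b..1, h u := by
    rw [xexc_piece P h ((1 - b) / 2) (1 - b) (-2) (2 - b) (by linarith) (by norm_num)]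
    · have e1 : -2 * ((1 - b) / 2) + (2 - b) = 1 := by ring
      have e2 : -2 * (1 - b) + (2 - b) = b := by ring
      rw [e1, e2, intervalIntegral.integral_symm b 1, inv_neg, neg_smul_neg]
    · intro y hy1 hy2
      rw [xexc_left P y (by rw [← hb]; linarith), ← hb, min_eq_right (by linarith),
        max_eq_right (by linarith)]
      ring
  have p3 : ∫ y in (1 - b)..(1 - b / 2), h (exc P y) = (2 : ℝ)⁻¹ • ∫ u in (0:ℝ)..b, h u := by
    rw [xexc_piece P h (1 - b) (1 - b / 2) (-2) (2 - b) (by linarith) (by norm_num)]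
    · have e1 : -2 * (1 - b) + (2 - b) = b := by ring
      have e2 : -2 * (1 - b / 2) + (2 - b) = 0 := by ring
      rw [e1, e2, intervalIntegral.integral_symm 0 b, inv_neg, neg_smul_neg]
    · intro y hy1 hy2
      rw [xexc_right P y (by rw [← hb]; linarith), ← hb, min_eq_left (by linarith),
        max_eq_right (by linarith)]
      ring
  have p4 : ∫ y in (1 - b / 2)..1, h (exc P y) = (2 : ℝ)⁻¹ • ∫ u in (0:ℝ)..b, h u := by
    rw [xexc_piece P h (1 - b / 2) 1 2 (b - 2) (by linarith) two_ne_zero]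
    · have e1 : 2 * (1 - b / 2) + (b - 2) = 0 := by ring
      have e2 : 2 * 1 + (b - 2) = b := by ring
      rw [e1, e2]
    · intro y hy1 hy2
      rw [xexc_right P y (by rw [← hb]; linarith), ← hb, min_eq_right (by linarith),
        max_eq_right (by linarith)]
      ring
  rw [← intervalIntegral.integral_add_adjacent_intervals (hI 0 (1 - b)) (hI (1 - b) 1),
    ← intervalIntegral.integral_add_adjacent_intervals (hI 0 ((1 - b) / 2))
      (hI ((1 - b) / 2) (1 - b)),
    ← intervalIntegral.integral_add_adjacent_intervals (hI (1 - b) (1 - b / 2))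
      (hI (1 - b / 2) 1),
    ← intervalIntegral.integral_add_adjacent_intervals (hJ 0 b) (hJ b 1), p1, p2, p3, p4,
    ← add_smul, ← add_smul]
  norm_num
  ring

end H7b
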