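import Pool.Agent.H.MP_7b4a29_an.XMap
import Pool.Agent.H.MP_7b4a29_an.PLI

/-!
# The maps preserve the measures
-/

open MeasureTheory

namespace H7b

open H47

variable (P : XP)

theorem xint_unit (h : C(ℝ, ℂ)) :
    ∫ u : unitInterval, h (u : ℝ) = ∫ u in (0:ℝ)..1, h u := by
  rw [intervalIntegral.integral_of_le zero_le_one, ← integral_Icc_eq_integral_Ioc]
  exact integral_subtype_comap (μ := (volume : Measure ℝ)) measurableSet_Icc (fun u => h u)

/-- The function on the line obtained by projection to the interval. -/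
noncomputable def xint_h (f : C(XM P, ℂ)) : C(ℝ, ℂ) where
  toFun u := f (inS P (Set.projIcc 0 1 zero_le_one u))
  continuous_toFun := f.continuous.comp ((inS P).continuous.comp continuous_projIcc)

theorem xint_seg (f : C(XM P, ℂ)) :
    ∫ u : unitInterval, f (inS P u) = ∫ u in (0:ℝ)..1, xint_h P f u := by
  rw [← xint_unit]
  refine integral_congr_ae (Filter.Eventually.of_forall fun u => ?_)
  show f (inS P u) = f (inS P (Set.projIcc 0 1 zero_le_one (u : ℝ)))
  rw [Set.projIcc_val]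

theorem xint_half : 1/2 - xd P = P.al / 2 := by
  unfold xd
  ring

theorem xint_q_in (x : ℝ) (hx : |x| ≤ xd P) (f : C(XM P, ℂ)) :
    f (xq P (x : UnitAddCircle)) = xint_h P f (exc P (x / (2 * xd P) + 1/2)) := by
  have h1 := xd_pos P
  have h2 := xd_lt P
  have hx1 := (abs_le.1 hx).1
  have hx2 := (abs_le.1 hx).2
  have hI : x ∈ Set.Icc (-(1/2) : ℝ) (1/2) := ⟨by linarith, by linarith⟩
  have e2 : x / (2 * xd P) + 1/2 = (x + xd P) / (2 * xd P) := by
    field_simp
  show f (xq P (x : UnitAddCircle)) = f (inS P (Set.projIcc 0 1 zero_le_one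
    (exc P (x / (2 * xd P) + 1/2))))
  congr 1
  refine Subtype.ext (Prod.ext ?_ ?_)
  · show pl (xd P) 0 (xd_pos P) (xd_lt P) (x : UnitAddCircle) = 0
    refine pl_collapse (xd P) (xd_pos P) (xd_lt P) _ ?_
    rw [norm_coe x hI]
    exact hx
  · show xe P (x : UnitAddCircle) = Set.projIcc 0 1 zero_le_one
      (exc P (x / (2 * xd P) + 1/2))
    rw [e2, ← xe_coe P x hI, Set.projIcc_val]

theorem xint_q_out (x : ℝ) (hx : xd P ≤ |x|) (hI : x ∈ Set.Icc (-(1/2) : ℝ) (1/2)) (y : ℝ)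
    (hy : Fpl (xd P) 0 x = y) : xq P (x : UnitAddCircle) = inC P (y : UnitAddCircle) := by
  refine Subtype.ext (Prod.ext ?_ ?_)
  · show pl (xd P) 0 (xd_pos P) (xd_lt P) (x : UnitAddCircle) = (y : UnitAddCircle)
    rw [pl_coe _ _ _ _ x hI, hy]
  · show xe P (x : UnitAddCircle) = P.be
    refine xe_out P _ ?_
    rw [norm_coe x hI]
    exact hx

/-- `q` preserves the measures.

Proof. `∫_T f(q z) = ∫_{-1/2}^{1/2}`, split at `±d`. For `|x| ≥ d`:
`q x = inC (± (|x| - d)/al)` (`Fpl d 0 x = ± (1/2)/(1/2 - d) (|x| - d)` and `1/2 - d = al/2`, `xe_out`),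
the substitution gives `al ∫_{-1/2}^0 + al ∫_0^{1/2} = al ∫_T f ∘ inC`. For `|x| ≤ d`:
`q x = inS (exc y)`, `y = (x + d)/(2d)`, `2 d = 1 - al`, so the integral is
`(1 - al) ∫_0^1 f (inS (exc y)) dy = (1 - al) ∫ f ∘ inS` by `integral_exc` (for the extension
`h u = f (inS (projIcc u))`). -/
theorem intL_xq (f : C(XM P, ℂ)) :
    intL (volume : Measure UnitAddCircle) (f.comp (xq P)) = intL (nuX P) f := by
  have h1 := xd_pos P
  have h2 := xd_lt P
  have hal := P.pos
  have hd := xint_half P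
  have hc : Continuous fun x : ℝ => f (xq P (x : UnitAddCircle)) :=
    f.continuous.comp ((xq P).continuous.comp (AddCircle.continuous_mk' (1:ℝ)))
  have hI : ∀ s t : ℝ, IntervalIntegrable (fun x : ℝ => f (xq P (x : UnitAddCircle)))
      volume s t := fun s t => hc.intervalIntegrable _ _
  have hcC : Continuous fun x : ℝ => f (inC P (x : UnitAddCircle)) :=
    f.continuous.comp ((inC P).continuous.comp (AddCircle.continuous_mk' (1:ℝ)))
  have hIC : ∀ s t : ℝ, IntervalIntegrable (fun x : ℝ => f (inC P (x : UnitAddCircle)))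
      volume s t := fun s t => hcC.intervalIntegrable _ _
  have hne : P.al ≠ 0 := hal.ne'
  have hq : (1/2 - 0) / (1/2 - xd P) = P.al⁻¹ := by
    rw [hd]
    field_simp
    ring
  have p1 : ∫ x in (-(1/2) : ℝ)..(-(xd P)), f (xq P (x : UnitAddCircle)) =
      P.al • ∫ x in (-(1/2) : ℝ)..0, f (inC P (x : UnitAddCircle)) := by
    have e0 : ∫ x in (-(1/2) : ℝ)..(-(xd P)), f (xq P (x : UnitAddCircle)) =
        ∫ x in (-(1/2) : ℝ)..(-(xd P)),
          f (inC P ((P.al⁻¹ * x + P.al⁻¹ * xd P : ℝ) : UnitAddCircle)) := by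
      refine intervalIntegral.integral_congr fun x hx => ?_
      rw [Set.uIcc_of_le (by linarith)] at hx
      have hx1 := hx.1
      have hx2 := hx.2
      show f (xq P (x : UnitAddCircle)) = _
      rw [xint_q_out P x (by rw [abs_of_nonpos (by linarith)]; linarith)
        ⟨hx1, by linarith⟩ (P.al⁻¹ * x + P.al⁻¹ * xd P) ?_]
      unfold Fpl
      rw [pl_clip_of_le _ x h1 hx2, hq]
      ring
    rw [e0, intervalIntegral.integral_comp_mul_add
      (fun x : ℝ => f (inC P (x : UnitAddCircle))) (inv_ne_zero hne) (P.al⁻¹ * xd P), inv_inv]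
    have e1 : P.al⁻¹ * -(1/2) + P.al⁻¹ * xd P = -(1/2) := by
      have : P.al⁻¹ * -(1/2) + P.al⁻¹ * xd P = -(P.al⁻¹ * (1/2 - xd P)) := by ring
      rw [this, hd]
      field_simp
    have e2 : P.al⁻¹ * -(xd P) + P.al⁻¹ * xd P = 0 := by ring
    rw [e1, e2]
  have p3 : ∫ x in (xd P)..(1/2), f (xq P (x : UnitAddCircle)) =
      P.al • ∫ x in (0 : ℝ)..(1/2), f (inC P (x : UnitAddCircle)) := by
    have e0 : ∫ x in (xd P)..(1/2), f (xq P (x : UnitAddCircle)) =
        ∫ x in (xd P)..(1/2),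
          f (inC P ((P.al⁻¹ * x + -(P.al⁻¹ * xd P) : ℝ) : UnitAddCircle)) := by
      refine intervalIntegral.integral_congr fun x hx => ?_
      rw [Set.uIcc_of_le (by linarith)] at hx
      have hx1 := hx.1
      have hx2 := hx.2
      show f (xq P (x : UnitAddCircle)) = _
      rw [xint_q_out P x (by rw [abs_of_nonneg (by linarith)]; linarith)
        ⟨by linarith, hx2⟩ (P.al⁻¹ * x + -(P.al⁻¹ * xd P)) ?_]
      unfold Fpl
      rw [pl_clip_of_ge _ x h1 hx1, hq]
      ring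
    rw [e0, intervalIntegral.integral_comp_mul_add
      (fun x : ℝ => f (inC P (x : UnitAddCircle))) (inv_ne_zero hne) (-(P.al⁻¹ * xd P)), inv_inv]
    have e1 : P.al⁻¹ * (1/2) + -(P.al⁻¹ * xd P) = 1/2 := by
      have : P.al⁻¹ * (1/2) + -(P.al⁻¹ * xd P) = P.al⁻¹ * (1/2 - xd P) := by ring
      rw [this, hd]
      field_simp
    have e2 : P.al⁻¹ * xd P + -(P.al⁻¹ * xd P) = 0 := by ring
    rw [e1, e2]
  have p2 : ∫ x in (-(xd P))..(xd P), f (xq P (x : UnitAddCircle)) =
      (1 - P.al) • ∫ u : unitInterval, f (inS P u) := by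
    have e0 : ∫ x in (-(xd P))..(xd P), f (xq P (x : UnitAddCircle)) =
        ∫ x in (-(xd P))..(xd P), xint_h P f (exc P ((2 * xd P)⁻¹ * x + 1/2)) := by
      refine intervalIntegral.integral_congr fun x hx => ?_
      rw [Set.uIcc_of_le (by linarith)] at hx
      show f (xq P (x : UnitAddCircle)) = _
      rw [xint_q_in P x (abs_le.2 hx) f]
      show xint_h P f (exc P (x / (2 * xd P) + 1/2)) =
        xint_h P f (exc P ((2 * xd P)⁻¹ * x + 1/2))
      rw [div_eq_inv_mul]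
    have hd0 : 2 * xd P ≠ 0 := by
      have : 0 < 2 * xd P := by linarith
      exact this.ne'
    rw [e0, intervalIntegral.integral_comp_mul_add
      (fun y : ℝ => xint_h P f (exc P y)) (inv_ne_zero hd0) (1/2), inv_inv]
    have e1 : (2 * xd P)⁻¹ * -(xd P) + 1/2 = 0 := by
      have := h1.ne'
      field_simp
      ring
    have e2 : (2 * xd P)⁻¹ * xd P + 1/2 = 1 := by
      have := h1.ne'
      field_simp
      ring
    have e3 : 2 * xd P = 1 - P.al := by
      unfold xd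
      ring
    rw [e1, e2, integral_exc, ← xint_seg, e3]
  rw [integral_nuX, intL_apply]
  have e4 : (∫ z, (f.comp (xq P)) z) = ∫ z : UnitAddCircle, f (xq P z) := rfl
  rw [e4, integral_circle (fun z => f (xq P z)), integral_circle (fun z => f (inC P z)),
    ← intervalIntegral.integral_add_adjacent_intervals (hI (-(1/2)) (-(xd P)))
      (hI (-(xd P)) (1/2)),
    ← intervalIntegral.integral_add_adjacent_intervals (hI (-(xd P)) (xd P)) (hI (xd P) (1/2)),
    ← intervalIntegral.integral_add_adjacent_intervals (hIC (-(1/2)) 0) (hIC 0 (1/2)),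
    p1, p2, p3]
  simp only [Complex.real_smul]
  ring

/-- `∫_0^1 g(b (4 ‖u - be - 1/4‖ - 1)) du = (1/(2b)) ∫_{-b}^b g`.

Proof. `u ↦ (u : ℝ/ℤ)` pushes Lebesgue measure of `[0,1]` to that of the circle
(`UnitAddCircle.intervalIntegral_preimage`), which is translation invariant, and
`∫_T h(‖y‖) dy = 2 ∫_0^{1/2} h(s) ds`; substitute `x = b (4 s - 1)`. -/
theorem integral_zigzag (g : C(UnitAddCircle, ℂ)) :
    ∫ u : unitInterval, g ((xb P * (4 * ‖((u : ℝ) : UnitAddCircle) -
      ((P.be : ℝ) : UnitAddCircle) - ((1/4 : ℝ) : UnitAddCircle)‖ - 1) : ℝ) : UnitAddCircle) =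
      ((1 / (2 * xb P) : ℝ) : ℂ) * ∫ x in (-(xb P))..(xb P), g (x : UnitAddCircle) := by
  have hb := xb_pos P
  obtain ⟨b, hbb⟩ : ∃ b : ℝ, b = xb P := ⟨_, rfl⟩
  rw [← hbb] at hb ⊢
  obtain ⟨Ps, hPs⟩ : ∃ Ps : C(UnitAddCircle, ℂ), ∀ z : UnitAddCircle,
      Ps z = g ((b * (4 * ‖z‖ - 1) : ℝ) : UnitAddCircle) :=
    ⟨⟨fun z => g ((b * (4 * ‖z‖ - 1) : ℝ) : UnitAddCircle),
      g.continuous.comp ((AddCircle.continuous_mk' (1:ℝ)).comp (by fun_prop))⟩, fun _ => rfl⟩
  obtain ⟨w, hw⟩ : ∃ w : UnitAddCircle,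
      w = ((P.be : ℝ) : UnitAddCircle) + ((1/4 : ℝ) : UnitAddCircle) := ⟨_, rfl⟩
  obtain ⟨Hh, hHh⟩ : ∃ Hh : C(ℝ, ℂ), ∀ x : ℝ, Hh x = Ps ((x : UnitAddCircle) - w) :=
    ⟨⟨fun x => Ps ((x : UnitAddCircle) - w),
      Ps.continuous.comp ((AddCircle.continuous_mk' (1:ℝ)).sub continuous_const)⟩, fun _ => rfl⟩
  have e1 : ∫ u : unitInterval, g ((b * (4 * ‖((u : ℝ) : UnitAddCircle) -
      ((P.be : ℝ) : UnitAddCircle) - ((1/4 : ℝ) : UnitAddCircle)‖ - 1) : ℝ) : UnitAddCircle) =
      ∫ u : unitInterval, Hh (u : ℝ) := by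
    refine integral_congr_ae (Filter.Eventually.of_forall fun u => ?_)
    show _ = Hh (u : ℝ)
    rw [hHh, hPs, hw, sub_add_eq_sub_sub]
  have e2 : ∫ u in (0:ℝ)..1, Hh u = ∫ z : UnitAddCircle, Ps (z - w) := by
    have h := UnitAddCircle.intervalIntegral_preimage (0 : ℝ) (fun z => Ps (z - w))
    rw [zero_add] at h
    rw [← h]
    refine intervalIntegral.integral_congr fun x _ => ?_
    exact hHh x
  have e3 : ∫ z : UnitAddCircle, Ps (z - w) = ∫ z : UnitAddCircle, Ps z :=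
    integral_sub_right_eq_self (fun z => Ps z) w
  have hcc : Continuous fun x : ℝ => Ps (x : UnitAddCircle) :=
    Ps.continuous.comp (AddCircle.continuous_mk' (1:ℝ))
  have hI : ∀ s t : ℝ, IntervalIntegrable (fun x : ℝ => Ps (x : UnitAddCircle))
      volume s t := fun s t => hcc.intervalIntegrable _ _
  have hb4 : (4 * b) ≠ 0 := by
    have : 0 < 4 * b := by linarith
    exact this.ne'
  have q1 : ∫ x in (-(1/2) : ℝ)..0, Ps (x : UnitAddCircle) =
      (4 * b)⁻¹ • ∫ x in (-b)..b, g (x : UnitAddCircle) := by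
    have e0 : ∫ x in (-(1/2) : ℝ)..0, Ps (x : UnitAddCircle) =
        ∫ x in (-(1/2) : ℝ)..0, g (((-(4 * b)) * x + (-b) : ℝ) : UnitAddCircle) := by
      refine intervalIntegral.integral_congr fun x hx => ?_
      rw [Set.uIcc_of_le (by norm_num)] at hx
      show Ps (x : UnitAddCircle) = _
      rw [hPs, norm_coe x ⟨hx.1, by linarith [hx.2]⟩, abs_of_nonpos hx.2]
      congr 2
      ring
    rw [e0, intervalIntegral.integral_comp_mul_add
      (fun x : ℝ => g (x : UnitAddCircle)) (neg_ne_zero.2 hb4) (-b)]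
    have e1 : -(4 * b) * -(1/2) + -b = b := by ring
    have e2 : -(4 * b) * 0 + -b = -b := by ring
    rw [e1, e2, intervalIntegral.integral_symm (-b) b, inv_neg, neg_smul_neg]
  have q2 : ∫ x in (0 : ℝ)..(1/2), Ps (x : UnitAddCircle) =
      (4 * b)⁻¹ • ∫ x in (-b)..b, g (x : UnitAddCircle) := by
    have e0 : ∫ x in (0 : ℝ)..(1/2), Ps (x : UnitAddCircle) =
        ∫ x in (0 : ℝ)..(1/2), g (((4 * b) * x + (-b) : ℝ) : UnitAddCircle) := by
      refine intervalIntegral.integral_congr fun x hx => ?_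
      rw [Set.uIcc_of_le (by norm_num)] at hx
      show Ps (x : UnitAddCircle) = _
      rw [hPs, norm_coe x ⟨by linarith [hx.1], hx.2⟩, abs_of_nonneg hx.1]
      congr 2
      ring
    rw [e0, intervalIntegral.integral_comp_mul_add
      (fun x : ℝ => g (x : UnitAddCircle)) hb4 (-b)]
    have e1 : (4 * b) * 0 + -b = -b := by ring
    have e2 : (4 * b) * (1/2) + -b = b := by ring
    rw [e1, e2]
  rw [e1, xint_unit, e2, e3, integral_circle (fun z => Ps z),
    ← intervalIntegral.integral_add_adjacent_intervals (hI (-(1/2)) 0) (hI 0 (1/2)), q1, q2,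
    ← add_smul, Complex.real_smul]
  congr 2
  field_simp
  ring

/-- `p` preserves the measures.

Proof. `integral_nuX`, `xp_inC`, `xp_inS`, `integral_pl` with `a = 1/4`, `b = xb`
(`(1/2 - a)/(1/2 - b) = 1/al`), `integral_zigzag`: the coefficient of `∫_{-b}^b g` is
`al (1/4)/b + (1 - al)/(2 b) = (1 - al/2)/(2 b) = 1`, that of the outer integrals is `al/al = 1`. -/
theorem intL_xp (g : C(UnitAddCircle, ℂ)) :
    intL (nuX P) (g.comp (xp P)) = intL (volume : Measure UnitAddCircle) g := by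
  have hb := xb_pos P
  have hal := P.pos
  have hl := P.lt1
  have hI : ∀ s t : ℝ, IntervalIntegrable (fun x : ℝ => g (x : UnitAddCircle))
      volume s t := fun s t =>
    (g.continuous.comp (AddCircle.continuous_mk' (1:ℝ))).intervalIntegrable _ _
  have e1 : ∫ x : UnitAddCircle, (g.comp (xp P)) (inC P x) =
      ∫ x : UnitAddCircle, g (pl (1/4) (xb P) (by norm_num) (by norm_num) x) := by
    refine integral_congr_ae (Filter.Eventually.of_forall fun x => ?_)
    show g (xp P (inC P x)) = _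
    rw [xp_inC]
  have e2 : ∫ u : unitInterval, (g.comp (xp P)) (inS P u) =
      ∫ u : unitInterval, g ((xb P * (4 * ‖((u : ℝ) : UnitAddCircle) -
        ((P.be : ℝ) : UnitAddCircle) - ((1/4 : ℝ) : UnitAddCircle)‖ - 1) : ℝ) :
          UnitAddCircle) := by
    refine integral_congr_ae (Filter.Eventually.of_forall fun u => ?_)
    show g (xp P (inS P u)) = _
    rw [xp_inS]
  rw [integral_nuX, e1, e2, integral_pl (1/4) (xb P) (by norm_num) (by norm_num) hb (xb_lt P) g,
    integral_zigzag P g, intL_apply, integral_circle (fun z => g z),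
    ← intervalIntegral.integral_add_adjacent_intervals (hI (-(1/2)) (-(xb P)))
      (hI (-(xb P)) (1/2)),
    ← intervalIntegral.integral_add_adjacent_intervals (hI (-(xb P)) (xb P)) (hI (xb P) (1/2))]
  have c1 : (P.al : ℂ) * (((1/4) / xb P : ℝ) : ℂ) +
      ((1 - P.al : ℝ) : ℂ) * ((1 / (2 * xb P) : ℝ) : ℂ) = 1 := by
    rw [← Complex.ofReal_mul, ← Complex.ofReal_mul, ← Complex.ofReal_add]
    have : P.al * ((1/4) / xb P) + (1 - P.al) * (1 / (2 * xb P)) = 1 := by
      have h4 : xb P = (2 - P.al) / 4 := by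
        unfold xb
        ring
      have h5 : (2 - P.al) ≠ 0 := by
        have : 0 < 2 - P.al := by linarith
        exact this.ne'
      rw [h4]
      field_simp
      ring
    rw [this, Complex.ofReal_one]
  have c2 : (P.al : ℂ) * (((1/2 - 1/4) / (1/2 - xb P) : ℝ) : ℂ) = 1 := by
    rw [← Complex.ofReal_mul]
    have : P.al * ((1/2 - 1/4) / (1/2 - xb P)) = 1 := by
      have h4 : 1/2 - xb P = P.al / 4 := by
        unfold xb
        ring
      rw [h4]
      have := hal.ne'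
      field_simp
      ring
    rw [this, Complex.ofReal_one]
  obtain ⟨X, hX⟩ : ∃ X : ℂ, X = ∫ x in (-(xb P))..(xb P), g (x : UnitAddCircle) := ⟨_, rfl⟩
  obtain ⟨Y, hY⟩ : ∃ Y : ℂ, Y = ∫ x in (-(1/2) : ℝ)..(-(xb P)), g (x : UnitAddCircle) := ⟨_, rfl⟩
  obtain ⟨Z, hZ⟩ : ∃ Z : ℂ, Z = ∫ x in (xb P)..(1/2), g (x : UnitAddCircle) := ⟨_, rfl⟩
  rw [← hX, ← hY, ← hZ]
  have : (P.al : ℂ) * ((((1/4) / xb P : ℝ) : ℂ) * X +
      (((1/2 - 1/4) / (1/2 - xb P) : ℝ) : ℂ) * (Y + Z)) +
      ((1 - P.al : ℝ) : ℂ) * (((1 / (2 * xb P) : ℝ) : ℂ) * X) =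
      ((P.al : ℂ) * (((1/4) / xb P : ℝ) : ℂ) +
        ((1 - P.al : ℝ) : ℂ) * ((1 / (2 * xb P) : ℝ) : ℂ)) * X +
      ((P.al : ℂ) * (((1/2 - 1/4) / (1/2 - xb P) : ℝ) : ℂ)) * (Y + Z) := by ring
  rw [this, c1, c2]
  ring

end H7b
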