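import Pool.Agent.H.MP_7b4a29_an.XExc

/-!
# The maps between the circle and the circle with a segment

Abbreviations: `a = 1/4`, `b = 1/2 - al/4`, `d = (1 - al)/2`.
-/

open MeasureTheory

namespace H7b

open H47

variable (P : XP)

noncomputable def xb : ℝ := 1/2 - P.al / 4
noncomputable def xd : ℝ := (1 - P.al) / 2

theorem xb_pos : 0 < xb P := by
  have := P.lt1
  unfold xb
  linarith

theorem xb_lt : xb P < 1/2 := by
  have := P.pos
  unfold xb
  linarith

theorem xd_pos : 0 < xd P := by
  have := P.lt1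
  unfold xd
  linarith

theorem xd_lt : xd P < 1/2 := by
  have := P.pos
  unfold xd
  linarith

/-- The second coordinate of the map `q`. Continuity: `AddCircle.liftIco_continuous`, `exc_out`. -/
noncomputable def xe : C(UnitAddCircle, unitInterval) where
  toFun := AddCircle.liftIco (1 : ℝ) (-(1/2))
    (fun x => (⟨exc P ((x + xd P) / (2 * xd P)), exc_mem P _⟩ : unitInterval))
  continuous_toFun := by
    refine AddCircle.liftIco_continuous ?_ ?_
    · refine Subtype.ext ?_
      show exc P ((-(1/2) + xd P) / (2 * xd P)) = exc P ((-(1/2) + 1 + xd P) / (2 * xd P))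
      have h1 := xd_pos P
      have h2 := xd_lt P
      rw [exc_out P _ (Or.inl ?_), exc_out P _ (Or.inr ?_)]
      · rw [le_div_iff₀ (by linarith)]
        linarith
      · exact div_nonpos_of_nonpos_of_nonneg (by linarith) (by linarith)
    · refine Continuous.continuousOn ?_
      refine Continuous.subtype_mk ?_ _
      unfold exc
      fun_prop

theorem xe_coe (x : ℝ) (hx : x ∈ Set.Icc (-(1/2) : ℝ) (1/2)) :
    ((xe P (x : UnitAddCircle) : unitInterval) : ℝ) = exc P ((x + xd P) / (2 * xd P)) := by
  have h1 := xd_pos P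
  have h2 := xd_lt P
  rcases lt_or_eq_of_le hx.2 with h | h
  · have e : (xe P (x : UnitAddCircle) : unitInterval)
        = (⟨exc P ((x + xd P) / (2 * xd P)), exc_mem P _⟩ : unitInterval) := by
      show AddCircle.liftIco (1 : ℝ) (-(1/2))
        (fun x => (⟨exc P ((x + xd P) / (2 * xd P)), exc_mem P _⟩ : unitInterval))
        (x : UnitAddCircle) = _
      exact AddCircle.liftIco_coe_apply ⟨hx.1, by linarith⟩
    rw [e]
  · have e0 : ((x : ℝ) : UnitAddCircle) = ((-(1/2) : ℝ) : UnitAddCircle) := by
      rw [h]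
      have e1 : ((1/2 : ℝ) : UnitAddCircle) = ((-(1/2) + 1 : ℝ) : UnitAddCircle) := by
        norm_num
      rw [e1, AddCircle.coe_add_period]
    have e : (xe P ((-(1/2) : ℝ) : UnitAddCircle) : unitInterval)
        = (⟨exc P ((-(1/2) + xd P) / (2 * xd P)), exc_mem P _⟩ : unitInterval) := by
      show AddCircle.liftIco (1 : ℝ) (-(1/2))
        (fun x => (⟨exc P ((x + xd P) / (2 * xd P)), exc_mem P _⟩ : unitInterval))
        ((-(1/2) : ℝ) : UnitAddCircle) = _
      exact AddCircle.liftIco_coe_apply ⟨le_refl _, by linarith⟩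
    rw [e0, e, h]
    show exc P ((-(1/2) + xd P) / (2 * xd P)) = exc P ((1/2 + xd P) / (2 * xd P))
    rw [exc_out P _ (Or.inl ?_), exc_out P _ (Or.inr ?_)]
    · rw [le_div_iff₀ (by linarith)]
      linarith
    · exact div_nonpos_of_nonpos_of_nonneg (by linarith) (by linarith)

/-- `xe = be` for `‖z‖ ≥ d`. -/
theorem xe_out (z : UnitAddCircle) (hz : xd P ≤ ‖z‖) : xe P z = P.be := by
  have h1 := xd_pos P
  have h2 := xd_lt P
  obtain ⟨x, hx, rfl⟩ := exists_rep z
  rw [norm_coe x hx] at hz
  refine Subtype.ext ?_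
  rw [xe_coe P x hx]
  refine exc_out P _ ?_
  rcases le_abs'.1 hz with h | h
  · left
    exact div_nonpos_of_nonpos_of_nonneg (by linarith) (by linarith)
  · right
    rw [le_div_iff₀ (by linarith)]
    linarith

/-- The map `q` from the circle to the model. It is in the model: for `‖z‖ ≤ d` the first coordinate
is `0`, for `‖z‖ ≥ d` the second one is `be`. -/
noncomputable def xq : C(UnitAddCircle, XM P) where
  toFun z := ⟨(pl (xd P) 0 (xd_pos P) (xd_lt P) z, xe P z), by
    rcases le_total ‖z‖ (xd P) with h | h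
    · exact Or.inl (pl_collapse (xd P) (xd_pos P) (xd_lt P) z h)
    · exact Or.inr (xe_out P z h)⟩
  continuous_toFun := by
    refine Continuous.subtype_mk ?_ _
    exact (pl (xd P) 0 (xd_pos P) (xd_lt P)).continuous.prodMk (xe P).continuous

/-- The map `p` from the model to the circle. -/
noncomputable def xp : C(XM P, UnitAddCircle) where
  toFun z := pl (1/4) (xb P) (by norm_num) (by norm_num) z.1.1 +
    ((xb P * (4 * ‖((z.1.2 : ℝ) : UnitAddCircle) - ((P.be : ℝ) : UnitAddCircle) -
      ((1/4 : ℝ) : UnitAddCircle)‖ - 1) : ℝ) : UnitAddCircle)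
  continuous_toFun := by
    have h1 : Continuous fun z : XM P => z.1.1 := continuous_fst.comp continuous_subtype_val
    have h2 : Continuous fun z : XM P => ((z.1.2 : unitInterval) : ℝ) :=
      continuous_subtype_val.comp (continuous_snd.comp continuous_subtype_val)
    have h3 : Continuous fun z : XM P => (((z.1.2 : unitInterval) : ℝ) : UnitAddCircle) :=
      (AddCircle.continuous_mk' (1 : ℝ)).comp h2
    refine ((pl (1/4) (xb P) (by norm_num) (by norm_num)).continuous.comp h1).add ?_
    refine (AddCircle.continuous_mk' (1 : ℝ)).comp ?_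
    exact continuous_const.mul
      (((continuous_const.mul ((h3.sub continuous_const).sub continuous_const).norm)).sub
        continuous_const)

theorem xp_inC (x : UnitAddCircle) :
    xp P (inC P x) = pl (1/4) (xb P) (by norm_num) (by norm_num) x := by
  have e : ‖(((P.be : ℝ) : UnitAddCircle) - ((P.be : ℝ) : UnitAddCircle) -
      ((1/4 : ℝ) : UnitAddCircle))‖ = 1/4 := by
    rw [sub_self, zero_sub, norm_neg, norm_coe (1/4) ⟨by norm_num, by norm_num⟩]
    norm_num
  show pl (1/4) (xb P) (by norm_num) (by norm_num) x +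
    ((xb P * (4 * ‖((P.be : ℝ) : UnitAddCircle) - ((P.be : ℝ) : UnitAddCircle) -
      ((1/4 : ℝ) : UnitAddCircle)‖ - 1) : ℝ) : UnitAddCircle) = _
  rw [e]
  norm_num

theorem xp_inS (u : unitInterval) :
    xp P (inS P u) = ((xb P * (4 * ‖((u : ℝ) : UnitAddCircle) - ((P.be : ℝ) : UnitAddCircle) -
      ((1/4 : ℝ) : UnitAddCircle)‖ - 1) : ℝ) : UnitAddCircle) := by
  show pl (1/4) (xb P) (by norm_num) (by norm_num) 0 +
    ((xb P * (4 * ‖((u : ℝ) : UnitAddCircle) - ((P.be : ℝ) : UnitAddCircle) -
      ((1/4 : ℝ) : UnitAddCircle)‖ - 1) : ℝ) : UnitAddCircle) = _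
  rw [pl_zero, zero_add]

end H7b
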