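import Pool.Agent.H.MP_7b4a29_an.ZTwo

/-!
# Integrals over triangles
-/

open MeasureTheory

namespace H7b

open H47

theorem zinta_rh (x : ℝ) (h1 : 1/8 ≤ x) (h2 : x ≤ 1/4) : rh x = Real.sqrt (8 * x - 1) := by
  rw [rh, min_eq_right (by linarith), max_eq_right (by linarith)]

theorem zinta_int_unit (g : ℝ → ℂ) :
    ∫ x : unitInterval, g (x : ℝ) = ∫ x in (0:ℝ)..1, g x := by
  rw [intervalIntegral.integral_of_le zero_le_one, ← integral_Icc_eq_integral_Ioc]
  exact integral_subtype_comap (μ := (volume : Measure ℝ)) (s := Set.Icc (0 : ℝ) 1)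
    measurableSet_Icc g

/-- The Hilbert curve preserves the measures. -/
theorem zinta_hil (G : ℝ × ℝ → ℂ) (hG : Continuous G) :
    ∫ s in (0:ℝ)..1, G (((hil (Set.projIcc 0 1 zero_le_one s)).1 : ℝ),
      ((hil (Set.projIcc 0 1 zero_le_one s)).2 : ℝ)) =
      ∫ v in (0:ℝ)..1, ∫ u in (0:ℝ)..1, G (u, v) := by
  rw [← zinta_int_unit (fun s => G (((hil (Set.projIcc 0 1 zero_le_one s)).1 : ℝ),
      ((hil (Set.projIcc 0 1 zero_le_one s)).2 : ℝ))),
    ← zinta_int_unit (fun v => ∫ u in (0:ℝ)..1, G (u, v))]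
  let H : C(unitInterval × unitInterval, ℂ) := ⟨fun w => G ((w.1 : ℝ), (w.2 : ℝ)), by fun_prop⟩
  have : IsProbabilityMeasure (volume : Measure (unitInterval × unitInterval)) :=
    inferInstanceAs (IsProbabilityMeasure
      ((volume : Measure unitInterval).prod (volume : Measure unitInterval)))
  have h1 := intL_comp (volume : Measure unitInterval)
    (volume : Measure (unitInterval × unitInterval)) hil hil_mp H
  rw [intL_apply, intL_apply] at h1
  have h2 : (∫ w : unitInterval × unitInterval, H w) =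
      ∫ v : unitInterval, ∫ u : unitInterval, H (u, v) :=
    integral_prod_symm (μ := (volume : Measure unitInterval)) (ν := (volume : Measure unitInterval))
      (fun w => H w) (BoundedContinuousFunction.integrable
        (volume : Measure (unitInterval × unitInterval)) (BoundedContinuousFunction.mkOfCompact H))
  refine Eq.trans ?_ (h1.trans (h2.trans ?_))
  · refine integral_congr_ae (Filter.Eventually.of_forall fun s => ?_)
    show G (((hil (Set.projIcc 0 1 zero_le_one (s : ℝ))).1 : ℝ),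
      ((hil (Set.projIcc 0 1 zero_le_one (s : ℝ))).2 : ℝ)) = H (hil s)
    rw [Set.projIcc_val]
    rfl
  · refine integral_congr_ae (Filter.Eventually.of_forall fun v => ?_)
    show (∫ u : unitInterval, G ((u : ℝ), (v : ℝ))) = ∫ u in (0:ℝ)..1, G (u, (v : ℝ))
    exact zinta_int_unit (fun u => G (u, (v : ℝ)))

/-- The right triangle `{0 ≤ y ≤ 1/4, 0 ≤ τ ≤ 4 y}`:
`∫_{1/8}^{1/4} ∫_0^1 g(rh(x)/4, rh(x) t) dt dx = ∫_0^{1/4} ∫_0^{4y} g(y, τ) dτ dy`.

Proof. For fixed `x`, `τ = rh(x) t`: `∫_0^1 g(rh x/4, rh x t) dt = (rh x)⁻¹ ∫_0^{rh x} g(rh x/4, τ) dτ`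
(for `rh x > 0`). Put `y = rh(x)/4`, `16 y² = 8 x - 1`, `dx = 4 y dy`, `rh x = 4 y`. -/
theorem int_triangle (g : C(ℝ × ℝ, ℂ)) :
    ∫ x in (1/8 : ℝ)..(1/4), ∫ t in (0:ℝ)..1, g (rh x / 4, rh x * t) =
      ∫ y in (0:ℝ)..(1/4), ∫ τ in (0:ℝ)..(4 * y), g (y, τ) := by
  have key : ∀ y ∈ Set.Icc (0:ℝ) (1/4), rh ((1 + 16 * y^2)/8) = 4 * y := by
    intro y hy
    rw [zinta_rh _ (by nlinarith [hy.1, hy.2]) (by nlinarith [hy.1, hy.2])]
    have : 8 * ((1 + 16 * y^2)/8) - 1 = (4*y)^2 := by ring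
    rw [this, Real.sqrt_sq (by linarith [hy.1])]
  have hcont : Continuous (fun x : ℝ => ∫ t in (0:ℝ)..1, g (rh x / 4, rh x * t)) := by
    apply intervalIntegral.continuous_parametric_intervalIntegral_of_continuous'
    exact g.continuous.comp ((((rh_continuous.comp continuous_fst).div_const 4)).prodMk
      ((rh_continuous.comp continuous_fst).mul continuous_snd))
  have hsub := intervalIntegral.integral_deriv_smul_comp (a := (0:ℝ)) (b := 1/4)
    (f := fun y : ℝ => (1 + 16 * y^2)/8) (f' := fun y : ℝ => 4 * y)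
    (g := fun x : ℝ => ∫ t in (0:ℝ)..1, g (rh x / 4, rh x * t))
    (by
      intro y _
      have h1 : HasDerivAt (fun y : ℝ => y^2) (2 * y) y := by simpa using hasDerivAt_pow 2 y
      have h2 := ((h1.const_mul 16).const_add 1).div_const 8
      have h3 : (4 * y : ℝ) = 16 * (2 * y) / 8 := by ring
      rw [h3]
      exact h2)
    (by fun_prop) hcont
  have e1 : (1 + 16 * (0:ℝ)^2)/8 = 1/8 := by norm_num
  have e2 : (1 + 16 * (1/4 : ℝ)^2)/8 = 1/4 := by norm_num
  simp only [e1, e2] at hsub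
  rw [← hsub]
  apply intervalIntegral.integral_congr
  intro y hy
  rw [Set.uIcc_of_le (by norm_num)] at hy
  simp only [Function.comp_apply, key y hy]
  have h4 : (4 * y / 4 : ℝ) = y := by ring
  rw [h4]
  have h5 := intervalIntegral.smul_integral_comp_mul_left (fun τ => g (y, τ)) (4 * y)
    (a := (0:ℝ)) (b := 1)
  rw [mul_zero, mul_one] at h5
  exact h5

/-- The inverted triangle `{|y| ≤ τ/4}`:
`∫_{-1/8}^{1/8} g(A(x), B(x)) dx = ∫_0^1 ∫_{-τ/4}^{τ/4} g(y, τ) dy dτ`.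

Proof. `x = -1/8 + s/4`, the Hilbert curve preserves the measures:
`= (1/4) ∫_0^1 ∫_0^1 g((1/4)(2u - 1)√v, √v) du dv`; `τ = √v`, `dv = 2 τ dτ`, and
`y = (τ/4)(2u - 1)`, `dy = (τ/2) du`. -/
theorem int_inverted (g : C(ℝ × ℝ, ℂ)) :
    ∫ x in (-(1/8) : ℝ)..(1/8), g (alift x, blift x) =
      ∫ τ in (0:ℝ)..1, ∫ y in (-(τ / 4))..(τ / 4), g (y, τ) := by
  have hGc : Continuous (fun w : ℝ × ℝ =>
      g ((1/4) * (2 * w.1 - 1) * Real.sqrt w.2, Real.sqrt w.2)) := by
    apply g.continuous.comp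
    fun_prop
  have h1 := zinta_hil _ hGc
  have h2 : (∫ x in (-(1/8) : ℝ)..(1/8), g (alift x, blift x)) =
      (1/4 : ℝ) • ∫ s in (0:ℝ)..1, g ((1/4) * (2 * ((hil (Set.projIcc 0 1 zero_le_one s)).1 : ℝ) - 1) *
        Real.sqrt ((hil (Set.projIcc 0 1 zero_le_one s)).2 : ℝ),
        Real.sqrt ((hil (Set.projIcc 0 1 zero_le_one s)).2 : ℝ)) := by
    have h3 := intervalIntegral.smul_integral_comp_mul_add
      (fun s : ℝ => g ((1/4) * (2 * ((hil (Set.projIcc 0 1 zero_le_one s)).1 : ℝ) - 1) *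
        Real.sqrt ((hil (Set.projIcc 0 1 zero_le_one s)).2 : ℝ),
        Real.sqrt ((hil (Set.projIcc 0 1 zero_le_one s)).2 : ℝ))) (4 : ℝ) (1/2)
      (a := -(1/8)) (b := 1/8)
    have e1 : (4 : ℝ) * -(1/8) + 1/2 = 0 := by norm_num
    have e2 : (4 : ℝ) * (1/8) + 1/2 = 1 := by norm_num
    rw [e1, e2] at h3
    rw [← h3, smul_smul]
    have e4 : (1/4 : ℝ) * 4 = 1 := by norm_num
    rw [e4, one_smul]
    apply intervalIntegral.integral_congr
    intro x _
    have e3 : 4 * (x + 1/8) = 4 * x + 1/2 := by ring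
    simp only [alift, blift, spar2, e3]
  rw [h2, h1]
  have h5 : ∀ τ : ℝ, (∫ y in (-(τ / 4))..(τ / 4), g (y, τ)) =
      (τ / 2) • ∫ u in (0:ℝ)..1, g ((1/4) * (2 * u - 1) * τ, τ) := by
    intro τ
    have h6 := intervalIntegral.smul_integral_comp_mul_add (fun y : ℝ => g (y, τ)) (τ / 2)
      (-(τ / 4)) (a := 0) (b := 1)
    have e1 : τ / 2 * 0 + -(τ / 4) = -(τ / 4) := by ring
    have e2 : τ / 2 * 1 + -(τ / 4) = τ / 4 := by ring
    rw [e1, e2] at h6
    rw [← h6]
    congr 1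
    apply intervalIntegral.integral_congr
    intro u _
    have e3 : τ / 2 * u + -(τ / 4) = (1/4) * (2 * u - 1) * τ := by ring
    simp only [e3]
  have hHc : Continuous (fun v : ℝ => ∫ u in (0:ℝ)..1,
      g ((1/4) * (2 * u - 1) * Real.sqrt v, Real.sqrt v)) := by
    apply intervalIntegral.continuous_parametric_intervalIntegral_of_continuous'
    apply g.continuous.comp
    fun_prop
  have hsub := intervalIntegral.integral_deriv_smul_comp (a := (0:ℝ)) (b := 1)
    (f := fun τ : ℝ => τ^2) (f' := fun τ : ℝ => 2 * τ)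
    (g := fun v : ℝ => ∫ u in (0:ℝ)..1, g ((1/4) * (2 * u - 1) * Real.sqrt v, Real.sqrt v))
    (by
      intro y _
      simpa using hasDerivAt_pow 2 y)
    (by fun_prop) hHc
  have e1 : (0:ℝ)^2 = 0 := by norm_num
  have e2 : (1:ℝ)^2 = 1 := by norm_num
  simp only [e1, e2] at hsub
  rw [← hsub, ← intervalIntegral.integral_smul]
  apply intervalIntegral.integral_congr
  intro τ hτ
  rw [Set.uIcc_of_le zero_le_one] at hτ
  simp only [Function.comp_apply]
  rw [h5 τ, Real.sqrt_sq hτ.1, smul_smul]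
  congr 1
  ring

end H7b
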