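import Pool.Agent.H.MP_7b4a29_an.PL
import Pool.Agent.H.MP_7b4a29_an.Gen

/-!
# The pinched annulus

`rho` is `0` for `‖x‖ ≤ 1/8`, `1` for `‖x‖ ≥ 1/4`, and `√(8 ‖x‖ - 1)` in between. The space
`ZM = {(x, t) ∈ ℝ/ℤ × [0,1] : t ≤ rho x}` is an annulus pinched to an arc over `‖x‖ ≤ 1/8`, with the
image measure under `(x, t) ↦ (x, rho(x) t)`.
-/

open MeasureTheory

namespace H7b

open H47

instance instProbProd : IsProbabilityMeasure (volume : Measure (UnitAddCircle × unitInterval)) := by
  exact inferInstanceAs (IsProbabilityMeasure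
    ((volume : Measure UnitAddCircle).prod (volume : Measure unitInterval)))

instance instOpenPosI : (volume : Measure unitInterval).IsOpenPosMeasure := by
  refine ⟨fun U hU hne => ?_⟩
  obtain ⟨V, hV, rfl⟩ := isOpen_induced_iff.1 hU
  obtain ⟨x, hx⟩ := hne
  have hcl : (x : ℝ) ∈ closure (Set.Ioo (0:ℝ) 1) := by
    rw [closure_Ioo (zero_ne_one)]
    exact x.2
  obtain ⟨y, hyV, hy⟩ := mem_closure_iff.1 hcl V hV hx
  have hopen : IsOpen (V ∩ Set.Ioo (0:ℝ) 1) := hV.inter isOpen_Ioo
  have hpos : volume (V ∩ Set.Ioo (0:ℝ) 1) ≠ 0 := (hopen.measure_pos volume ⟨y, hyV, hy⟩).ne'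
  intro h0
  apply hpos
  rw [unitInterval.volume_apply] at h0
  refine measure_mono_null ?_ h0
  rintro z ⟨hzV, hz⟩
  exact ⟨⟨z, hz.1.le, hz.2.le⟩, hzV, rfl⟩

instance instOpenPosProd :
    (volume : Measure (UnitAddCircle × unitInterval)).IsOpenPosMeasure := by
  exact inferInstanceAs (Measure.IsOpenPosMeasure
    ((volume : Measure UnitAddCircle).prod (volume : Measure unitInterval)))

/-- The function `√(clip(8 y - 1))`, with the clipping to `[0,1]`. -/
noncomputable def rh (y : ℝ) : ℝ := Real.sqrt (max 0 (min 1 (8 * y - 1)))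

theorem rh_continuous : Continuous rh := by
  unfold rh
  fun_prop

theorem rh_mem (y : ℝ) : rh y ∈ Set.Icc (0:ℝ) 1 := by
  refine ⟨Real.sqrt_nonneg _, ?_⟩
  have h1 : max 0 (min 1 (8 * y - 1)) ≤ 1 := max_le zero_le_one (min_le_left _ _)
  exact (Real.sqrt_le_sqrt h1).trans Real.sqrt_one.le

theorem rh_low (y : ℝ) (hy : y ≤ 1/8) : rh y = 0 := by
  have h1 : min 1 (8 * y - 1) ≤ 0 := (min_le_right _ _).trans (by linarith)
  rw [rh, max_eq_left h1, Real.sqrt_zero]

theorem rh_high (y : ℝ) (hy : 1/4 ≤ y) : rh y = 1 := by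
  have h1 : (1 : ℝ) ≤ 8 * y - 1 := by linarith
  rw [rh, min_eq_left h1, max_eq_right zero_le_one, Real.sqrt_one]

noncomputable def rho : C(UnitAddCircle, unitInterval) where
  toFun x := ⟨rh ‖x‖, rh_mem _⟩
  continuous_toFun := by
    exact (rh_continuous.comp continuous_norm).subtype_mk _

/-- The pinched annulus. -/
def ZM : Set (UnitAddCircle × unitInterval) := {z | z.2 ≤ rho z.1}

theorem isClosed_ZM : IsClosed ZM := by
  exact isClosed_le continuous_snd (rho.continuous.comp continuous_fst)

instance instCompactZM : CompactSpace ZM := isCompact_iff_compactSpace.mp isClosed_ZM.isCompact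

/-- The map `(x, t) ↦ (x, rho(x) t)`. -/
noncomputable def zp : C(UnitAddCircle × unitInterval, ZM) where
  toFun z := ⟨(z.1, rho z.1 * z.2), by
    exact unitInterval.mul_le_left⟩
  continuous_toFun := by
    exact (continuous_fst.prodMk ((rho.continuous.comp continuous_fst).mul
      continuous_snd)).subtype_mk _

/-- It is onto: `t ≤ rho x`, so `t = rho x * (t / rho x)`. -/
theorem zp_surjective : Function.Surjective zp := by
  rintro ⟨⟨x, t⟩, h⟩
  have h' : (t : ℝ) ≤ (rho x : ℝ) := h
  rcases eq_or_lt_of_le (unitInterval.nonneg (rho x)) with h0 | h0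
  · refine ⟨(x, 0), ?_⟩
    have ht : t = 0 := by
      apply le_antisymm _ (unitInterval.nonneg' )
      show (t : ℝ) ≤ 0
      rw [h0]
      exact h'
    apply Subtype.ext
    show (x, rho x * 0) = (x, t)
    rw [mul_zero, ht]
  · refine ⟨(x, ⟨(t : ℝ) / (rho x : ℝ), div_nonneg (unitInterval.nonneg t) h0.le,
      (div_le_one h0).2 h'⟩), ?_⟩
    apply Subtype.ext
    refine Prod.ext rfl (Subtype.ext ?_)
    show (rho x : ℝ) * ((t : ℝ) / (rho x : ℝ)) = (t : ℝ)
    exact mul_div_cancel₀ _ h0.ne'

/-- The measure. -/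
noncomputable def nuZ : Measure ZM := (volume : Measure (UnitAddCircle × unitInterval)).map zp

instance instProbZ : IsProbabilityMeasure nuZ := by
  exact Measure.isProbabilityMeasure_map zp.continuous.measurable.aemeasurable

/-- Preimages of nonempty open sets under the continuous surjection `zp` are nonempty and open. -/
instance instOpenPosZ : nuZ.IsOpenPosMeasure := by
  exact zp.continuous.isOpenPosMeasure_map zp_surjective

theorem intL_nuZ (f : C(ZM, ℂ)) :
    intL nuZ f = intL (volume : Measure (UnitAddCircle × unitInterval)) (f.comp zp) := by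
  exact (intL_comp (volume : Measure (UnitAddCircle × unitInterval)) nuZ zp
    ⟨zp.continuous.measurable, rfl⟩ f).symm

/-- The projection of the pinched annulus to the circle. -/
def zfst : C(ZM, UnitAddCircle) where
  toFun z := z.1.1
  continuous_toFun := by fun_prop

theorem intL_zfst (g : C(UnitAddCircle, ℂ)) :
    intL nuZ (g.comp zfst) = intL (volume : Measure UnitAddCircle) g := by
  rw [intL_nuZ]
  exact intL_comp (volume : Measure (UnitAddCircle × unitInterval))
    (volume : Measure UnitAddCircle) ⟨Prod.fst, continuous_fst⟩ measurePreserving_fst g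

theorem zmod_mem (x : UnitAddCircle) (t : unitInterval) : (x, min t (rho x)) ∈ ZM :=
  show min t (rho x) ≤ rho x from min_le_right _ _

/-- Homotopies of the circle of the form `plh` lift to the pinched annulus:
`(s, (x, t)) ↦ (plh (s, x), min ((1 - s) t) (rho (plh (s, x))))`. -/
theorem exists_hZ (a b : ℝ) (ha : 0 < a) (ha' : a < 1/2) :
    ∃ c : C(unitInterval × ZM, ZM), (∀ z, c (0, z) = z) ∧
      ∀ z w, pl a b ha ha' (zfst z) = pl a b ha ha' (zfst w) → c (1, z) = c (1, w) := by
  refine ⟨⟨fun w => ⟨(plh a b ha ha' (w.1, w.2.1.1),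
    min (unitInterval.symm w.1 * w.2.1.2) (rho (plh a b ha ha' (w.1, w.2.1.1)))),
    zmod_mem _ _⟩, ?_⟩, ?_, ?_⟩
  · have h1 : Continuous fun w : unitInterval × ZM => plh a b ha ha' (w.1, w.2.1.1) := by fun_prop
    have h2 : Continuous fun w : unitInterval × ZM => unitInterval.symm w.1 * w.2.1.2 :=
      (unitInterval.continuous_symm.comp continuous_fst).mul (by fun_prop)
    exact (h1.prodMk (h2.min (rho.continuous.comp h1))).subtype_mk _
  · rintro ⟨⟨x, t⟩, h⟩
    have h' : t ≤ rho x := h
    apply Subtype.ext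
    show (plh a b ha ha' (0, x), min (unitInterval.symm 0 * t) (rho (plh a b ha ha' (0, x)))) =
      (x, t)
    rw [plh_zero, unitInterval.symm_zero, one_mul, min_eq_left h']
  · rintro ⟨⟨x, t⟩, h⟩ ⟨⟨y, u⟩, h'⟩ he
    have he' : pl a b ha ha' x = pl a b ha ha' y := he
    apply Subtype.ext
    show (plh a b ha ha' (1, x), min (unitInterval.symm 1 * t) (rho (plh a b ha ha' (1, x)))) =
      (plh a b ha ha' (1, y), min (unitInterval.symm 1 * u) (rho (plh a b ha ha' (1, y))))
    rw [plh_one, plh_one, he', unitInterval.symm_one, zero_mul, zero_mul]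

/-- The same for the product: `(s, (x, t)) ↦ (plh (s, x), (1 - s) t)`. -/
theorem exists_hP (a b : ℝ) (ha : 0 < a) (ha' : a < 1/2) :
    ∃ c : C(unitInterval × (UnitAddCircle × unitInterval), UnitAddCircle × unitInterval),
      (∀ z, c (0, z) = z) ∧
      ∀ z w, pl a b ha ha' z.1 = pl a b ha ha' w.1 → c (1, z) = c (1, w) := by
  refine ⟨⟨fun w => (plh a b ha ha' (w.1, w.2.1), unitInterval.symm w.1 * w.2.2), ?_⟩, ?_, ?_⟩
  · have h1 : Continuous fun w : unitInterval × (UnitAddCircle × unitInterval) =>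
        plh a b ha ha' (w.1, w.2.1) := by fun_prop
    have h2 : Continuous fun w : unitInterval × (UnitAddCircle × unitInterval) =>
        unitInterval.symm w.1 * w.2.2 :=
      (unitInterval.continuous_symm.comp continuous_fst).mul (by fun_prop)
    exact h1.prodMk h2
  · rintro ⟨x, t⟩
    show (plh a b ha ha' (0, x), unitInterval.symm 0 * t) = (x, t)
    rw [plh_zero, unitInterval.symm_zero, one_mul]
  · rintro ⟨x, t⟩ ⟨y, u⟩ he
    have he' : pl a b ha ha' x = pl a b ha ha' y := he
    show (plh a b ha ha' (1, x), unitInterval.symm 1 * t) =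
      (plh a b ha ha' (1, y), unitInterval.symm 1 * u)
    rw [plh_one, plh_one, he', unitInterval.symm_one, zero_mul, zero_mul]

end H7b
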