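import Pool.Agent.H.MP_7b4a29_an.ZMod
import Pool.Agent.H.MP_47f0a1_an.PeanoM

/-!
# The circle is equivalent to the pinched annulus
-/

open MeasureTheory

namespace H7b

open H47

/-- The Hilbert curve. -/
noncomputable def hil : C(unitInterval, unitInterval × unitInterval) := exists_hilbert.choose

theorem hil_mp : MeasurePreserving hil volume volume :=
  hilbert_measurePreserving hil exists_hilbert.choose_spec

/-- The end points: `hil (quart i s) = hA i (hil s)`; `quart 0 0 = 0` gives `hil 0 = hA 0 (hil 0)`, so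
`u = v/2`, `v = u/2`; `quart 3 1 = 1` gives `hil 1 = hA 3 (hil 1)`. -/
theorem hil_zero : hil 0 = (0, 0) := by
  have h : hil (quart 0 0) = hA 0 (hil 0) := exists_hilbert.choose_spec 0 0
  rw [peanoA_quart_zero, peanoA_hA_zero] at h
  have h1 : ((hil 0).1 : ℝ) = ((hil 0).2 : ℝ) / 2 :=
    congrArg (fun z : unitInterval × unitInterval => ((z.1 : unitInterval) : ℝ)) h
  have h2 : ((hil 0).2 : ℝ) = ((hil 0).1 : ℝ) / 2 :=
    congrArg (fun z : unitInterval × unitInterval => ((z.2 : unitInterval) : ℝ)) h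
  have h3 : ((hil 0).1 : ℝ) = 0 := by linarith
  have h4 : ((hil 0).2 : ℝ) = 0 := by linarith
  exact Prod.ext (Subtype.ext h3) (Subtype.ext h4)

theorem hil_one : hil 1 = (1, 0) := by
  have h : hil (quart 3 1) = hA 3 (hil 1) := exists_hilbert.choose_spec 3 1
  rw [peanoA_quart_one, peanoA_hA_three] at h
  have h1 : ((hil 1).1 : ℝ) = ((1 - ((hil 1).2 : ℝ)) + 1) / 2 :=
    congrArg (fun z : unitInterval × unitInterval => ((z.1 : unitInterval) : ℝ)) h
  have h2 : ((hil 1).2 : ℝ) = (1 - ((hil 1).1 : ℝ)) / 2 :=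
    congrArg (fun z : unitInterval × unitInterval => ((z.2 : unitInterval) : ℝ)) h
  have h3 : ((hil 1).1 : ℝ) = 1 := by linarith
  have h4 : ((hil 1).2 : ℝ) = 0 := by linarith
  exact Prod.ext (Subtype.ext h3) (Subtype.ext h4)

/-- The parameter `s ∈ [0,1]` of `y ∈ [1/8, 9/8]`: `(y - 1/8)/(3/4)` for `y ≤ 7/8`, then `1`. -/
noncomputable def spar (y : ℝ) : unitInterval :=
  Set.projIcc 0 1 zero_le_one ((y - 1/8) / (3/4))

/-- First coordinate (real lift): `1/8 + (3/4) u + (y - clip(y; 1/8, 7/8))`. -/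
noncomputable def xlift (y : ℝ) : ℝ :=
  1/8 + (3/4) * ((hil (spar y)).1 : ℝ) + (y - max (1/8) (min y (7/8)))

theorem zOne_spar_low {y : ℝ} (hy : y ≤ 1/8) : spar y = 0 := by
  unfold spar
  rw [Set.projIcc_of_le_left zero_le_one (by linarith)]
  rfl

theorem zOne_spar_high {y : ℝ} (hy : 7/8 ≤ y) : spar y = 1 := by
  unfold spar
  rw [Set.projIcc_of_right_le zero_le_one (by
    rw [le_div_iff₀ (by norm_num)]
    linarith)]
  rfl

theorem zOne_spar_continuous : Continuous spar :=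
  continuous_projIcc.comp (by fun_prop)

theorem zOne_xlift_continuous : Continuous xlift := by
  have h1 : Continuous fun y => ((hil (spar y)).1 : ℝ) :=
    continuous_subtype_val.comp (continuous_fst.comp (hil.continuous.comp zOne_spar_continuous))
  unfold xlift
  exact (continuous_const.add (continuous_const.mul h1)).add (by fun_prop)

/-- beyond `7/8` the lift is the identity -/
theorem zOne_xlift_high {y : ℝ} (hy : 7/8 ≤ y) : xlift y = y := by
  unfold xlift
  rw [zOne_spar_high hy, hil_one, min_eq_right hy, max_eq_right (by norm_num)]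
  norm_num

theorem zOne_xlift_start : xlift (1/8) = 1/8 := by
  unfold xlift
  rw [zOne_spar_low le_rfl, hil_zero]
  norm_num

theorem zOne_xlift_mid {y : ℝ} (h1 : 1/8 ≤ y) (h2 : y ≤ 7/8) :
    xlift y = 1/8 + (3/4) * ((hil (spar y)).1 : ℝ) := by
  unfold xlift
  rw [min_eq_left h2, max_eq_right h1, sub_self, add_zero]

theorem zOne_ends : (xlift (1/8) : UnitAddCircle) = (xlift (1/8 + 1) : UnitAddCircle) := by
  rw [zOne_xlift_start, zOne_xlift_high (by norm_num)]
  exact (AddCircle.coe_add_period (1 : ℝ) (1/8)).symm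

theorem zOne_ends2 : (hil (spar (1/8))).2 = (hil (spar (1/8 + 1))).2 := by
  rw [zOne_spar_low le_rfl, zOne_spar_high (by norm_num), hil_zero, hil_one]

/-- representatives in `[1/8, 9/8)` -/
theorem zOne_rep (z : UnitAddCircle) :
    ∃ y : ℝ, 1/8 ≤ y ∧ y < 9/8 ∧ (y : UnitAddCircle) = z := by
  obtain ⟨b, hb, rfl⟩ := AddCircle.eq_coe_Ico (p := (1 : ℝ)) z
  rcases le_or_gt (1/8 : ℝ) b with h | h
  · exact ⟨b, h, by linarith [hb.2], rfl⟩
  · exact ⟨b + 1, by linarith [hb.1], by linarith, AddCircle.coe_add_period (1 : ℝ) b⟩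

theorem zOne_norm_ge {y : ℝ} (h1 : 1/8 ≤ y) (h2 : y ≤ 7/8) :
    (1/8 : ℝ) ≤ ‖(y : UnitAddCircle)‖ := by
  rw [UnitAddCircle.norm_eq, le_abs]
  rcases le_or_gt (round y) 0 with h | h
  · left
    have h3 : ((round y : ℤ) : ℝ) ≤ 0 := by exact_mod_cast h
    linarith
  · right
    have h3 : (1 : ℝ) ≤ ((round y : ℤ) : ℝ) := by exact_mod_cast h
    linarith

theorem zOne_norm_le {y : ℝ} (h1 : 1/8 ≤ y) (h : ‖(y : UnitAddCircle)‖ ≤ 1/8) :
    y = 1/8 ∨ 7/8 ≤ y := by
  rw [UnitAddCircle.norm_eq, abs_le] at h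
  rcases le_or_gt (round y) 0 with h2 | h2
  · left
    have h3 : ((round y : ℤ) : ℝ) ≤ 0 := by exact_mod_cast h2
    linarith [h.2]
  · right
    have h3 : (1 : ℝ) ≤ ((round y : ℤ) : ℝ) := by exact_mod_cast h2
    linarith [h.1]

/-- The first coordinate as a map of the circle. It is `y ↦ xlift y` on `[1/8, 9/8]`;
`xlift (1/8) = 1/8`, `xlift (9/8) = 9/8`. Continuity: `AddCircle.liftIco_continuous` for
`y ↦ (xlift y : ℝ/ℤ)`. -/
noncomputable def z1 : C(UnitAddCircle, UnitAddCircle) where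
  toFun := AddCircle.liftIco (1 : ℝ) (1/8) (fun y => (xlift y : UnitAddCircle))
  continuous_toFun := by
    exact AddCircle.liftIco_continuous zOne_ends
      ((AddCircle.continuous_mk' (1 : ℝ)).comp zOne_xlift_continuous).continuousOn

/-- The second factor `v`. It is `0` at both ends. -/
noncomputable def v1 : C(UnitAddCircle, unitInterval) where
  toFun := AddCircle.liftIco (1 : ℝ) (1/8) (fun y => (hil (spar y)).2)
  continuous_toFun := by
    exact AddCircle.liftIco_continuous zOne_ends2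
      (continuous_snd.comp (hil.continuous.comp zOne_spar_continuous)).continuousOn

theorem z1_coe (y : ℝ) (hy : y ∈ Set.Icc (1/8 : ℝ) (9/8)) :
    z1 (y : UnitAddCircle) = (xlift y : UnitAddCircle) := by
  rcases lt_or_eq_of_le hy.2 with h | h
  · have h2 : y ∈ Set.Ico (1/8 : ℝ) (1/8 + 1) := ⟨hy.1, by linarith⟩
    exact AddCircle.liftIco_coe_apply (f := fun y => (xlift y : UnitAddCircle)) h2
  · have h1 : y = 1/8 + 1 := by linarith
    subst h1
    rw [AddCircle.coe_add_period (1 : ℝ) (1/8)]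
    refine (AddCircle.liftIco_coe_apply (f := fun y => (xlift y : UnitAddCircle))
      ⟨le_refl (1/8 : ℝ), by norm_num⟩).trans ?_
    exact zOne_ends

theorem v1_coe (y : ℝ) (hy : y ∈ Set.Icc (1/8 : ℝ) (9/8)) :
    v1 (y : UnitAddCircle) = (hil (spar y)).2 := by
  rcases lt_or_eq_of_le hy.2 with h | h
  · have h2 : y ∈ Set.Ico (1/8 : ℝ) (1/8 + 1) := ⟨hy.1, by linarith⟩
    exact AddCircle.liftIco_coe_apply (f := fun y => (hil (spar y)).2) h2
  · have h1 : y = 1/8 + 1 := by linarith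
    subst h1
    rw [AddCircle.coe_add_period (1 : ℝ) (1/8)]
    refine (AddCircle.liftIco_coe_apply (f := fun y => (hil (spar y)).2)
      ⟨le_refl (1/8 : ℝ), by norm_num⟩).trans ?_
    exact zOne_ends2

/-- The map `q : circle → ZM`, `y ↦ zp (x'(y), v(y))`. -/
noncomputable def zq1 : C(UnitAddCircle, ZM) where
  toFun y := zp (z1 y, v1 y)
  continuous_toFun := by
    exact zp.continuous.comp (z1.continuous.prodMk v1.continuous)

/-- `z1 z = z` for `‖z‖ ≤ 1/8`, and `‖z1 z‖ ≥ 1/8` for `‖z‖ ≥ 1/8`. -/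
theorem z1_spec (z : UnitAddCircle) :
    (‖z‖ ≤ 1/8 → z1 z = z) ∧ (1/8 ≤ ‖z‖ → 1/8 ≤ ‖z1 z‖) := by
  obtain ⟨y, hy1, hy2, rfl⟩ := zOne_rep z
  rw [z1_coe y ⟨hy1, hy2.le⟩]
  constructor
  · intro h
    rcases zOne_norm_le hy1 h with h1 | h1
    · rw [h1, zOne_xlift_start]
    · rw [zOne_xlift_high h1]
  · intro h
    rcases le_or_gt (7/8 : ℝ) y with h1 | h1
    · rw [zOne_xlift_high h1]
      exact h
    · rw [zOne_xlift_mid hy1 h1.le]
      have h2 := (hil (spar y)).1.2.1
      have h3 := (hil (spar y)).1.2.2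
      exact zOne_norm_ge (by linarith) (by linarith)

end H7b
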