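import Pool.Agent.H.MP_7b4a29_an.ZOne

/-!
# The map from the circle to the pinched annulus preserves the measures
-/

open MeasureTheory

namespace H7b

open H47

/-- The integral over the unit interval as an interval integral. -/
theorem zonei_int_unit (g : ℝ → ℂ) :
    ∫ x : unitInterval, g (x : ℝ) = ∫ x in (0:ℝ)..1, g x := by
  rw [intervalIntegral.integral_of_le zero_le_one, ← integral_Icc_eq_integral_Ioc]
  exact integral_subtype_comap (μ := (volume : Measure ℝ)) (s := Set.Icc (0 : ℝ) 1)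
    measurableSet_Icc g

/-- The integral over the circle as an interval integral. -/
theorem zonei_int_circle (g : UnitAddCircle → ℂ) :
    ∫ x : UnitAddCircle, g x = ∫ y in (1/8 : ℝ)..(9/8), g (y : UnitAddCircle) := by
  have h := UnitAddCircle.intervalIntegral_preimage (1/8 : ℝ) g
  rw [← h]
  norm_num

/-- The norm of a point near `1`. -/
theorem zonei_norm_le {y : ℝ} (h1 : 7/8 ≤ y) (h2 : y ≤ 9/8) :
    ‖(y : UnitAddCircle)‖ ≤ 1/8 := by
  rw [UnitAddCircle.norm_eq]
  refine (round_le y 1).trans ?_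
  rw [abs_le]
  constructor <;> push_cast <;> linarith

/-- Over the pinched part `zp` does not depend on the second variable. -/
theorem zonei_zp_const {x : UnitAddCircle} (hx : ‖x‖ ≤ 1/8) (t : unitInterval) :
    zp (x, t) = zp (x, 0) := by
  have h : rho x = 0 := Subtype.ext (rh_low _ hx)
  apply Subtype.ext
  show (x, rho x * t) = (x, rho x * 0)
  rw [h, zero_mul, zero_mul]

/-- The function on the strip. -/
noncomputable def zoneiG (f : C(ZM, ℂ)) : C(ℝ × unitInterval, ℂ) where
  toFun w := f (zp ((w.1 : UnitAddCircle), w.2))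
  continuous_toFun := by
    refine f.continuous.comp (zp.continuous.comp ?_)
    exact ((AddCircle.continuous_mk' (1 : ℝ)).comp continuous_fst).prodMk continuous_snd

theorem zoneiG_apply (f : C(ZM, ℂ)) (x : ℝ) (t : unitInterval) :
    zoneiG f (x, t) = f (zp ((x : UnitAddCircle), t)) := rfl

theorem zoneiG_cont (f : C(ZM, ℂ)) :
    Continuous (fun x : ℝ => ∫ t : unitInterval, zoneiG f (x, t)) := by
  have h := continuous_parametric_integral_of_continuous
    (μ := (volume : Measure unitInterval)) (f := fun (x : ℝ) (t : unitInterval) => zoneiG f (x, t))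
    (by exact (zoneiG f).continuous) (s := Set.univ) isCompact_univ
  simpa using h

/-- The square part. -/
theorem zonei_square (f : C(ZM, ℂ)) :
    (∫ s in (0:ℝ)..1, f (zq1 (((3/4 : ℝ) * s + 1/8 : ℝ) : UnitAddCircle))) =
      ∫ u in (0:ℝ)..1, ∫ t : unitInterval, zoneiG f ((3/4 : ℝ) * u + 1/8, t) := by
  rw [← zonei_int_unit (fun s => f (zq1 (((3/4 : ℝ) * s + 1/8 : ℝ) : UnitAddCircle))),
    ← zonei_int_unit (fun u => ∫ t : unitInterval, zoneiG f ((3/4 : ℝ) * u + 1/8, t))]
  have hsub : Continuous fun w : unitInterval × unitInterval =>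
      (((3/4 : ℝ) * (w.1 : ℝ) + 1/8, w.2) : ℝ × unitInterval) := by fun_prop
  let H : C(unitInterval × unitInterval, ℂ) := (zoneiG f).comp ⟨_, hsub⟩
  have hH : ∀ u t : unitInterval, H (u, t) = zoneiG f ((3/4 : ℝ) * (u : ℝ) + 1/8, t) :=
    fun _ _ => rfl
  have : IsProbabilityMeasure (volume : Measure (unitInterval × unitInterval)) :=
    inferInstanceAs (IsProbabilityMeasure
      ((volume : Measure unitInterval).prod (volume : Measure unitInterval)))
  have h1 := intL_comp (volume : Measure unitInterval)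
    (volume : Measure (unitInterval × unitInterval)) hil hil_mp H
  rw [intL_apply, intL_apply] at h1
  have h2 : (∫ w : unitInterval × unitInterval, H w) =
      ∫ u : unitInterval, ∫ t : unitInterval, H (u, t) :=
    integral_prod (μ := (volume : Measure unitInterval)) (ν := (volume : Measure unitInterval))
      (fun w => H w) (BoundedContinuousFunction.integrable
        (volume : Measure (unitInterval × unitInterval)) (BoundedContinuousFunction.mkOfCompact H))
  refine Eq.trans ?_ (h1.trans h2)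
  refine integral_congr_ae (Filter.Eventually.of_forall fun s => ?_)
  show f (zq1 (((3/4 : ℝ) * (s : ℝ) + 1/8 : ℝ) : UnitAddCircle)) = H (hil s)
  have hs0 := s.2.1
  have hs1 := s.2.2
  have hy : ((3/4 : ℝ) * (s : ℝ) + 1/8) ∈ Set.Icc (1/8 : ℝ) (9/8) :=
    ⟨by linarith, by linarith⟩
  have hsp : spar ((3/4 : ℝ) * (s : ℝ) + 1/8) = s := by
    have h3 : ((3/4 : ℝ) * (s : ℝ) + 1/8 - 1/8) / (3/4) = (s : ℝ) := by ring
    unfold spar
    rw [h3, Set.projIcc_val]
  have hx : xlift ((3/4 : ℝ) * (s : ℝ) + 1/8) = (3/4 : ℝ) * ((hil s).1 : ℝ) + 1/8 := by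
    rw [zOne_xlift_mid hy.1 (by linarith), hsp]
    ring
  show f (zp (z1 (((3/4 : ℝ) * (s : ℝ) + 1/8 : ℝ) : UnitAddCircle),
    v1 (((3/4 : ℝ) * (s : ℝ) + 1/8 : ℝ) : UnitAddCircle))) = _
  rw [z1_coe _ hy, v1_coe _ hy, hx, hsp]
  rfl

/-- The arc part. -/
theorem zonei_arc (f : C(ZM, ℂ)) {y : ℝ} (h1 : 7/8 ≤ y) (h2 : y ≤ 9/8) :
    f (zq1 (y : UnitAddCircle)) = ∫ t : unitInterval, zoneiG f (y, t) := by
  have hy : y ∈ Set.Icc (1/8 : ℝ) (9/8) := ⟨by linarith, h2⟩
  have h3 : ∀ t : unitInterval, zoneiG f (y, t) = f (zp ((y : UnitAddCircle), 0)) := by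
    intro t
    rw [zoneiG_apply, zonei_zp_const (zonei_norm_le h1 h2)]
  have h4 : (∫ t : unitInterval, zoneiG f (y, t)) = f (zp ((y : UnitAddCircle), 0)) := by
    rw [integral_congr_ae (Filter.Eventually.of_forall h3)]
    simp
  rw [h4]
  show f (zp (z1 (y : UnitAddCircle), v1 (y : UnitAddCircle))) = _
  rw [z1_coe _ hy, v1_coe _ hy, zOne_xlift_high h1, zOne_spar_high h1, hil_one]

/-- `q` preserves the measures.

Proof. `∫_T f(q y) dy = ∫_{1/8}^{9/8}`. On `[1/8, 7/8]`: `y = 1/8 + (3/4) s`,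
`q y = zp (1/8 + (3/4) u, v)` with `(u, v) = hil s`, so the integral is
`(3/4) ∫∫ f (zp (1/8 + (3/4) u, v)) du dv = ∫_{1/8}^{7/8} ∫_0^1 f (zp (x, v)) dv dx` (`hil_mp`). On
`[7/8, 9/8]`: `s = 1`, `q y = zp (y, 0)`, and `zp (y, t) = zp (y, 0)` for all `t` because
`rho y = 0` (`‖y‖ ≤ 1/8`), so the integral is `∫_{7/8}^{9/8} ∫_0^1 f (zp (y, t)) dt dy`. The sum is
`∫_{ℝ/ℤ × [0,1]} f ∘ zp = intL nuZ f` (`intL_nuZ`, Fubini). -/
theorem intL_zq1 (f : C(ZM, ℂ)) :
    intL (volume : Measure UnitAddCircle) (f.comp zq1) = intL nuZ f := by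
  rw [intL_nuZ, intL_apply, intL_apply]
  have hF : Continuous fun y : ℝ => f (zq1 (y : UnitAddCircle)) :=
    f.continuous.comp (zq1.continuous.comp (AddCircle.continuous_mk' (1 : ℝ)))
  have hg := zoneiG_cont f
  have hl : (∫ x : UnitAddCircle, (f.comp zq1) x) =
      ∫ y in (1/8 : ℝ)..(9/8), f (zq1 (y : UnitAddCircle)) := zonei_int_circle _
  have hr : (∫ w : UnitAddCircle × unitInterval, (f.comp zp) w) =
      ∫ y in (1/8 : ℝ)..(9/8), ∫ t : unitInterval, zoneiG f (y, t) := by
    have h1 : (∫ w : UnitAddCircle × unitInterval, (f.comp zp) w) =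
        ∫ x : UnitAddCircle, ∫ t : unitInterval, (f.comp zp) (x, t) :=
      integral_prod (μ := (volume : Measure UnitAddCircle))
        (ν := (volume : Measure unitInterval)) (fun w => (f.comp zp) w)
        (BoundedContinuousFunction.integrable
          (volume : Measure (UnitAddCircle × unitInterval))
          (BoundedContinuousFunction.mkOfCompact (f.comp zp)))
    rw [h1, zonei_int_circle]
    rfl
  rw [hl, hr,
    ← intervalIntegral.integral_add_adjacent_intervals (a := (1/8 : ℝ)) (b := 7/8) (c := 9/8)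
      (hF.intervalIntegrable _ _) (hF.intervalIntegrable _ _),
    ← intervalIntegral.integral_add_adjacent_intervals (a := (1/8 : ℝ)) (b := 7/8) (c := 9/8)
      (hg.intervalIntegrable _ _) (hg.intervalIntegrable _ _)]
  congr 1
  · have h1 := intervalIntegral.integral_comp_mul_add (a := (0 : ℝ)) (b := 1)
      (fun y : ℝ => f (zq1 (y : UnitAddCircle))) (c := (3/4 : ℝ)) (by norm_num) (1/8)
    have h2 := intervalIntegral.integral_comp_mul_add (a := (0 : ℝ)) (b := 1)
      (fun y : ℝ => ∫ t : unitInterval, zoneiG f (y, t)) (c := (3/4 : ℝ)) (by norm_num) (1/8)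
    have h3 := zonei_square f
    rw [h1, h2] at h3
    have h4 : (3/4 : ℝ) * 0 + 1/8 = 1/8 := by norm_num
    have h5 : (3/4 : ℝ) * 1 + 1/8 = 7/8 := by norm_num
    rw [h4, h5] at h3
    exact smul_right_injective ℂ (show (3/4 : ℝ)⁻¹ ≠ 0 by norm_num) h3
  · refine intervalIntegral.integral_congr fun y hy => ?_
    rw [Set.uIcc_of_le (by norm_num)] at hy
    exact zonei_arc f hy.1 hy.2

end H7b
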