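import Pool.Agent.H.MP_7b4a29_an.ZOne

/-!
# The pinched annulus is equivalent to the annulus
-/

open MeasureTheory

namespace H7b

open H47

/-- The lift of the map `κ` to `[-1/2, 1/2]`: `x` for `|x| ≥ 1/4`, `± rh |x| / 4` for `|x| ≤ 1/4`
(so `0` for `|x| ≤ 1/8`). -/
noncomputable def klift (x : ℝ) : ℝ := x - clip (1/4) x + (rh x - rh (-x)) / 4

theorem ztwo_lift_continuous {B : Type*} [TopologicalSpace B] (f : ℝ → B)
    (hf : f (-(1/2)) = f (1/2)) (hc : Continuous f) :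
    Continuous (AddCircle.liftIco (1 : ℝ) (-(1/2)) f) := by
  apply AddCircle.liftIco_continuous
  · have e : (-(1/2) + 1 : ℝ) = 1/2 := by norm_num
    rw [e]
    exact hf
  · exact hc.continuousOn

theorem ztwo_lift_coe {B : Type*} (f : ℝ → B) (hf : f (-(1/2)) = f (1/2)) (x : ℝ)
    (hx : x ∈ Set.Icc (-(1/2) : ℝ) (1/2)) :
    AddCircle.liftIco (1 : ℝ) (-(1/2)) f (x : UnitAddCircle) = f x := by
  rcases lt_or_eq_of_le hx.2 with h | h
  · exact AddCircle.liftIco_coe_apply (p := (1:ℝ)) (a := -(1/2)) ⟨hx.1, by linarith⟩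
  · subst h
    have e : (((1/2 : ℝ)) : AddCircle (1:ℝ)) = ((-(1/2) : ℝ) : AddCircle (1:ℝ)) := by
      rw [← AddCircle.coe_add_period (1:ℝ) (-(1/2))]
      norm_num
    have e2 : AddCircle.liftIco (1 : ℝ) (-(1/2)) f
        ((-(1/2) : ℝ) : AddCircle (1:ℝ)) = f (-(1/2)) :=
      AddCircle.liftIco_coe_apply (p := (1:ℝ)) (a := -(1/2)) ⟨le_refl _, by norm_num⟩
    have e3 : AddCircle.liftIco (1 : ℝ) (-(1/2)) f
        (((1/2 : ℝ)) : AddCircle (1:ℝ)) = f (-(1/2)) := by
      rw [e]; exact e2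
    exact e3.trans hf

theorem ztwo_clip_continuous (a : ℝ) : Continuous (clip a) := by
  unfold clip
  fun_prop

theorem ztwo_klift_continuous : Continuous klift := by
  unfold klift
  exact (continuous_id.sub (ztwo_clip_continuous _)).add
    ((rh_continuous.sub (rh_continuous.comp continuous_neg)).div_const 4)

theorem ztwo_klift_high (x : ℝ) (hx : 1/4 ≤ x) : klift x = x := by
  unfold klift
  rw [pl_clip_of_ge (1/4) x (by norm_num) hx, rh_high x hx, rh_low (-x) (by linarith)]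
  ring

theorem ztwo_klift_low (x : ℝ) (hx : x ≤ -(1/4)) : klift x = x := by
  unfold klift
  rw [pl_clip_of_le (1/4) x (by norm_num) hx, rh_high (-x) (by linarith), rh_low x (by linarith)]
  ring

theorem ztwo_klift_mid (x : ℝ) (hx : 0 ≤ x) (hx' : x ≤ 1/4) : klift x = rh x / 4 := by
  unfold klift
  rw [pl_clip_of_abs (1/4) x (by rw [abs_of_nonneg hx]; exact hx'), rh_low (-x) (by linarith)]
  ring

theorem ztwo_klift_neg (x : ℝ) (hx : 0 ≤ x) (hx' : x ≤ 1/4) : klift (-x) = -(rh x / 4) := by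
  unfold klift
  rw [pl_clip_of_abs (1/4) (-x) (by rw [abs_neg, abs_of_nonneg hx]; exact hx'), neg_neg,
    rh_low (-x) (by linarith)]
  ring

theorem ztwo_klift_half : klift (1/2) = 1/2 := ztwo_klift_high _ (by norm_num)

theorem ztwo_klift_neg_half : klift (-(1/2)) = -(1/2) := ztwo_klift_low _ (by norm_num)

theorem ztwo_klift_ends :
    ((klift (-(1/2)) : ℝ) : UnitAddCircle) = ((klift (1/2) : ℝ) : UnitAddCircle) := by
  rw [ztwo_klift_half, ztwo_klift_neg_half, ← AddCircle.coe_add_period (1:ℝ) (-(1/2))]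
  norm_num

noncomputable def kap2 : C(UnitAddCircle, UnitAddCircle) where
  toFun := AddCircle.liftIco (1 : ℝ) (-(1/2)) (fun x => (klift x : UnitAddCircle))
  continuous_toFun := by
    apply ztwo_lift_continuous
    · exact ztwo_klift_ends
    · exact (AddCircle.continuous_mk' (1:ℝ)).comp ztwo_klift_continuous

/-- The parameter of the Hilbert curve over the pinched arc: `4 (x + 1/8)` clipped to `[0,1]`. -/
noncomputable def spar2 (x : ℝ) : unitInterval := Set.projIcc 0 1 zero_le_one (4 * (x + 1/8))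

/-- `A(x) = (1/4) (2u - 1) √v`, `B(x) = √v`, where `(u, v) = hil (spar2 x)`. Both vanish for
`1/8 ≤ |x| ≤ 1/2`. -/
noncomputable def alift (x : ℝ) : ℝ :=
  (1/4) * (2 * ((hil (spar2 x)).1 : ℝ) - 1) * Real.sqrt ((hil (spar2 x)).2 : ℝ)

noncomputable def blift (x : ℝ) : ℝ := Real.sqrt ((hil (spar2 x)).2 : ℝ)

theorem ztwo_spar2_continuous : Continuous spar2 := by
  unfold spar2
  exact continuous_projIcc.comp (by fun_prop)

theorem ztwo_spar2_high (x : ℝ) (hx : 1/8 ≤ x) : spar2 x = 1 := by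
  unfold spar2
  rw [Set.projIcc_of_right_le zero_le_one (by linarith : (1:ℝ) ≤ 4 * (x + 1/8))]
  rfl

theorem ztwo_spar2_low (x : ℝ) (hx : x ≤ -(1/8)) : spar2 x = 0 := by
  unfold spar2
  rw [Set.projIcc_of_le_left zero_le_one (by linarith : 4 * (x + 1/8) ≤ (0:ℝ))]
  rfl

theorem ztwo_out (x : ℝ) (hx : 1/8 ≤ |x|) : alift x = 0 ∧ blift x = 0 := by
  have h2 : ((hil (spar2 x)).2 : ℝ) = 0 := by
    rcases le_abs.1 hx with h | h
    · rw [ztwo_spar2_high x h, hil_one]
      rfl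
    · rw [ztwo_spar2_low x (by linarith), hil_zero]
      rfl
  unfold alift blift
  rw [h2, Real.sqrt_zero, mul_zero]
  exact ⟨rfl, rfl⟩

theorem ztwo_blift_mem (x : ℝ) : blift x ∈ Set.Icc (0:ℝ) 1 := by
  unfold blift
  refine ⟨Real.sqrt_nonneg _, ?_⟩
  calc Real.sqrt ((hil (spar2 x)).2 : ℝ) ≤ Real.sqrt 1 :=
        Real.sqrt_le_sqrt (hil (spar2 x)).2.2.2
    _ = 1 := Real.sqrt_one

theorem ztwo_alift_abs (x : ℝ) : |alift x| ≤ 1/4 := by
  have h1 : alift x = (1/4) * ((2 * ((hil (spar2 x)).1 : ℝ) - 1) * blift x) := by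
    unfold alift blift
    ring
  have h2 : |(2 * ((hil (spar2 x)).1 : ℝ) - 1)| ≤ 1 := by
    rw [abs_le]
    have h3 := (hil (spar2 x)).1.2.1
    have h4 := (hil (spar2 x)).1.2.2
    constructor <;> linarith
  have h5 : |blift x| ≤ 1 := by
    rw [abs_of_nonneg (ztwo_blift_mem x).1]
    exact (ztwo_blift_mem x).2
  rw [h1, abs_mul, abs_mul]
  have h6 : |(1/4 : ℝ)| = 1/4 := abs_of_nonneg (by norm_num)
  rw [h6]
  have h7 : |2 * ((hil (spar2 x)).1 : ℝ) - 1| * |blift x| ≤ 1 * 1 :=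
    mul_le_mul h2 h5 (abs_nonneg _) zero_le_one
  linarith

theorem ztwo_alift_continuous : Continuous alift := by
  unfold alift
  have h1 : Continuous fun x : ℝ => ((hil (spar2 x)).1 : ℝ) :=
    continuous_subtype_val.comp (continuous_fst.comp (hil.continuous.comp ztwo_spar2_continuous))
  have h2 : Continuous fun x : ℝ => ((hil (spar2 x)).2 : ℝ) :=
    continuous_subtype_val.comp (continuous_snd.comp (hil.continuous.comp ztwo_spar2_continuous))
  exact (continuous_const.mul ((continuous_const.mul h1).sub continuous_const)).mul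
    (Real.continuous_sqrt.comp h2)

theorem ztwo_blift_continuous : Continuous blift := by
  unfold blift
  have h2 : Continuous fun x : ℝ => ((hil (spar2 x)).2 : ℝ) :=
    continuous_subtype_val.comp (continuous_snd.comp (hil.continuous.comp ztwo_spar2_continuous))
  exact Real.continuous_sqrt.comp h2

theorem ztwo_ab_ends : alift (-(1/2)) = alift (1/2) ∧ blift (-(1/2)) = blift (1/2) := by
  have h1 := ztwo_out (1/2) (by rw [abs_of_nonneg] <;> norm_num)
  have h2 := ztwo_out (-(1/2)) (by rw [abs_neg, abs_of_nonneg] <;> norm_num)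
  rw [h1.1, h1.2, h2.1, h2.2]
  exact ⟨rfl, rfl⟩

noncomputable def a2 : C(UnitAddCircle, ℝ) where
  toFun := AddCircle.liftIco (1 : ℝ) (-(1/2)) alift
  continuous_toFun := ztwo_lift_continuous alift ztwo_ab_ends.1 ztwo_alift_continuous

noncomputable def b2 : C(UnitAddCircle, ℝ) where
  toFun := AddCircle.liftIco (1 : ℝ) (-(1/2)) blift
  continuous_toFun := ztwo_lift_continuous blift ztwo_ab_ends.2 ztwo_blift_continuous

theorem kap2_coe (x : ℝ) (hx : x ∈ Set.Icc (-(1/2) : ℝ) (1/2)) :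
    kap2 (x : UnitAddCircle) = (klift x : UnitAddCircle) :=
  ztwo_lift_coe (fun x => (klift x : UnitAddCircle)) ztwo_klift_ends x hx

theorem a2_coe (x : ℝ) (hx : x ∈ Set.Icc (-(1/2) : ℝ) (1/2)) :
    a2 (x : UnitAddCircle) = alift x :=
  ztwo_lift_coe alift ztwo_ab_ends.1 x hx

theorem b2_coe (x : ℝ) (hx : x ∈ Set.Icc (-(1/2) : ℝ) (1/2)) :
    b2 (x : UnitAddCircle) = blift x :=
  ztwo_lift_coe blift ztwo_ab_ends.2 x hx

theorem ab_out (x : ℝ) (hx : 1/8 ≤ |x|) : alift x = 0 ∧ blift x = 0 :=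
  ztwo_out x hx

/-- The second coordinate of a point of `ZM` over `|x| ≤ 1/8` vanishes. -/
theorem ztwo_zm_snd (z : ZM) (x : ℝ) (hx : x ∈ Set.Icc (-(1/2) : ℝ) (1/2))
    (hxz : (x : UnitAddCircle) = z.1.1) (h : |x| ≤ 1/8) : (z.1.2 : ℝ) = 0 := by
  have h1 : z.1.2 ≤ rho z.1.1 := z.2
  have h2 : ((rho z.1.1 : unitInterval) : ℝ) = rh ‖z.1.1‖ := rfl
  have h3 : ((rho z.1.1 : unitInterval) : ℝ) = 0 := by
    rw [h2, ← hxz, norm_coe x hx, rh_low _ h]
  have h4 : (z.1.2 : ℝ) ≤ ((rho z.1.1 : unitInterval) : ℝ) := h1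
  rw [h3] at h4
  exact le_antisymm h4 z.1.2.2.1

/-- `t + B(x) ≤ 1` on `ZM`: for `‖x‖ ≤ 1/8` we have `t = 0`, otherwise `B = 0`. -/
theorem zq2_mem (z : ZM) : (z.1.2 : ℝ) + b2 z.1.1 ∈ Set.Icc (0:ℝ) 1 := by
  obtain ⟨x, hx, hxz⟩ := exists_rep z.1.1
  have hb : b2 z.1.1 = blift x := by
    rw [← hxz]
    exact b2_coe x hx
  rw [hb]
  rcases le_total |x| (1/8) with h | h
  · rw [ztwo_zm_snd z x hx hxz h, zero_add]
    exact ztwo_blift_mem x
  · rw [(ztwo_out x h).2, add_zero]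
    exact z.1.2.2

/-- The map `q : ZM → ℝ/ℤ × [0,1]`, `(x, t) ↦ (κ(x) + A(x), t + B(x))`. -/
noncomputable def zq2 : C(ZM, UnitAddCircle × unitInterval) where
  toFun z := (kap2 z.1.1 + ((a2 z.1.1 : ℝ) : UnitAddCircle),
    ⟨(z.1.2 : ℝ) + b2 z.1.1, zq2_mem z⟩)
  continuous_toFun := by
    have h1 : Continuous fun z : ZM => z.1.1 := continuous_fst.comp continuous_subtype_val
    have h2 : Continuous fun z : ZM => (z.1.2 : ℝ) :=
      continuous_subtype_val.comp (continuous_snd.comp continuous_subtype_val)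
    apply Continuous.prodMk
    · exact (kap2.continuous.comp h1).add
        ((AddCircle.continuous_mk' (1:ℝ)).comp (a2.continuous.comp h1))
    · exact Continuous.subtype_mk (h2.add (b2.continuous.comp h1)) _

theorem ztwo_zq2_fst (x : ℝ) (hx : x ∈ Set.Icc (-(1/2) : ℝ) (1/2)) (z : ZM)
    (hz : z.1.1 = (x : UnitAddCircle)) :
    (zq2 z).1 = ((klift x + alift x : ℝ) : UnitAddCircle) := by
  change kap2 z.1.1 + ((a2 z.1.1 : ℝ) : UnitAddCircle) = _
  rw [hz, kap2_coe x hx, a2_coe x hx, AddCircle.coe_add]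

theorem ztwo_zq2_snd (x : ℝ) (hx : x ∈ Set.Icc (-(1/2) : ℝ) (1/2)) (z : ZM)
    (hz : z.1.1 = (x : UnitAddCircle)) :
    ((zq2 z).2 : ℝ) = (z.1.2 : ℝ) + blift x := by
  change (z.1.2 : ℝ) + b2 z.1.1 = _
  rw [hz, b2_coe x hx]

theorem ztwo_zp_snd (x : ℝ) (hx : x ∈ Set.Icc (-(1/2) : ℝ) (1/2)) (t : unitInterval) :
    ((zp ((x : UnitAddCircle), t)).1.2 : ℝ) = rh |x| * t := by
  change rh ‖(x : UnitAddCircle)‖ * (t : ℝ) = _
  rw [norm_coe x hx]

theorem ztwo_zp_fst (x : ℝ) (t : unitInterval) :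
    (zp ((x : UnitAddCircle), t)).1.1 = (x : UnitAddCircle) := rfl

/-- Over `1/4 ≤ |x| ≤ 1/2` the map `q ∘ zp` is the identity. -/
theorem zq2_outer (x : ℝ) (hx : x ∈ Set.Icc (-(1/2) : ℝ) (1/2)) (hx' : 1/4 ≤ |x|)
    (t : unitInterval) : zq2 (zp ((x : UnitAddCircle), t)) = ((x : UnitAddCircle), t) := by
  have hk : klift x = x := by
    rcases le_abs.1 hx' with h | h
    · exact ztwo_klift_high x h
    · exact ztwo_klift_low x (by linarith)
  have ho := ztwo_out x (le_trans (by norm_num) hx')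
  apply Prod.ext
  · rw [ztwo_zq2_fst x hx _ (ztwo_zp_fst x t), hk, ho.1, add_zero]
  · apply Subtype.ext
    rw [ztwo_zq2_snd x hx _ (ztwo_zp_fst x t), ztwo_zp_snd x hx t, rh_high _ hx', ho.2, add_zero,
      one_mul]

/-- Over `1/8 ≤ x ≤ 1/4` it is `(x, t) ↦ (rh(x)/4, rh(x) t)`, similarly for negative `x`. -/
theorem zq2_middle (x : ℝ) (hx : 1/8 ≤ x) (hx' : x ≤ 1/4) (t : unitInterval) :
    (zq2 (zp ((x : UnitAddCircle), t))).1 = ((rh x / 4 : ℝ) : UnitAddCircle) ∧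
    ((zq2 (zp ((x : UnitAddCircle), t))).2 : ℝ) = rh x * t ∧
    (zq2 (zp (((-x : ℝ) : UnitAddCircle), t))).1 = ((-(rh x / 4) : ℝ) : UnitAddCircle) ∧
    ((zq2 (zp (((-x : ℝ) : UnitAddCircle), t))).2 : ℝ) = rh x * t := by
  have hx0 : 0 ≤ x := by linarith
  have hxm : x ∈ Set.Icc (-(1/2) : ℝ) (1/2) := ⟨by linarith, by linarith⟩
  have hxn : -x ∈ Set.Icc (-(1/2) : ℝ) (1/2) := ⟨by linarith, by linarith⟩
  have ho := ztwo_out x (by rw [abs_of_nonneg hx0]; exact hx)
  have hn := ztwo_out (-x) (by rw [abs_neg, abs_of_nonneg hx0]; exact hx)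
  refine ⟨?_, ?_, ?_, ?_⟩
  · rw [ztwo_zq2_fst x hxm _ (ztwo_zp_fst x t), ztwo_klift_mid x hx0 hx', ho.1, add_zero]
  · rw [ztwo_zq2_snd x hxm _ (ztwo_zp_fst x t), ztwo_zp_snd x hxm t, ho.2, add_zero,
      abs_of_nonneg hx0]
  · rw [ztwo_zq2_fst (-x) hxn _ (ztwo_zp_fst (-x) t), ztwo_klift_neg x hx0 hx', hn.1, add_zero]
  · rw [ztwo_zq2_snd (-x) hxn _ (ztwo_zp_fst (-x) t), ztwo_zp_snd (-x) hxn t, hn.2, add_zero,
      abs_neg, abs_of_nonneg hx0]

/-- Over `|x| ≤ 1/8` it is `(x, t) ↦ (A(x), B(x))`. -/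
theorem zq2_inner (x : ℝ) (hx : |x| ≤ 1/8) (t : unitInterval) :
    (zq2 (zp ((x : UnitAddCircle), t))).1 = ((alift x : ℝ) : UnitAddCircle) ∧
    ((zq2 (zp ((x : UnitAddCircle), t))).2 : ℝ) = blift x := by
  have h1 := (abs_le.1 hx).1
  have h2 := (abs_le.1 hx).2
  have hxm : x ∈ Set.Icc (-(1/2) : ℝ) (1/2) := ⟨by linarith, by linarith⟩
  have hk : klift x = 0 := by
    unfold klift
    rw [pl_clip_of_abs (1/4) x (by linarith), rh_low x (by linarith), rh_low (-x) (by linarith)]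
    ring
  constructor
  · rw [ztwo_zq2_fst x hxm _ (ztwo_zp_fst x t), hk, zero_add]
  · rw [ztwo_zq2_snd x hxm _ (ztwo_zp_fst x t), ztwo_zp_snd x hxm t, rh_low _ hx, zero_mul,
      zero_add]

/-- `pl (1/4) 0` does not see `q`: `pl (1/4) 0 ((zq2 z).1) = pl (1/4) 0 z.1`: for `‖x‖ ≥ 1/4`,
`κ(x) + A(x) = x`; for `‖x‖ ≤ 1/4` both sides are `0`, since `‖κ(x) + A(x)‖ ≤ 1/4`. -/
theorem pl_zq2 (z : ZM) :
    pl (1/4) 0 (by norm_num) (by norm_num) (zq2 z).1 =
      pl (1/4) 0 (by norm_num) (by norm_num) (zfst z) := by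
  obtain ⟨x, hx, hxz⟩ := exists_rep z.1.1
  have hf : zfst z = (x : UnitAddCircle) := hxz.symm
  rw [hf, ztwo_zq2_fst x hx z hxz.symm]
  rcases le_total (1/4) |x| with h | h
  · have hk : klift x = x := by
      rcases le_abs.1 h with h | h
      · exact ztwo_klift_high x h
      · exact ztwo_klift_low x (by linarith)
    rw [hk, (ztwo_out x (le_trans (by norm_num) h)).1, add_zero]
  · have hb : |klift x + alift x| ≤ 1/4 := by
      rcases le_total |x| (1/8) with h8 | h8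
      · have hk : klift x = 0 := by
          have h1 := (abs_le.1 h8).1
          have h2 := (abs_le.1 h8).2
          unfold klift
          rw [pl_clip_of_abs (1/4) x h, rh_low x (by linarith), rh_low (-x) (by linarith)]
          ring
        rw [hk, zero_add]
        exact ztwo_alift_abs x
      · rw [(ztwo_out x h8).1, add_zero]
        rcases le_total 0 x with h0 | h0
        · rw [abs_of_nonneg h0] at h
          rw [ztwo_klift_mid x h0 h, abs_of_nonneg (div_nonneg (rh_mem x).1 (by norm_num))]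
          linarith [(rh_mem x).2]
        · rw [abs_of_nonpos h0] at h
          have hk := ztwo_klift_neg (-x) (by linarith) h
          rw [neg_neg] at hk
          rw [hk, abs_neg, abs_of_nonneg (div_nonneg (rh_mem (-x)).1 (by norm_num))]
          linarith [(rh_mem (-x)).2]
    have hm : klift x + alift x ∈ Set.Icc (-(1/2) : ℝ) (1/2) := by
      have h1 := (abs_le.1 hb).1
      have h2 := (abs_le.1 hb).2
      exact ⟨by linarith, by linarith⟩
    rw [pl_collapse (1/4) (by norm_num) (by norm_num) _ (by rw [norm_coe _ hm]; exact hb),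
      pl_collapse (1/4) (by norm_num) (by norm_num) _ (by rw [norm_coe _ hx]; exact h)]

end H7b
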